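import Pool.Agent.Lib.H12S.Defs

/-! # H12S, chunk C2A (S): the auxiliary function of two lattice vectors -/

namespace H12S

open ComplexConjugate

/-- `s ↦ J₁ (l₀ + s l₁) * conj (J₁ (l₀ + conj s * l₁)) - (the same with J₂)` -/
noncomputable def HH (J₁ J₂ : ℂ → ℂ) (l₀ l₁ s : ℂ) : ℂ :=
  J₁ (l₀ + s * l₁) * conj (J₁ (l₀ + conj s * l₁)) -
    J₂ (l₀ + s * l₁) * conj (J₂ (l₀ + conj s * l₁))

theorem c2a_lin {J : ℂ → ℂ} (h : Differentiable ℂ J) (l₀ l₁ : ℂ) :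
    Differentiable ℂ (fun s => J (l₀ + s * l₁)) :=
  h.comp ((differentiable_const l₀).add (differentiable_id.mul_const l₁))

theorem c2a_conj {G : ℂ → ℂ} (hG : Differentiable ℂ G) : Differentiable ℂ (fun s => conj (G (conj s))) :=
  fun s => (differentiableAt_conj_conj_iff (f := G) (x := s)).2 (hG _)

/-- (C2Aa, S) PROOF. `s ↦ conj (J (l₀ + conj s * l₁))` is differentiable (it is `conj ∘ G ∘ conj` with `G` entire: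
`DifferentiableAt.conj_conj` / `differentiable_star_star` or `HasDerivAt.conj_conj`). -/
theorem HH_differentiable {J₁ J₂ : ℂ → ℂ} (h₁ : Differentiable ℂ J₁) (h₂ : Differentiable ℂ J₂)
    (l₀ l₁ : ℂ) : Differentiable ℂ (HH J₁ J₂ l₀ l₁) :=
  ((c2a_lin h₁ l₀ l₁).mul (c2a_conj (c2a_lin h₁ l₀ l₁))).sub
    ((c2a_lin h₂ l₀ l₁).mul (c2a_conj (c2a_lin h₂ l₀ l₁)))

/-- (C2Ab, S) PROOF. `conj s = s` for real `s`, `z * conj z = ‖z‖ ^ 2` (`Complex.mul_conj`). -/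
theorem HH_real (J₁ J₂ : ℂ → ℂ) (l₀ l₁ : ℂ) (s : ℝ) :
    HH J₁ J₂ l₀ l₁ s = ((‖J₁ (l₀ + s * l₁)‖ ^ 2 - ‖J₂ (l₀ + s * l₁)‖ ^ 2 : ℝ) : ℂ) := by
  unfold HH
  rw [Complex.conj_ofReal, Complex.mul_conj, Complex.mul_conj, Complex.normSq_eq_norm_sq,
    Complex.normSq_eq_norm_sq, ← Complex.ofReal_sub]

theorem c2a_re {l₀ l₁ : ℂ} {ε σ : ℝ} (hε : |l₁.im| ≤ ε)
    (hσ : l₁.re * σ = l₀.re) (s : ℂ) (hs : ε * |s.im| ≤ l₁.re * (s.re + σ)) :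
    0 ≤ (l₀ + s * l₁).re := by
  rw [Complex.add_re, Complex.mul_re]
  have h1 : s.im * l₁.im ≤ ε * |s.im| := by
    calc s.im * l₁.im ≤ |s.im * l₁.im| := le_abs_self _
      _ = |s.im| * |l₁.im| := abs_mul _ _
      _ ≤ |s.im| * ε := mul_le_mul_of_nonneg_left hε (abs_nonneg _)
      _ = ε * |s.im| := mul_comm _ _
  nlinarith

/-- (C2Ac, S) PROOF. `(l₀ + s * l₁).re = l₀.re + s.re * l₁.re - s.im * l₁.im ≥ 0` because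
`|s.im * l₁.im| ≤ ε * |s.im| ≤ l₁.re * (s.re + σ)`, `l₁.re * σ = l₀.re`; the same for `conj s`. So all four factors
are at most `M`. -/
theorem HH_bound {J₁ J₂ : ℂ → ℂ} {M : ℝ} (hM₁ : ∀ z : ℂ, 0 ≤ z.re → ‖J₁ z‖ ≤ M)
    (hM₂ : ∀ z : ℂ, 0 ≤ z.re → ‖J₂ z‖ ≤ M) {l₀ l₁ : ℂ} {ε σ : ℝ} (hε : |l₁.im| ≤ ε)
    (hσ : l₁.re * σ = l₀.re) (s : ℂ) (hs : ε * |s.im| ≤ l₁.re * (s.re + σ)) :
    ‖HH J₁ J₂ l₀ l₁ s‖ ≤ 2 * M ^ 2 := by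
  have h1 := c2a_re hε hσ s hs
  have h2 := c2a_re hε hσ (conj s) (by rw [Complex.conj_im, Complex.conj_re, abs_neg]; exact hs)
  have hM : 0 ≤ M := (norm_nonneg _).trans (hM₁ _ h1)
  have h3 : ∀ a b : ℂ, ‖a‖ ≤ M → ‖b‖ ≤ M → ‖a * conj b‖ ≤ M ^ 2 := by
    intro a b ha hb
    rw [norm_mul, RCLike.norm_conj, sq]
    exact mul_le_mul ha hb (norm_nonneg _) hM
  unfold HH
  refine (norm_sub_le _ _).trans ?_
  have h4 := h3 _ _ (hM₁ _ h1) (hM₁ _ h2)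
  have h5 := h3 _ _ (hM₂ _ h1) (hM₂ _ h2)
  linarith

end H12S
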