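import Pool.Agent.Lib.H12S.Defs

/-! # H12S, chunk S1 (M): the spreading step -/

namespace H12S

open Metric

/-- (S1a, S) PROOF. Nearest point `c₀ ∈ C` of `z₀` (`IsCompact.exists_infDist_eq_dist`):
`infDist z C ≤ |z - c₀|` and `|z - c₀| ^ 2 = |z₀ - c₀| ^ 2 + 2 Re (conj (z₀ - c₀) (z - z₀)) + |z - z₀| ^ 2`;
`q = 2 conj (z₀ - c₀)`. -/
theorem semiconcave {C : Set ℂ} (hC : IsCompact C) (hne : C.Nonempty) (z₀ : ℂ) :
    ∃ q : ℂ, ∀ z : ℂ, (infDist z C) ^ 2 ≤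
      (infDist z₀ C) ^ 2 + (q * (z - z₀)).re + ‖z - z₀‖ ^ 2 := by
  obtain ⟨c, hc, hd⟩ := hC.exists_infDist_eq_dist hne z₀
  refine ⟨⟨2 * (z₀ - c).re, -2 * (z₀ - c).im⟩, fun z => ?_⟩
  have h1 : infDist z C ≤ dist z c := infDist_le_dist_of_mem hc
  have h2 : 0 ≤ infDist z C := infDist_nonneg
  have h3 : (infDist z C) ^ 2 ≤ (dist z c) ^ 2 := pow_le_pow_left₀ h2 h1 2
  refine h3.trans (le_of_eq ?_)
  rw [hd, dist_eq_norm, dist_eq_norm, Complex.sq_norm, Complex.sq_norm, Complex.sq_norm,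
    Complex.normSq_apply, Complex.normSq_apply, Complex.normSq_apply]
  simp only [Complex.mul_re, Complex.sub_re, Complex.sub_im]
  ring

/-- (S1b, S/M) PROOF. Cauchy estimates `‖deriv Q‖ ≤ B / (1/2 - 1/8) = 8 B / 3` on the closed ball of radius `1/8`
(`Complex.norm_deriv_le_of_forall_mem_sphere_norm_le` on discs of radius `3/8`), mean value inequality
(`Convex.norm_image_sub_le_of_norm_deriv_le`). -/
theorem cauchy_diff {Q : ℂ → ℂ} (hQ : Differentiable ℂ Q) {z₀ z : ℂ} {B : ℝ}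
    (hB : ∀ w : ℂ, ‖w - z₀‖ ≤ 1 / 2 → ‖Q w‖ ≤ B) (hz : ‖z - z₀‖ ≤ 1 / 8) :
    ‖Q z₀ - Q z‖ ≤ B / 3 := by
  have hB0 : 0 ≤ B := (norm_nonneg _).trans (hB z₀ (by simp))
  have hder : ∀ w ∈ closedBall z₀ (1 / 8 : ℝ), ‖deriv Q w‖ ≤ B / (3 / 8) := by
    intro w hw
    rw [mem_closedBall, dist_eq_norm] at hw
    refine Complex.norm_deriv_le_of_forall_mem_sphere_norm_le (by norm_num)
      hQ.diffContOnCl (fun v hv => hB v ?_)
    rw [mem_sphere, dist_eq_norm] at hv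
    calc ‖v - z₀‖ = ‖(v - w) + (w - z₀)‖ := by rw [sub_add_sub_cancel]
      _ ≤ ‖v - w‖ + ‖w - z₀‖ := norm_add_le _ _
      _ ≤ 3 / 8 + 1 / 8 := add_le_add hv.le hw
      _ = 1 / 2 := by norm_num
  have hmv := (convex_closedBall z₀ (1 / 8 : ℝ)).norm_image_sub_le_of_norm_deriv_le
    (f := Q) (x := z) (y := z₀) (fun x _ => hQ x) hder
    (by rw [mem_closedBall, dist_eq_norm]; exact hz) (mem_closedBall_self (by norm_num))
  refine hmv.trans ?_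
  have h5 : ‖z₀ - z‖ ≤ 1 / 8 := by rw [norm_sub_rev]; exact hz
  calc B / (3 / 8) * ‖z₀ - z‖ ≤ B / (3 / 8) * (1 / 8) :=
        mul_le_mul_of_nonneg_left h5 (by positivity)
    _ = B / 3 := by ring

end H12S
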