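import Pool.Agent.Lib.H12S.Defs

/-! # H12S, chunk A1 (S/M): integrability and the growth of `Psi` -/

namespace H12S

open MeasureTheory

theorem a1_norm (t : ℝ) (z : ℂ) : ‖Complex.exp (-Real.pi * t ^ 2 + 2 * Real.pi * t * z)‖ =
    Real.exp (Real.pi * z.re ^ 2) * Real.exp (-Real.pi * (t - z.re) ^ 2) := by
  have h : (-(Real.pi : ℂ) * (t : ℂ) ^ 2 + 2 * Real.pi * t * z) =
      ((-Real.pi * t ^ 2 : ℝ) : ℂ) + ((2 * Real.pi * t : ℝ) : ℂ) * z := by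
    push_cast
    ring
  rw [h, Complex.norm_exp, ← Real.exp_add, Complex.add_re, Complex.ofReal_re, Complex.re_ofReal_mul]
  refine congrArg Real.exp ?_
  ring

theorem a1_sq {f : ℝ → ℂ} (hf : MemLp f 2 volume) : Integrable (fun t : ℝ => ‖f t‖ ^ 2) :=
  (memLp_two_iff_integrable_sq_norm hf.1).1 hf

theorem a1_gauss (x : ℝ) : Integrable (fun t : ℝ => Real.exp (-(2 * Real.pi) * (t - x) ^ 2)) :=
  (integrable_exp_neg_mul_sq (b := 2 * Real.pi) (by positivity)).comp_sub_right x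

/-- The pointwise bound. -/
theorem a1_le (f : ℝ → ℂ) (z : ℂ) (t : ℝ) :
    ‖f t * Complex.exp (-Real.pi * t ^ 2 + 2 * Real.pi * t * z)‖ ≤
      Real.exp (Real.pi * z.re ^ 2) *
        ((‖f t‖ ^ 2 + Real.exp (-(2 * Real.pi) * (t - z.re) ^ 2)) / 2) := by
  rw [norm_mul, a1_norm]
  have h1 : Real.exp (-(2 * Real.pi) * (t - z.re) ^ 2) = Real.exp (-Real.pi * (t - z.re) ^ 2) ^ 2 := by
    rw [← Real.exp_nat_mul]
    refine congrArg Real.exp ?_
    push_cast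
    ring
  rw [h1]
  have h2 := sq_nonneg (‖f t‖ - Real.exp (-Real.pi * (t - z.re) ^ 2))
  have h3 := Real.exp_pos (Real.pi * z.re ^ 2)
  have h4 : ‖f t‖ * Real.exp (-Real.pi * (t - z.re) ^ 2) ≤
      (‖f t‖ ^ 2 + Real.exp (-Real.pi * (t - z.re) ^ 2) ^ 2) / 2 := by nlinarith
  calc ‖f t‖ * (Real.exp (Real.pi * z.re ^ 2) * Real.exp (-Real.pi * (t - z.re) ^ 2))
      = Real.exp (Real.pi * z.re ^ 2) * (‖f t‖ * Real.exp (-Real.pi * (t - z.re) ^ 2)) := by ring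
    _ ≤ _ := mul_le_mul_of_nonneg_left h4 h3.le

theorem a1_int {f : ℝ → ℂ} (hf : MemLp f 2 volume) (z : ℂ) :
    Integrable (fun t : ℝ => Real.exp (Real.pi * z.re ^ 2) *
      ((‖f t‖ ^ 2 + Real.exp (-(2 * Real.pi) * (t - z.re) ^ 2)) / 2)) :=
  (((a1_sq hf).add (a1_gauss z.re)).div_const 2).const_mul _

/-- (A1a, S) PROOF. The factor is bounded by a Gaussian, so it is in `L²`; `MemLp.integrable_mul` (product of two
`L²` functions). Or: `‖f t‖ * g t ≤ (‖f t‖ ^ 2 + g t ^ 2) / 2`. -/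
theorem Psi_integrable {f : ℝ → ℂ} (hf : MemLp f 2 volume) (z : ℂ) :
    Integrable (fun t : ℝ => f t * Complex.exp (-Real.pi * t ^ 2 + 2 * Real.pi * t * z)) := by
  refine (a1_int hf z).mono' ?_ (Filter.Eventually.of_forall (a1_le f z))
  refine hf.1.mul (Continuous.aestronglyMeasurable ?_)
  fun_prop

/-- (A1b, S/M) PROOF. `‖Psi f z‖ ≤ ∫ ‖f t‖ exp (-π t ^ 2 + 2 π t x) dt = exp (π x ^ 2) ∫ ‖f t‖ exp (-π (t - x) ^ 2) dt`
(`x = z.re`), and `‖f t‖ g ≤ (‖f t‖ ^ 2 + g ^ 2) / 2` with `g = exp (-π (t - x) ^ 2)`; the integral of `g ^ 2` does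
not depend on `x` (`integral_sub_right_eq_self`). So `C = (∫ ‖f‖ ^ 2 + ∫ exp (-2 π t ^ 2)) / 2 + 1` works. -/
theorem Psi_bound {f : ℝ → ℂ} (hf : MemLp f 2 volume) :
    ∃ C : ℝ, 0 < C ∧ ∀ z : ℂ, ‖Psi f z‖ ≤ C * Real.exp (Real.pi * z.re ^ 2) := by
  refine ⟨(∫ t : ℝ, ‖f t‖ ^ 2) / 2 + (∫ t : ℝ, Real.exp (-(2 * Real.pi) * t ^ 2)) / 2 + 1, ?_, fun z => ?_⟩
  · have h1 : 0 ≤ ∫ t : ℝ, ‖f t‖ ^ 2 := integral_nonneg fun t => by positivity
    have h2 : 0 ≤ ∫ t : ℝ, Real.exp (-(2 * Real.pi) * t ^ 2) := integral_nonneg fun t => by positivity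
    linarith
  · unfold Psi
    refine (norm_integral_le_of_norm_le (a1_int hf z) (Filter.Eventually.of_forall (a1_le f z))).trans ?_
    rw [integral_const_mul, integral_div, integral_add (a1_sq hf) (a1_gauss z.re),
      integral_sub_right_eq_self (fun t : ℝ => Real.exp (-(2 * Real.pi) * t ^ 2)) z.re]
    have h3 := Real.exp_pos (Real.pi * z.re ^ 2)
    nlinarith

end H12S
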