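import Pool.Agent.Lib.H12S.Defs

/-! # H12S, chunk A2 (M): `Psi f` is entire -/

namespace H12S

open MeasureTheory

theorem a2_bd (t R : ℝ) (z : ℂ) (hz : ‖z‖ ≤ R) :
    Real.exp (2 * Real.pi * |t|) * ‖Complex.exp (-Real.pi * t ^ 2 + 2 * Real.pi * t * z)‖ ≤
      Real.exp (2 * Real.pi * (R + 1) ^ 2) * Real.exp (-(Real.pi / 2) * t ^ 2) := by
  rw [Complex.norm_exp, ← Real.exp_add, ← Real.exp_add]
  apply Real.exp_le_exp.mpr
  have h1 : (-(Real.pi : ℂ) * (t : ℂ) ^ 2 + 2 * (Real.pi : ℂ) * (t : ℂ) * z).re =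
      -Real.pi * t ^ 2 + 2 * Real.pi * (t * z.re) := by
    have e1 : (-(Real.pi : ℂ) * (t : ℂ) ^ 2) = ((-Real.pi * t ^ 2 : ℝ) : ℂ) := by push_cast; ring
    have e2 : (2 * (Real.pi : ℂ) * (t : ℂ) * z) = ((2 * Real.pi * t : ℝ) : ℂ) * z := by push_cast; ring
    rw [e1, e2, Complex.add_re, Complex.ofReal_re, Complex.re_ofReal_mul]
    ring
  rw [h1]
  have h2 : t * z.re ≤ |t| * R := by
    calc t * z.re ≤ |t * z.re| := le_abs_self _
      _ = |t| * |z.re| := abs_mul _ _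
      _ ≤ |t| * R := mul_le_mul_of_nonneg_left ((Complex.abs_re_le_norm z).trans hz) (abs_nonneg t)
  have h3 : 2 * |t| * (R + 1) ≤ t ^ 2 / 2 + 2 * (R + 1) ^ 2 := by
    nlinarith [sq_nonneg (|t| - 2 * (R + 1)), sq_abs t]
  have hpi := Real.pi_pos
  nlinarith [mul_le_mul_of_nonneg_left h2 (by positivity : (0 : ℝ) ≤ 2 * Real.pi), mul_le_mul_of_nonneg_left h3 hpi.le]

theorem a2_int {f : ℝ → ℂ} (hf : MemLp f 2 volume) (R : ℝ) :
    Integrable (fun t : ℝ => ‖f t‖ * (Real.exp (2 * Real.pi * (R + 1) ^ 2) * Real.exp (-(Real.pi / 2) * t ^ 2))) := by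
  have hg : MemLp (fun t : ℝ => Real.exp (2 * Real.pi * (R + 1) ^ 2) * Real.exp (-(Real.pi / 2) * t ^ 2)) 2 volume := by
    rw [memLp_two_iff_integrable_sq (Continuous.aestronglyMeasurable (by fun_prop))]
    have h1 := (integrable_exp_neg_mul_sq Real.pi_pos).const_mul (Real.exp (2 * Real.pi * (R + 1) ^ 2) ^ 2)
    refine h1.congr (Filter.Eventually.of_forall fun t => ?_)
    show Real.exp (2 * Real.pi * (R + 1) ^ 2) ^ 2 * Real.exp (-Real.pi * t ^ 2) =
      (Real.exp (2 * Real.pi * (R + 1) ^ 2) * Real.exp (-(Real.pi / 2) * t ^ 2)) ^ 2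
    rw [mul_pow, ← Real.exp_nat_mul (-(Real.pi / 2) * t ^ 2) 2]
    congr 2
    push_cast
    ring
  exact hf.norm.integrable_mul hg

/-- (A2, M) PROOF. `hasDerivAt_integral_of_dominated_loc_of_deriv_le` at `z₀` with the ball of radius `1`. The
derivative of the integrand is `f t * (2 π t) * exp (-π t ^ 2 + 2 π t z)`; for `‖z‖ ≤ R` its norm is at most
`‖f t‖ * exp (2 π |t| - π t ^ 2 + 2 π |t| R) ≤ ‖f t‖ * (exp (2 π (R + 1) ^ 2) * exp (-π t ^ 2 / 2))`
(`u ≤ exp u`, and `2 |t| (R + 1) ≤ t ^ 2 / 2 + 2 (R + 1) ^ 2`), which is integrable as a product of two `L²`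
functions. -/
theorem Psi_differentiable {f : ℝ → ℂ} (hf : MemLp f 2 volume) : Differentiable ℂ (Psi f) := by
  intro z₀
  have hmeas : ∀ z : ℂ, AEStronglyMeasurable
      (fun t : ℝ => f t * Complex.exp (-Real.pi * t ^ 2 + 2 * Real.pi * t * z)) volume := fun z =>
    hf.1.mul (Continuous.aestronglyMeasurable (by fun_prop))
  have hmeas' : AEStronglyMeasurable
      (fun t : ℝ => f t * (2 * Real.pi * t) * Complex.exp (-Real.pi * t ^ 2 + 2 * Real.pi * t * z₀)) volume :=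
    (hf.1.mul (Continuous.aestronglyMeasurable (by fun_prop))).mul (Continuous.aestronglyMeasurable (by fun_prop))
  have hint : Integrable (fun t : ℝ => f t * Complex.exp (-Real.pi * t ^ 2 + 2 * Real.pi * t * z₀)) volume := by
    refine (a2_int hf (‖z₀‖ + 1)).mono' (hmeas z₀) (Filter.Eventually.of_forall fun t => ?_)
    rw [norm_mul]
    refine mul_le_mul_of_nonneg_left ?_ (norm_nonneg _)
    have h1 := a2_bd t (‖z₀‖ + 1) z₀ (by linarith)
    have h2 : 1 ≤ Real.exp (2 * Real.pi * |t|) := Real.one_le_exp (by positivity)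
    nlinarith [norm_nonneg (Complex.exp (-Real.pi * t ^ 2 + 2 * Real.pi * t * z₀))]
  have key := hasDerivAt_integral_of_dominated_loc_of_deriv_le (𝕜 := ℂ) (μ := (volume : Measure ℝ))
    (F := fun (z : ℂ) (t : ℝ) => f t * Complex.exp (-Real.pi * t ^ 2 + 2 * Real.pi * t * z))
    (F' := fun (z : ℂ) (t : ℝ) => f t * (2 * Real.pi * t) * Complex.exp (-Real.pi * t ^ 2 + 2 * Real.pi * t * z))
    (x₀ := z₀) (s := Metric.ball z₀ 1)
    (bound := fun t : ℝ => ‖f t‖ * (Real.exp (2 * Real.pi * (‖z₀‖ + 1 + 1) ^ 2) * Real.exp (-(Real.pi / 2) * t ^ 2)))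
    (Metric.ball_mem_nhds z₀ one_pos) (Filter.Eventually.of_forall hmeas) hint hmeas'
    (Filter.Eventually.of_forall fun t z hz => by
      have hz1 : ‖z‖ ≤ ‖z₀‖ + 1 := by
        have h1 : ‖z - z₀‖ < 1 := by rwa [Metric.mem_ball, dist_eq_norm] at hz
        have h2 := norm_add_le (z - z₀) z₀
        rw [sub_add_cancel] at h2
        linarith
      rw [norm_mul, norm_mul, mul_assoc]
      refine mul_le_mul_of_nonneg_left ?_ (norm_nonneg _)
      have h1 := a2_bd t (‖z₀‖ + 1) z hz1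
      have h2 : ‖(2 * (Real.pi : ℂ) * (t : ℂ))‖ ≤ Real.exp (2 * Real.pi * |t|) := by
        have h3 : ‖(2 * (Real.pi : ℂ) * (t : ℂ))‖ = 2 * Real.pi * |t| := by
          rw [norm_mul, norm_mul, Complex.norm_real, Complex.norm_real, Real.norm_eq_abs, Real.norm_eq_abs,
            abs_of_pos Real.pi_pos]
          simp
        rw [h3]
        have h4 := Real.add_one_le_exp (2 * Real.pi * |t|)
        linarith
      exact (mul_le_mul_of_nonneg_right h2 (norm_nonneg _)).trans h1)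
    (a2_int hf (‖z₀‖ + 1))
    (Filter.Eventually.of_forall fun t z _ => by
      have h1 : HasDerivAt (fun z : ℂ => (-(Real.pi : ℂ) * (t : ℂ) ^ 2 + 2 * (Real.pi : ℂ) * (t : ℂ) * z))
          (2 * (Real.pi : ℂ) * (t : ℂ)) z := by
        have h2 := ((hasDerivAt_id z).const_mul (2 * (Real.pi : ℂ) * (t : ℂ))).const_add (-(Real.pi : ℂ) * (t : ℂ) ^ 2)
        simpa using h2
      have h3 := (h1.cexp).const_mul (f t)
      have e : f t * (2 * Real.pi * t) * Complex.exp (-Real.pi * t ^ 2 + 2 * Real.pi * t * z) =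
          f t * (Complex.exp (-Real.pi * t ^ 2 + 2 * Real.pi * t * z) * (2 * Real.pi * t)) := by ring
      rw [e]
      exact h3)
  exact key.2.differentiableAt

end H12S
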