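import Pool.Agent.Lib.H12S.Defs

/-! # H12S, chunk A3 (S): the transform `stft` in terms of `Psi` -/

namespace H12S

open MeasureTheory

/-- (A3a, S) PROOF. Pull the constant out of the integral; exponents:
`-π (t - x) ^ 2 - 2 π i w t = -π x ^ 2 + (-π t ^ 2 + 2 π t (x - i w))`. No integrability is needed
(`integral_const_mul`, `integral_congr_ae`). -/
theorem stft_eq (f : ℝ → ℂ) (x w : ℝ) :
    stft f x w = Complex.exp (-Real.pi * x ^ 2) * Psi f (x - Complex.I * w) := by
  unfold stft Psi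
  rw [← integral_const_mul]
  refine integral_congr_ae (Filter.Eventually.of_forall fun t => ?_)
  have e1 : f t * Complex.exp (-Real.pi * (t - x) ^ 2) *
      Complex.exp (-2 * Real.pi * Complex.I * w * t) =
      f t * Complex.exp (-Real.pi * (t - x) ^ 2 + -2 * Real.pi * Complex.I * w * t) := by
    rw [mul_assoc, ← Complex.exp_add]
  have e2 : Complex.exp (-Real.pi * x ^ 2) *
      (f t * Complex.exp (-Real.pi * t ^ 2 + 2 * Real.pi * t * (x - Complex.I * w))) =
      f t * Complex.exp (-Real.pi * x ^ 2 +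
        (-Real.pi * t ^ 2 + 2 * Real.pi * t * (x - Complex.I * w))) := by
    rw [mul_left_comm, ← Complex.exp_add]
  show f t * Complex.exp (-Real.pi * (t - x) ^ 2) *
      Complex.exp (-2 * Real.pi * Complex.I * w * t) = Complex.exp (-Real.pi * x ^ 2) *
      (f t * Complex.exp (-Real.pi * t ^ 2 + 2 * Real.pi * t * (x - Complex.I * w)))
  rw [e1, e2]
  congr 2
  ring

/-- (A3b, S) PROOF. `stft_eq`, the norm of `exp (-π x ^ 2)` is not zero. -/
theorem stft_norm_iff (f h : ℝ → ℂ) (x w : ℝ) :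
    ‖stft f x w‖ = ‖stft h x w‖ ↔
      ‖Psi f (x - Complex.I * w)‖ = ‖Psi h (x - Complex.I * w)‖ := by
  rw [stft_eq, stft_eq, norm_mul, norm_mul]
  exact mul_right_inj' (norm_ne_zero_iff.mpr (Complex.exp_ne_zero _))

/-- (A3c, S) PROOF. `integral_neg_eq_self` (substitution `t ↦ -t`) in the definition. -/
theorem stft_reflect (f : ℝ → ℂ) (x w : ℝ) :
    stft (fun t => f (-t)) x w = stft f (-x) (-w) := by
  unfold stft
  rw [← integral_neg_eq_self (fun t : ℝ => f t * Complex.exp (-Real.pi * (t - ((-x : ℝ) : ℂ)) ^ 2) *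
    Complex.exp (-2 * Real.pi * Complex.I * ((-w : ℝ) : ℂ) * t)) volume]
  refine integral_congr_ae (Filter.Eventually.of_forall fun t => ?_)
  show f (-t) * Complex.exp (-Real.pi * (t - x) ^ 2) *
      Complex.exp (-2 * Real.pi * Complex.I * w * t) =
    f (-t) * Complex.exp (-Real.pi * (((-t : ℝ) : ℂ) - ((-x : ℝ) : ℂ)) ^ 2) *
    Complex.exp (-2 * Real.pi * Complex.I * ((-w : ℝ) : ℂ) * ((-t : ℝ) : ℂ))
  have e1 : (((-t : ℝ) : ℂ) - ((-x : ℝ) : ℂ)) ^ 2 = ((t : ℂ) - x) ^ 2 := by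
    push_cast
    ring
  have e2 : -2 * Real.pi * Complex.I * ((-w : ℝ) : ℂ) * ((-t : ℝ) : ℂ) =
      -2 * Real.pi * Complex.I * w * t := by
    push_cast
    ring
  rw [e1, e2]

/-- (A3d, S) PROOF. `stft_reflect` and the substitution `(m, n) ↦ (-m, -n)`. -/
theorem SameSamples.reflect {a b c d : ℝ} {f h : ℝ → ℂ} (H : SameSamples a b c d f h) :
    SameSamples a b c d (fun t => f (-t)) (fun t => h (-t)) := by
  intro m n
  rw [stft_reflect, stft_reflect]
  have h1 := H (-m) (-n)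
  have e1 : -(a * (m : ℝ) + b * (n : ℝ)) = a * ((-m : ℤ) : ℝ) + b * ((-n : ℤ) : ℝ) := by
    push_cast
    ring
  have e2 : -(c * (m : ℝ) + d * (n : ℝ)) = c * ((-m : ℤ) : ℝ) + d * ((-n : ℤ) : ℝ) := by
    push_cast
    ring
  rw [e1, e2]
  exact h1

/-- (A3e, S) PROOF. The integrand is the coercion of a real function (`Complex.ofReal_exp`, `integral_ofReal`). -/
theorem Psi_real (f : ℝ → ℝ) (x : ℝ) : (Psi (fun t => (f t : ℂ)) (x : ℂ)).im = 0 := by
  unfold Psi
  have e : ∀ t : ℝ, (f t : ℂ) * Complex.exp (-Real.pi * t ^ 2 + 2 * Real.pi * t * (x : ℂ)) =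
      ((f t * Real.exp (-Real.pi * t ^ 2 + 2 * Real.pi * t * x) : ℝ) : ℂ) := by
    intro t
    push_cast
    rfl
  simp_rw [e]
  rw [integral_complex_ofReal]
  exact Complex.ofReal_im _

end H12S
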