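import Pool.Agent.Lib.H12S.Defs
import Pool.Agent.Lib.H12S.A1

/-! # H12S, chunk A4 (M): the function `exp (-2 π T z) * Psi f z` for `f = 0` on `(T, ∞)` -/

namespace H12S

open MeasureTheory

theorem a4_re1 (T : ℝ) (z : ℂ) : (-2 * Real.pi * T * z : ℂ).re = -2 * Real.pi * T * z.re := by
  have h : (-2 * Real.pi * T * z : ℂ) = ((-2 * Real.pi * T : ℝ) : ℂ) * z := by push_cast; ring
  rw [h, Complex.re_ofReal_mul]

theorem a4_re2 (t : ℝ) (z : ℂ) : (-Real.pi * t ^ 2 + 2 * Real.pi * t * z : ℂ).re = -Real.pi * t ^ 2 + 2 * Real.pi * t * z.re := by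
  have h : (-Real.pi * t ^ 2 + 2 * Real.pi * t * z : ℂ) = ((-Real.pi * t ^ 2 : ℝ) : ℂ) + ((2 * Real.pi * t : ℝ) : ℂ) * z := by
    push_cast
    ring
  rw [h, Complex.add_re, Complex.re_ofReal_mul, Complex.ofReal_re]

/-- common bound -/
theorem a4_gen {h : ℝ → ℂ} (hh : MemLp h 2 volume) (T : ℝ) :
    ∃ B : ℝ, 0 ≤ B ∧ ∀ z : ℂ, ‖Complex.exp (-2 * Real.pi * T * z) * Psi h z‖ ≤
      B * Real.exp (7 / 2 * z.re ^ 2) := by
  obtain ⟨C, hC, hb⟩ := Psi_bound hh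
  refine ⟨C * Real.exp (3 * (Real.pi * T) ^ 2), by positivity, fun z => ?_⟩
  rw [norm_mul, Complex.norm_exp, a4_re1]
  have h1 : Real.exp (-2 * Real.pi * T * z.re) * (C * Real.exp (Real.pi * z.re ^ 2)) ≤
      C * Real.exp (3 * (Real.pi * T) ^ 2) * Real.exp (7 / 2 * z.re ^ 2) := by
    have e1 : Real.exp (-2 * Real.pi * T * z.re) * (C * Real.exp (Real.pi * z.re ^ 2)) =
        C * Real.exp (-2 * Real.pi * T * z.re + Real.pi * z.re ^ 2) := by
      rw [Real.exp_add]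
      ring
    have e2 : C * Real.exp (3 * (Real.pi * T) ^ 2) * Real.exp (7 / 2 * z.re ^ 2) =
        C * Real.exp (3 * (Real.pi * T) ^ 2 + 7 / 2 * z.re ^ 2) := by
      rw [Real.exp_add]
      ring
    rw [e1, e2]
    refine mul_le_mul_of_nonneg_left (Real.exp_le_exp.2 ?_) hC.le
    have h2 := Real.pi_lt_d2
    have h3 : Real.pi * z.re ^ 2 ≤ 3.15 * z.re ^ 2 := mul_le_mul_of_nonneg_right h2.le (sq_nonneg _)
    nlinarith [sq_nonneg (Real.pi * T + z.re / 3), sq_nonneg z.re]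
  exact (mul_le_mul_of_nonneg_left (hb z) (Real.exp_nonneg _)).trans h1

/-- (A4a, S) PROOF. `exp (-2 π T z) * Psi f z = ∫ f t exp (-π t ^ 2 + 2 π (t - T) z) dt`, and the norm of the
integrand is at most `‖f t‖ exp (-π t ^ 2)` for almost all `t` (it is `0` for `t > T`, and `(t - T) z.re ≤ 0` for
`t ≤ T`); `A = ∫ ‖f t‖ exp (-π t ^ 2) dt`. -/
theorem half_bound {f : ℝ → ℂ} (hf : MemLp f 2 volume) {T : ℝ} (hT : ∀ᵐ t : ℝ, T < t → f t = 0) :
    ∃ A : ℝ, 0 ≤ A ∧ ∀ z : ℂ, 0 ≤ z.re → ‖Complex.exp (-2 * Real.pi * T * z) * Psi f z‖ ≤ A := by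
  refine ⟨∫ t : ℝ, ‖f t * Complex.exp (-Real.pi * t ^ 2 + 2 * Real.pi * t * (0 : ℂ))‖, integral_nonneg fun t => norm_nonneg _,
    fun z hz => ?_⟩
  have e1 : Complex.exp (-2 * Real.pi * T * z) * Psi f z =
      ∫ t : ℝ, Complex.exp (-2 * Real.pi * T * z) * (f t * Complex.exp (-Real.pi * t ^ 2 + 2 * Real.pi * t * z)) := by
    rw [integral_const_mul]
    rfl
  rw [e1]
  refine (norm_integral_le_integral_norm _).trans ?_
  refine integral_mono_ae ((Psi_integrable hf z).const_mul _).norm (Psi_integrable hf 0).norm ?_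
  filter_upwards [hT] with t ht
  by_cases h : T < t
  · rw [ht h, zero_mul, zero_mul, mul_zero]
  · rw [norm_mul, norm_mul, norm_mul, Complex.norm_exp, Complex.norm_exp, Complex.norm_exp, a4_re1, a4_re2, a4_re2]
    have h1 : Real.exp (-2 * Real.pi * T * z.re) * (‖f t‖ * Real.exp (-Real.pi * t ^ 2 + 2 * Real.pi * t * z.re)) =
        ‖f t‖ * Real.exp (-2 * Real.pi * T * z.re + (-Real.pi * t ^ 2 + 2 * Real.pi * t * z.re)) := by
      rw [Real.exp_add (-2 * Real.pi * T * z.re)]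
      ring
    rw [h1]
    refine mul_le_mul_of_nonneg_left (Real.exp_le_exp.2 ?_) (norm_nonneg _)
    rw [Complex.zero_re]
    have h2 : 0 ≤ Real.pi * ((T - t) * z.re) := mul_nonneg Real.pi_pos.le (mul_nonneg (by linarith) hz)
    nlinarith

/-- (A4b, S/M) PROOF. For `z.re ≥ 0`: `half_bound`, `negsq z = 0`. For `x = z.re < 0`: `Psi_bound` gives
`C exp (2 π |T| |x| + π x ^ 2)`, and `2 π |T| |x| + π x ^ 2 ≤ 4 x ^ 2 + (π T) ^ 2 / (4 - π)`
(`π < 4`, square of `(4 - π) |x| - π |T|`). -/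
theorem half_bound_all {f : ℝ → ℂ} (hf : MemLp f 2 volume) {T : ℝ}
    (hT : ∀ᵐ t : ℝ, T < t → f t = 0) :
    ∃ A : ℝ, 0 ≤ A ∧ ∀ z : ℂ, ‖Complex.exp (-2 * Real.pi * T * z) * Psi f z‖ ≤
      A * Real.exp (4 * negsq z) := by
  obtain ⟨A, hA, h1⟩ := half_bound hf hT
  obtain ⟨B, hB, h2⟩ := a4_gen hf T
  refine ⟨A + B, by linarith, fun z => ?_⟩
  rcases le_or_gt 0 z.re with hz | hz
  · have h3 : negsq z = 0 := by
      unfold negsq
      rw [max_eq_left (by linarith)]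
      norm_num
    rw [h3, mul_zero, Real.exp_zero, mul_one]
    exact (h1 z hz).trans (by linarith)
  · have h3 : negsq z = z.re ^ 2 := by
      unfold negsq
      rw [max_eq_right (by linarith)]
      ring
    rw [h3]
    refine (h2 z).trans (mul_le_mul (by linarith) (Real.exp_le_exp.2 ?_) (Real.exp_nonneg _) (by linarith))
    nlinarith [sq_nonneg z.re]

/-- (A4c, S) PROOF. `Psi_bound`: at most `C exp (2 π |T| ‖z‖ + π ‖z‖ ^ 2)`, and `2 π |T| r + π r ^ 2 ≤ 7/2 r ^ 2 + C'`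
for a constant `C'` (`π < 3.15`: `Real.pi_lt_d2`; `C' = 10 (π T) ^ 2`, since `7/2 - π ≥ 0.35`). -/
theorem growth {h : ℝ → ℂ} (hh : MemLp h 2 volume) (T : ℝ) :
    ∃ B : ℝ, 0 ≤ B ∧ ∀ z : ℂ, ‖Complex.exp (-2 * Real.pi * T * z) * Psi h z‖ ≤
      B * Real.exp (7 / 2 * ‖z‖ ^ 2) := by
  obtain ⟨B, hB, h2⟩ := a4_gen hh T
  refine ⟨B, hB, fun z => (h2 z).trans (mul_le_mul_of_nonneg_left (Real.exp_le_exp.2 ?_) hB)⟩
  have h3 := Complex.abs_re_le_norm z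
  have h4 : z.re ^ 2 ≤ ‖z‖ ^ 2 := by
    rw [← sq_abs]
    exact pow_le_pow_left₀ (abs_nonneg _) h3 2
  linarith

end H12S
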