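import Pool.Agent.Lib.H12S.Defs
import Pool.Agent.Lib.H12S.A1

/-! # H12S, chunk A6 (M): `Psi` determines `f` -/

namespace H12S

open MeasureTheory

open scoped ContDiff FourierTransform SchwartzMap

/-- the Fourier transform of `F` vanishes -/
theorem a6_fourier_zero {F : ℝ → ℂ}
    (h0 : ∀ w : ℝ, ∫ t : ℝ, F t * Complex.exp (-2 * Real.pi * Complex.I * w * t) = 0) (w : ℝ) :
    VectorFourier.fourierIntegral Real.fourierChar volume (innerₗ ℝ) F w = 0 := by
  have h1 : VectorFourier.fourierIntegral Real.fourierChar volume (innerₗ ℝ) F w = 𝓕 F w := rfl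
  rw [h1, Real.fourier_real_eq_integral_exp_smul, ← h0 w]
  refine integral_congr_ae (Filter.Eventually.of_forall fun t => ?_)
  simp only [smul_eq_mul]
  rw [mul_comm]
  congr 2
  push_cast
  ring

/-- (A6a, M) PROOF. Injectivity of the Fourier transform on `L¹(ℝ)`. Either: for every Schwartz function `φ`,
`∫ F * 𝓕 φ = ∫ 𝓕 F * φ = 0` (`VectorFourier.integral_fourierIntegral_smul_eq_flip`), the Fourier transform is
onto the Schwartz space, and `ae_eq_zero_of_integral_contDiff_smul_eq_zero`. Or: real and imaginary parts have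
vanishing transform, positive and negative parts of a real function give two finite measures with the same
`charFun`, `Measure.ext_of_charFun`. -/
theorem fourier_injective {F : ℝ → ℂ} (hF : Integrable F)
    (h0 : ∀ w : ℝ, ∫ t : ℝ, F t * Complex.exp (-2 * Real.pi * Complex.I * w * t) = 0) :
    ∀ᵐ t : ℝ, F t = 0 := by
  apply ae_eq_zero_of_integral_contDiff_smul_eq_zero hF.locallyIntegrable
  intro g g_smooth g_cpt
  have hg₁ : HasCompactSupport (Complex.ofRealCLM ∘ g) := g_cpt.comp_left rfl
  have hg₂ : ContDiff ℝ ∞ (Complex.ofRealCLM ∘ g) := by fun_prop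
  let φ : 𝓢(ℝ, ℂ) := hg₁.toSchwartzMap hg₂
  let ψ : 𝓢(ℝ, ℂ) := 𝓕⁻ φ
  have hφ : 𝓕 ψ = φ := FourierTransform.fourier_fourierInv_eq φ
  have h1 := VectorFourier.integral_fourierIntegral_smul_eq_flip (L := innerₗ ℝ)
    Real.continuous_fourierChar continuous_inner hF ψ.integrable (μ := volume) (ν := volume)
  have h2 : (∫ ξ : ℝ, VectorFourier.fourierIntegral Real.fourierChar volume (innerₗ ℝ) F ξ • ψ ξ)
      = 0 := by
    have : ∀ ξ : ℝ, VectorFourier.fourierIntegral Real.fourierChar volume (innerₗ ℝ) F ξ • ψ ξ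
      = 0 := by
      intro ξ
      rw [a6_fourier_zero h0 ξ, zero_smul]
    rw [integral_congr_ae (Filter.Eventually.of_forall this), integral_zero]
  have h3 : ∀ x : ℝ, VectorFourier.fourierIntegral Real.fourierChar volume (innerₗ ℝ).flip ψ x
      = (g x : ℂ) := by
    intro x
    have h4 : VectorFourier.fourierIntegral Real.fourierChar volume (innerₗ ℝ).flip ψ x
      = (𝓕 ψ) x := by
      rw [SchwartzMap.fourier_coe, flip_innerₗ]
      rfl
    rw [h4, hφ]
    rfl
  have h5 : ∀ x : ℝ, g x • F x = F x •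
      VectorFourier.fourierIntegral Real.fourierChar volume (innerₗ ℝ).flip ψ x := by
    intro x
    rw [h3 x, Complex.real_smul, smul_eq_mul, mul_comm]
  calc ∫ x, g x • F x = ∫ x, F x •
      VectorFourier.fourierIntegral Real.fourierChar volume (innerₗ ℝ).flip ψ x :=
        integral_congr_ae (Filter.Eventually.of_forall h5)
    _ = ∫ ξ : ℝ, VectorFourier.fourierIntegral Real.fourierChar volume (innerₗ ℝ) F ξ • ψ ξ := h1.symm
    _ = 0 := h2

/-- (A6b, S) PROOF. `fourier_injective` for `F t = f t * exp (-π t ^ 2)` and the points `z = -i w`. -/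
theorem Psi_injective {f : ℝ → ℂ} (hf : MemLp f 2 volume) (h0 : ∀ z : ℂ, Psi f z = 0) :
    ∀ᵐ t : ℝ, f t = 0 := by
  have h1 := fourier_injective (Psi_integrable hf 0) (fun w => by
    refine Eq.trans ?_ (h0 (-(Complex.I * w)))
    unfold Psi
    refine integral_congr_ae (Filter.Eventually.of_forall fun t => ?_)
    simp only []
    rw [mul_assoc, ← Complex.exp_add]
    congr 2
    ring)
  filter_upwards [h1] with t ht
  rcases mul_eq_zero.mp ht with h | h
  · exact h
  · exact absurd h (Complex.exp_ne_zero _)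

/-- (A6c, S) PROOF. `Psi (h - u f) = Psi h - u Psi f = 0` (`Psi_integrable`, `integral_sub`,
`integral_const_mul`), `Psi_injective`. -/
theorem eq_of_Psi {f h : ℝ → ℂ} (hf : MemLp f 2 volume) (hh : MemLp h 2 volume) {u : ℂ}
    (hu : ∀ z : ℂ, Psi h z = u * Psi f z) : ∀ᵐ t : ℝ, h t = u * f t := by
  have h1 : MemLp (fun t => h t - u * f t) 2 volume := hh.sub (hf.const_mul u)
  have h2 : ∀ z : ℂ, Psi (fun t => h t - u * f t) z = 0 := by
    intro z
    have h3 : Psi (fun t => h t - u * f t) z = Psi h z - u * Psi f z := by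
      unfold Psi
      rw [← integral_const_mul, ← integral_sub (Psi_integrable hh z) ((Psi_integrable hf z).const_mul u)]
      refine integral_congr_ae (Filter.Eventually.of_forall fun t => ?_)
      simp only []
      ring
    rw [h3, hu z, sub_self]
  filter_upwards [Psi_injective h1 h2] with t ht
  exact sub_eq_zero.mp ht

end H12S
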