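import Pool.Agent.Lib.H12S.Defs

/-! # H12S, chunk B1 (M): one Blaschke factor of a strip -/

namespace H12S

open Set

/-- the open horizontal strip of half-width `α` -/
def strip (α : ℝ) : Set ℂ := Complex.im ⁻¹' Ioo (-α) α

theorem b1_sinh (w : ℂ) : ‖Complex.sinh w‖ ^ 2 = Real.sinh w.re ^ 2 + Real.sin w.im ^ 2 := by
  have e : Complex.sinh w = ((Real.sinh w.re * Real.cos w.im : ℝ) : ℂ) + ((Real.cosh w.re * Real.sin w.im : ℝ) : ℂ) * Complex.I := by
    conv_lhs => rw [← Complex.re_add_im w]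
    rw [Complex.sinh_add, Complex.cosh_mul_I, Complex.sinh_mul_I]
    push_cast
    ring
  rw [e, Complex.sq_norm, Complex.normSq_add_mul_I, mul_pow, mul_pow, Real.cosh_sq]
  have h := Real.sin_sq_add_cos_sq w.im
  have h2 : Real.cos w.im ^ 2 = 1 - Real.sin w.im ^ 2 := by linarith
  rw [h2]
  ring

theorem b1_cosh (w : ℂ) : ‖Complex.cosh w‖ ^ 2 = Real.sinh w.re ^ 2 + Real.cos w.im ^ 2 := by
  have e : Complex.cosh w = ((Real.cosh w.re * Real.cos w.im : ℝ) : ℂ) + ((Real.sinh w.re * Real.sin w.im : ℝ) : ℂ) * Complex.I := by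
    conv_lhs => rw [← Complex.re_add_im w]
    rw [Complex.cosh_add, Complex.cosh_mul_I, Complex.sinh_mul_I]
    push_cast
    ring
  rw [e, Complex.sq_norm, Complex.normSq_add_mul_I, mul_pow, mul_pow, Real.cosh_sq]
  have h := Real.sin_sq_add_cos_sq w.im
  have h2 : Real.sin w.im ^ 2 = 1 - Real.cos w.im ^ 2 := by linarith
  rw [h2]
  ring

theorem b1_cos {y : ℝ} (hy : |y| ≤ Real.pi / 4) : 1 / 2 ≤ Real.cos y ^ 2 := by
  have h1 : Real.cos (Real.pi / 4) ≤ Real.cos y := by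
    rw [← Real.cos_abs y]
    exact Real.cos_le_cos_of_nonneg_of_le_pi (abs_nonneg y) (by linarith [Real.pi_pos]) hy
  rw [Real.cos_pi_div_four] at h1
  have h2 : (Real.sqrt 2) ^ 2 = 2 := Real.sq_sqrt (by norm_num)
  have h3 : 0 ≤ Real.sqrt 2 := Real.sqrt_nonneg 2
  nlinarith

/-- (B1a, S) PROOF. `|sinh (x + i y)| ^ 2 = sinh x ^ 2 + sin y ^ 2`, `|cosh (x + i y)| ^ 2 = sinh x ^ 2 + cos y ^ 2`,
and `sin y ^ 2 = cos y ^ 2` for `y = ± π / 4` (`Complex.sinh_add`, `Complex.normSq`). -/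
theorem sinh_cosh_boundary {w : ℂ} (hw : |w.im| = Real.pi / 4) :
    ‖Complex.sinh w‖ = ‖Complex.cosh w‖ := by
  have hc : Real.cos w.im ^ 2 = 1 / 2 := by
    rw [← Real.cos_abs, hw, Real.cos_pi_div_four, div_pow, Real.sq_sqrt (by norm_num)]
    norm_num
  have hs : Real.sin w.im ^ 2 = 1 / 2 := by
    have h := Real.sin_sq_add_cos_sq w.im
    linarith
  have h1 : ‖Complex.sinh w‖ ^ 2 = ‖Complex.cosh w‖ ^ 2 := by
    rw [b1_sinh, b1_cosh, hc, hs]
  exact (pow_left_inj₀ (norm_nonneg _) (norm_nonneg _) two_ne_zero).1 h1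

/-- (B1b, S) PROOF. Same formulas, `sin y ^ 2 ≤ cos y ^ 2` for `|y| ≤ π / 4`. -/
theorem sinh_le_cosh {w : ℂ} (hw : |w.im| ≤ Real.pi / 4) :
    ‖Complex.sinh w‖ ≤ ‖Complex.cosh w‖ := by
  have hc := b1_cos hw
  have h := Real.sin_sq_add_cos_sq w.im
  have h1 : ‖Complex.sinh w‖ ^ 2 ≤ ‖Complex.cosh w‖ ^ 2 := by
    rw [b1_sinh, b1_cosh]
    linarith
  exact (pow_le_pow_iff_left₀ (norm_nonneg _) (norm_nonneg _) two_ne_zero).1 h1

/-- (B1c, S) PROOF. Same formulas: `cosh w = 0` would give `cos w.im = 0`, `sinh w = 0` gives `sinh w.re = 0` and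
`sin w.im = 0`. -/
theorem cosh_ne {w : ℂ} (hw : |w.im| ≤ Real.pi / 4) : Complex.cosh w ≠ 0 := by
  intro h0
  have h1 := b1_cosh w
  rw [h0, norm_zero] at h1
  have hc := b1_cos hw
  have h2 := sq_nonneg (Real.sinh w.re)
  norm_num at h1
  linarith

/-- (B1d, S) PROOF. See `cosh_ne`. -/
theorem sinh_ne {w : ℂ} (hw : |w.im| ≤ Real.pi / 4) (h0 : w ≠ 0) : Complex.sinh w ≠ 0 := by
  intro h
  have h1 := b1_sinh w
  rw [h, norm_zero] at h1
  have h2 := sq_nonneg (Real.sinh w.re)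
  have h3 := sq_nonneg (Real.sin w.im)
  have h4 : Real.sinh w.re ^ 2 = 0 := by
    norm_num at h1
    linarith
  have h5 : Real.sin w.im ^ 2 = 0 := by
    norm_num at h1
    linarith
  have hpi := Real.pi_pos
  have hab := abs_le.1 hw
  have h6 : w.im = 0 := (Real.sin_eq_zero_iff_of_lt_of_lt (by linarith) (by linarith)).1 (pow_eq_zero_iff two_ne_zero |>.1 h5)
  have h7 : w.re = 0 := Real.sinh_eq_zero.1 (pow_eq_zero_iff two_ne_zero |>.1 h4)
  exact h0 (Complex.ext h7 h6)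

end H12S
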