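import Pool.Agent.Lib.H12S.Defs
import Pool.Agent.Lib.H12S.B1

/-! # H12S, chunk B2 (M): division by a Blaschke factor of a strip -/

namespace H12S

open Set

theorem b2_closure {α : ℝ} (hα : 0 < α) : closure (strip α) = Complex.im ⁻¹' Icc (-α) α := by
  unfold strip
  rw [Complex.closure_preimage_im, closure_Ioo (by linarith)]

theorem b2_open (α : ℝ) : IsOpen (strip α) := isOpen_Ioo.preimage Complex.continuous_im

/-- far from the zero the quotient `cosh / sinh` is bounded -/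
theorem b2_far {κ : ℝ} (hκ : 0 < κ) {z : ℂ} (hz : κ ≤ |z.re|) :
    ‖Complex.cosh z‖ ≤ Real.sqrt (1 + 1 / Real.sinh κ ^ 2) * ‖Complex.sinh z‖ := by
  have hs : 0 < Real.sinh κ := Real.sinh_pos_iff.2 hκ
  have h1 : Real.sinh κ ^ 2 ≤ Real.sinh z.re ^ 2 := by
    have h2 : Real.sinh κ ≤ |Real.sinh z.re| := by
      rw [Real.abs_sinh]
      exact Real.sinh_le_sinh.2 hz
    rw [← sq_abs (Real.sinh z.re)]
    exact pow_le_pow_left₀ hs.le h2 2
  have h3 := b1_sinh z
  have h4 := b1_cosh z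
  have h5 := Real.sin_sq_add_cos_sq z.im
  have h6 : 0 ≤ Real.sin z.im ^ 2 := sq_nonneg _
  have hG : 0 ≤ 1 + 1 / Real.sinh κ ^ 2 := by positivity
  have h7 : ‖Complex.cosh z‖ ^ 2 ≤ (Real.sqrt (1 + 1 / Real.sinh κ ^ 2) * ‖Complex.sinh z‖) ^ 2 := by
    rw [mul_pow, Real.sq_sqrt hG, h3, h4]
    have h8 : 1 ≤ 1 / Real.sinh κ ^ 2 * Real.sinh z.re ^ 2 := by
      rw [div_mul_eq_mul_div, one_mul, le_div_iff₀ (by positivity), one_mul]
      exact h1
    have h9 : 0 ≤ 1 / Real.sinh κ ^ 2 * Real.sin z.im ^ 2 := by positivity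
    have h10 : (1 + 1 / Real.sinh κ ^ 2) * (Real.sinh z.re ^ 2 + Real.sin z.im ^ 2) =
        Real.sinh z.re ^ 2 + Real.sin z.im ^ 2 + 1 / Real.sinh κ ^ 2 * Real.sinh z.re ^ 2 +
          1 / Real.sinh κ ^ 2 * Real.sin z.im ^ 2 := by ring
    rw [h10]
    linarith
  exact (pow_le_pow_iff_left₀ (norm_nonneg _) (by positivity) two_ne_zero).1 h7

/-- (B2, M) PROOF. Let `κ = π / (4 α)`, `σ w = sinh (κ (w - w₀))` and
`F₁ w = dslope F w₀ w * cosh (κ (w - w₀)) / dslope σ w₀ w`. `dslope σ w₀` has no zero on the closed strip (value `κ`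
at `w₀`, and `sinh_ne`), so `F₁` is continuous on the closed strip and holomorphic on the open one
(`continuousOn_dslope`, `Complex.differentiableOn_dslope`), and
`F w * cosh (κ (w - w₀)) = F₁ w * sinh (κ (w - w₀))` (both sides are `0` at `w₀`). `F₁` is bounded: near `w₀`
(compact part of the closed strip) by continuity; for `|w.re - w₀| ≥ 1` by
`|cosh / sinh| ≤ cosh (κ |Re|) / sinh (κ |Re|) ≤ const`. On the boundary `|cosh| = |sinh|` (`sinh_cosh_boundary`), so
`‖F₁‖ = ‖F‖ ≤ M` there, and `PhragmenLindelof.horizontal_strip` (with `c = 0`, the function is bounded) gives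
`‖F₁‖ ≤ M` everywhere. -/
theorem blaschke_step {α : ℝ} (hα : 0 < α) {F : ℂ → ℂ} {M : ℝ} (hF : DiffContOnCl ℂ F (strip α))
    (hM : ∀ w : ℂ, |w.im| ≤ α → ‖F w‖ ≤ M) (w₀ : ℝ) (h0 : F w₀ = 0) :
    ∃ F₁ : ℂ → ℂ, DiffContOnCl ℂ F₁ (strip α) ∧ (∀ w : ℂ, |w.im| ≤ α → ‖F₁ w‖ ≤ M) ∧
      ∀ w : ℂ, |w.im| ≤ α →
        F w * Complex.cosh (Real.pi / (4 * α) * (w - w₀)) =
          F₁ w * Complex.sinh (Real.pi / (4 * α) * (w - w₀)) := by
  obtain ⟨κ, hκ⟩ : ∃ κ : ℝ, κ = Real.pi / (4 * α) := ⟨_, rfl⟩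
  have hκ0 : 0 < κ := by rw [hκ]; positivity
  have hκα : κ * α = Real.pi / 4 := by rw [hκ]; field_simp
  have hκc : (Real.pi / (4 * α) : ℂ) = (κ : ℂ) := by rw [hκ]; push_cast; ring
  rw [hκc]
  obtain ⟨σ, hσ⟩ : ∃ σ : ℂ → ℂ, σ = fun w => Complex.sinh (κ * (w - w₀)) := ⟨_, rfl⟩
  have hσd : Differentiable ℂ σ := by
    rw [hσ]
    fun_prop
  have hw0 : (w₀ : ℂ) ∈ strip α := by
    show (w₀ : ℂ).im ∈ Ioo (-α) α
    rw [Complex.ofReal_im]
    exact ⟨by linarith, hα⟩
  have hnh : strip α ∈ nhds (w₀ : ℂ) := (b2_open α).mem_nhds hw0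
  have hnhc : closure (strip α) ∈ nhds (w₀ : ℂ) := Filter.mem_of_superset hnh subset_closure
  have him : ∀ w : ℂ, (κ * (w - w₀) : ℂ).im = κ * w.im := by
    intro w
    simp [Complex.mul_im]
  have hre : ∀ w : ℂ, (κ * (w - w₀) : ℂ).re = κ * (w.re - w₀) := by
    intro w
    simp [Complex.mul_re]
  have him4 : ∀ w : ℂ, |w.im| ≤ α → |(κ * (w - w₀) : ℂ).im| ≤ Real.pi / 4 := by
    intro w hw
    rw [him, abs_mul, abs_of_pos hκ0, ← hκα]
    exact mul_le_mul_of_nonneg_left hw hκ0.le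
  have hsn : ∀ w : ℂ, |w.im| ≤ α → w ≠ w₀ → σ w ≠ 0 := by
    intro w hw hne
    rw [hσ]
    refine sinh_ne (him4 w hw) ?_
    exact mul_ne_zero (by exact_mod_cast hκ0.ne') (sub_ne_zero.2 hne)
  have hσ0 : σ w₀ = 0 := by rw [hσ]; simp
  have hds : ∀ w : ℂ, |w.im| ≤ α → dslope σ (w₀ : ℂ) w ≠ 0 := by
    intro w hw
    by_cases hne : w = w₀
    · rw [hne, dslope_same]
      have hd : HasDerivAt σ (κ : ℂ) (w₀ : ℂ) := by
        rw [hσ]
        have h1 : HasDerivAt (fun w : ℂ => (κ : ℂ) * (w - w₀)) (κ * 1) (w₀ : ℂ) :=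
          ((hasDerivAt_id (w₀ : ℂ)).sub_const (w₀ : ℂ)).const_mul (κ : ℂ)
        have h2 := h1.csinh
        rw [sub_self, mul_zero, Complex.cosh_zero, one_mul, mul_one] at h2
        exact h2
      rw [hd.deriv]
      exact_mod_cast hκ0.ne'
    · rw [dslope_of_ne _ hne, slope_def_field, hσ0, sub_zero]
      exact div_ne_zero (hsn w hw hne) (sub_ne_zero.2 hne)
  have hcl : ∀ w : ℂ, w ∈ closure (strip α) ↔ |w.im| ≤ α := by
    intro w
    rw [b2_closure hα, mem_preimage, mem_Icc, abs_le]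
  have hst : ∀ w : ℂ, w ∈ strip α → |w.im| ≤ α := fun w hw => (hcl w).1 (subset_closure hw)
  obtain ⟨F₁, hF₁⟩ : ∃ F₁ : ℂ → ℂ, F₁ = fun w => dslope F (w₀ : ℂ) w * Complex.cosh (κ * (w - w₀)) / dslope σ (w₀ : ℂ) w :=
    ⟨_, rfl⟩
  have hform : ∀ w : ℂ, |w.im| ≤ α → w ≠ w₀ → F₁ w = F w * Complex.cosh (κ * (w - w₀)) / Complex.sinh (κ * (w - w₀)) := by
    intro w hw hne
    have h1 : w - w₀ ≠ 0 := sub_ne_zero.2 hne
    have h2 : Complex.sinh (κ * (w - w₀)) ≠ 0 := by
      have := hsn w hw hne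
      rw [hσ] at this
      exact this
    rw [hF₁]
    simp only
    rw [dslope_of_ne _ hne, dslope_of_ne _ hne, slope_def_field, slope_def_field, hσ0, h0, sub_zero, sub_zero, hσ]
    simp only
    field_simp
  have hFd : DifferentiableOn ℂ F (strip α) := hF.differentiableOn
  have hFc : ContinuousOn F (closure (strip α)) := hF.continuousOn
  have hFa : DifferentiableAt ℂ F (w₀ : ℂ) := hFd.differentiableAt hnh
  have hdiff : DiffContOnCl ℂ F₁ (strip α) := by
    refine ⟨?_, ?_⟩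
    · rw [hF₁]
      refine DifferentiableOn.div (DifferentiableOn.mul ((Complex.differentiableOn_dslope hnh).2 hFd) ?_)
        ((Complex.differentiableOn_dslope hnh).2 hσd.differentiableOn) (fun w hw => hds w (hst w hw))
      exact Differentiable.differentiableOn (by fun_prop)
    · rw [hF₁]
      refine ContinuousOn.div (ContinuousOn.mul ((continuousOn_dslope hnhc).2 ⟨hFc, hFa⟩) ?_)
        ((continuousOn_dslope hnhc).2 ⟨hσd.continuous.continuousOn, hσd _⟩) (fun w hw => hds w ((hcl w).1 hw))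
      exact Continuous.continuousOn (by fun_prop)
  have hM0 : 0 ≤ M := (norm_nonneg _).trans (hM 0 (by simp [hα.le]))
  have hbd : ∀ w : ℂ, |w.im| = α → ‖F₁ w‖ ≤ M := by
    intro w hw
    have hne : w ≠ w₀ := by
      rintro rfl
      rw [Complex.ofReal_im, abs_zero] at hw
      linarith
    have h1 : |(κ * (w - w₀) : ℂ).im| = Real.pi / 4 := by
      rw [him, abs_mul, abs_of_pos hκ0, hw, hκα]
    have h2 := sinh_cosh_boundary h1
    have h3 : Complex.sinh (κ * (w - w₀)) ≠ 0 := by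
      have := hsn w hw.le hne
      rw [hσ] at this
      exact this
    rw [hform w hw.le hne, norm_div, norm_mul, ← h2, mul_div_assoc, div_self (norm_ne_zero_iff.2 h3), mul_one]
    exact hM w hw.le
  refine ⟨F₁, hdiff, ?_, ?_⟩
  · intro w hw
    have hab := abs_le.1 hw
    refine PhragmenLindelof.horizontal_strip (a := -α) (b := α) hdiff ?_ ?_ ?_ hab.1 hab.2
    · refine ⟨0, by
        have : 0 < α - -α := by linarith
        positivity, 0, ?_⟩
      refine Asymptotics.IsBigO.of_bound (M * Real.sqrt (1 + 1 / Real.sinh κ ^ 2)) ?_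
      have h1 : ∀ᶠ z : ℂ in Filter.comap (_root_.abs ∘ Complex.re) Filter.atTop, |w₀| + 1 ≤ |z.re| :=
        Filter.tendsto_comap.eventually (Filter.eventually_ge_atTop (|w₀| + 1))
      have h2 : ∀ᶠ z : ℂ in Filter.comap (_root_.abs ∘ Complex.re) Filter.atTop ⊓
          Filter.principal (Complex.im ⁻¹' Ioo (-α) α), |w₀| + 1 ≤ |z.re| ∧ z ∈ strip α :=
        (h1.filter_mono inf_le_left).and (Filter.mem_inf_of_right (Filter.mem_principal_self _))
      filter_upwards [h2] with z hz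
      obtain ⟨hz1, hz2⟩ := hz
      have hz3 := hst z hz2
      have hne : z ≠ w₀ := by
        rintro rfl
        rw [Complex.ofReal_re] at hz1
        linarith
      have h3 : 1 ≤ |z.re - w₀| := by
        have := abs_sub_abs_le_abs_sub z.re w₀
        linarith
      have h4 : κ ≤ |(κ * (z - w₀) : ℂ).re| := by
        rw [hre, abs_mul, abs_of_pos hκ0]
        exact le_mul_of_one_le_right hκ0.le h3
      have h5 := b2_far hκ0 h4
      have h6 : Complex.sinh (κ * (z - w₀)) ≠ 0 := by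
        have := hsn z hz3 hne
        rw [hσ] at this
        exact this
      have h7 : 0 < ‖Complex.sinh (κ * (z - w₀))‖ := norm_pos_iff.2 h6
      rw [hform z hz3 hne, norm_div, norm_mul, div_le_iff₀ h7]
      have h8 : ‖Real.exp (0 * Real.exp (0 * |z.re|))‖ = 1 := by simp
      rw [h8, mul_one]
      calc ‖F z‖ * ‖Complex.cosh (κ * (z - w₀))‖ ≤ M * (Real.sqrt (1 + 1 / Real.sinh κ ^ 2) * ‖Complex.sinh (κ * (z - w₀))‖) :=
            mul_le_mul (hM z hz3) h5 (norm_nonneg _) hM0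
        _ = M * Real.sqrt (1 + 1 / Real.sinh κ ^ 2) * ‖Complex.sinh (κ * (z - w₀))‖ := by ring
    · intro z hz
      refine hbd z ?_
      rw [hz, abs_neg, abs_of_pos hα]
    · intro z hz
      refine hbd z ?_
      rw [hz, abs_of_pos hα]
  · intro w hw
    by_cases hne : w = w₀
    · rw [hne, h0, sub_self, mul_zero, Complex.sinh_zero, mul_zero, zero_mul]
    · have h3 : Complex.sinh (κ * (w - w₀)) ≠ 0 := by
        have := hsn w hw hne
        rw [hσ] at this
        exact this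
      rw [hform w hw hne, div_mul_cancel₀ _ h3]

end H12S
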