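import Pool.Agent.Lib.H12S.Defs
import Pool.Agent.Lib.H12S.B1
import Pool.Agent.Lib.H12S.B2

/-! # H12S, chunk B3 (M): many zeros in a strip -/

namespace H12S

open Set

/-- (B3a, S) PROOF. With `q = exp (-2 y) ∈ [0, 1]`: `tanh y = (1 - q) / (1 + q) ≤ 1 - q ≤ exp (-q)`. -/
theorem tanh_le_exp {y : ℝ} (hy : 0 ≤ y) : Real.tanh y ≤ Real.exp (-Real.exp (-2 * y)) := by
  obtain ⟨q, hq⟩ : ∃ q : ℝ, q = Real.exp (-2 * y) := ⟨_, rfl⟩
  have hq0 : 0 < q := by rw [hq]; exact Real.exp_pos _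
  have hq1 : q ≤ 1 := by
    rw [hq, Real.exp_le_one_iff]
    linarith
  have h1 : Real.tanh y = (1 - q) / (1 + q) := by
    rw [Real.tanh_eq_sinh_div_cosh, Real.sinh_eq, Real.cosh_eq]
    have e : Real.exp (-y) = Real.exp y * q := by
      rw [hq, ← Real.exp_add]
      congr 1
      ring
    have hp := Real.exp_pos y
    rw [e]
    field_simp
  rw [← hq, h1]
  have h2 : (1 - q) / (1 + q) ≤ 1 - q := by
    rw [div_le_iff₀ (by linarith)]
    nlinarith
  have h3 := Real.one_sub_le_exp_neg q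
  linarith

/-- (B3b, M) PROOF. Induction on the finite set `W`, for all `F`. Empty set: `hM`. `insert w₀ W`: take `F₁` from
`blaschke_step` for `w₀`. `F₁` vanishes on `W` (there `sinh ≠ 0`, `sinh_ne`, and `F = 0`). At the real point `x`:
`|F x| = |F₁ x| * tanh (κ |x - w₀|)`, `tanh_le_exp` with `y = κ (w₀ - x) ≥ 0`, `2 κ = π / (2 α)`. -/
theorem strip_zeros {α : ℝ} (hα : 0 < α) {M : ℝ} (hM0 : 0 ≤ M) (W : Finset ℝ) :
    ∀ F : ℂ → ℂ, DiffContOnCl ℂ F (strip α) → (∀ w : ℂ, |w.im| ≤ α → ‖F w‖ ≤ M) →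
      (∀ w ∈ W, F (w : ℂ) = 0) → ∀ x : ℝ, (∀ w ∈ W, x ≤ w) →
        ‖F x‖ ≤ M * Real.exp (-∑ w ∈ W, Real.exp (-(Real.pi / (2 * α)) * (w - x))) := by
  classical
  induction W using Finset.induction_on with
  | empty =>
    intro F _ hM _ x _
    have h := hM (x : ℂ) (by simpa using hα.le)
    simpa using h
  | insert w₀ W hw ih =>
    intro F hF hM h0 x hx
    obtain ⟨F₁, hF₁, hM₁, h₁⟩ := blaschke_step hα hF hM w₀ (h0 w₀ (Finset.mem_insert_self _ _))
    have hκ0 : 0 < Real.pi / (4 * α) := by positivity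
    have hreal : ∀ t : ℝ, ((Real.pi / (4 * α) : ℂ) * ((t : ℂ) - (w₀ : ℂ))) =
        ((Real.pi / (4 * α) * (t - w₀) : ℝ) : ℂ) := by
      intro t
      push_cast
      ring
    have hz : ∀ w ∈ W, F₁ (w : ℂ) = 0 := by
      intro w hwW
      have h2 := h₁ (w : ℂ) (by simpa using hα.le)
      rw [h0 w (Finset.mem_insert_of_mem hwW), zero_mul, hreal] at h2
      have hne : w ≠ w₀ := fun h => hw (h ▸ hwW)
      have h3 : Complex.sinh ((Real.pi / (4 * α) * (w - w₀) : ℝ) : ℂ) ≠ 0 := by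
        refine sinh_ne ?_ ?_
        · rw [Complex.ofReal_im, abs_zero]
          positivity
        · rw [Complex.ofReal_ne_zero]
          exact mul_ne_zero hκ0.ne' (sub_ne_zero.2 hne)
      rcases mul_eq_zero.1 h2.symm with h | h
      · exact h
      · exact absurd h h3
    have h4 := ih F₁ hF₁ hM₁ hz x (fun w hwW => hx w (Finset.mem_insert_of_mem hwW))
    have hxw : x ≤ w₀ := hx w₀ (Finset.mem_insert_self _ _)
    have h5 := h₁ (x : ℂ) (by simpa using hα.le)
    rw [hreal] at h5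
    obtain ⟨y, hy⟩ : ∃ y : ℝ, y = Real.pi / (4 * α) * (w₀ - x) := ⟨_, rfl⟩
    have hy0 : 0 ≤ y := by rw [hy]; exact mul_nonneg hκ0.le (by linarith)
    have hyx : Real.pi / (4 * α) * (x - w₀) = -y := by rw [hy]; ring
    rw [hyx] at h5
    have hc : ‖Complex.cosh ((-y : ℝ) : ℂ)‖ = Real.cosh y := by
      rw [← Complex.ofReal_cosh, Complex.norm_real, Real.cosh_neg, Real.norm_eq_abs,
        abs_of_pos (Real.cosh_pos y)]
    have hs : ‖Complex.sinh ((-y : ℝ) : ℂ)‖ = Real.sinh y := by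
      rw [← Complex.ofReal_sinh, Complex.norm_real, Real.sinh_neg, Real.norm_eq_abs, abs_neg,
        abs_of_nonneg (Real.sinh_nonneg_iff.2 hy0)]
    have h6 : ‖F x‖ * Real.cosh y = ‖F₁ x‖ * Real.sinh y := by
      rw [← hc, ← hs, ← norm_mul, ← norm_mul, h5]
    have h7 : ‖F x‖ = ‖F₁ x‖ * Real.tanh y := by
      rw [Real.tanh_eq_sinh_div_cosh, ← mul_div_assoc, ← h6, mul_div_assoc,
        div_self (Real.cosh_pos y).ne', mul_one]
    have h8 := tanh_le_exp hy0
    have hy2 : -2 * y = -(Real.pi / (2 * α)) * (w₀ - x) := by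
      rw [hy]
      field_simp
      ring
    rw [hy2] at h8
    rw [h7, Finset.sum_insert hw, neg_add, Real.exp_add]
    calc ‖F₁ x‖ * Real.tanh y
        ≤ (M * Real.exp (-∑ w ∈ W, Real.exp (-(Real.pi / (2 * α)) * (w - x)))) *
          Real.exp (-Real.exp (-(Real.pi / (2 * α)) * (w₀ - x))) := by
          refine mul_le_mul h4 h8 ?_ ?_
          · rw [Real.tanh_eq_sinh_div_cosh]
            exact div_nonneg (Real.sinh_nonneg_iff.2 hy0) (Real.cosh_pos y).le
          · exact mul_nonneg hM0 (Real.exp_pos _).le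
      _ = _ := by ring

end H12S
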