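import Pool.Agent.Lib.H12S.Defs
import Pool.Agent.Lib.H12S.B3

/-! # H12S, chunk B4 (M): many zeros in a sector -/

namespace H12S

open Set

/-- (B4a, S) PROOF. `α = arctan (a / ε)` is in `(0, π / 2)`. For `|y| ≤ α`: `|sin y| = sin |y|`, `cos y > 0` and
`tan |y| ≤ tan α = a / ε` (`Real.tan_arctan`, monotonicity of `tan` or of `arctan`). -/
theorem sector_angle {a ε y : ℝ} (ha : 0 < a) (hε : 0 < ε) (hy : |y| ≤ Real.arctan (a / ε)) :
    ε * |Real.sin y| ≤ a * Real.cos y := by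
  have h1 : |y| < Real.pi / 2 := hy.trans_lt (Real.arctan_lt_pi_div_two _)
  have hpi := Real.pi_pos
  have h0 := abs_nonneg y
  have hc : 0 < Real.cos |y| := Real.cos_pos_of_mem_Ioo ⟨by linarith, h1⟩
  have ht : Real.tan |y| ≤ a / ε := by
    rw [← Real.arctan_strictMono.le_iff_le, Real.arctan_tan (by linarith) h1]
    exact hy
  rw [Real.tan_eq_sin_div_cos, div_le_div_iff₀ hc hε] at ht
  rw [Real.abs_sin_eq_sin_abs_of_abs_le_pi (by linarith), ← Real.cos_abs y]
  linarith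

/-- (B4b, M) PROOF. `F w = H (-σ + exp w)` is entire and bounded by `M` on `|w.im| ≤ α = arctan (a / ε)`
(`s = -σ + exp w` has `s.re + σ = exp w.re * cos w.im`, `s.im = exp w.re * sin w.im`; `sector_angle`). It vanishes at
`log (n + 1 + σ)`, `n < N` (distinct; `n + 1 + σ ≥ 1/2`). `strip_zeros` at the real point `x = log τ`
(`τ ≤ 1/2 ≤ n + 1 + σ`): the sum is `∑ exp (-p (log (n + 1 + σ) - log τ)) = ∑ (τ / (n + 1 + σ)) ^ p`, `p = π / (2 α)`,
and `n + 1 + σ ≤ n + 2`. -/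
theorem sector_zeros {a ε σ M : ℝ} (ha : 0 < a) (hε : 0 < ε) (hσ : |σ| ≤ 1 / 2) (hM0 : 0 ≤ M)
    {H : ℂ → ℂ} (hH : Differentiable ℂ H)
    (hM : ∀ s : ℂ, ε * |s.im| ≤ a * (s.re + σ) → ‖H s‖ ≤ M)
    (h0 : ∀ n : ℕ, H ((n : ℂ) + 1) = 0) {τ : ℝ} (hτ : 0 < τ) (hτ1 : τ ≤ 1 / 2) (N : ℕ) :
    ‖H (-σ + τ)‖ ≤ M * Real.exp (-∑ n ∈ Finset.range N,
      (τ / ((n : ℝ) + 2)) ^ (Real.pi / (2 * Real.arctan (a / ε)))) := by
  have hα : 0 < Real.arctan (a / ε) := Real.arctan_pos.2 (div_pos ha hε)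
  set α := Real.arctan (a / ε) with hαdef
  have hσ2 := abs_le.1 hσ
  have hpos : ∀ n : ℕ, 1 / 2 ≤ (n : ℝ) + 1 + σ := by
    intro n
    have := Nat.cast_nonneg (α := ℝ) n
    linarith [hσ2.1]
  set g : ℕ → ℝ := fun n => Real.log ((n : ℝ) + 1 + σ) with hg
  have hinj : Function.Injective g := by
    intro m n h
    have h2 := Real.log_injOn_pos (Set.mem_Ioi.2 (by linarith [hpos m] : (0 : ℝ) < (m : ℝ) + 1 + σ))
      (Set.mem_Ioi.2 (by linarith [hpos n] : (0 : ℝ) < (n : ℝ) + 1 + σ)) h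
    have h3 : (m : ℝ) = n := by linarith
    exact_mod_cast h3
  have hF : Differentiable ℂ (fun w : ℂ => H (-σ + Complex.exp w)) :=
    hH.comp ((differentiable_const _).add Complex.differentiable_exp)
  have hbound : ∀ w : ℂ, |w.im| ≤ α → ‖H (-σ + Complex.exp w)‖ ≤ M := by
    intro w hw
    refine hM _ ?_
    have e1 : (-(σ : ℂ) + Complex.exp w).im = Real.exp w.re * Real.sin w.im := by
      simp [Complex.exp_im]
    have e2 : (-(σ : ℂ) + Complex.exp w).re + σ = Real.exp w.re * Real.cos w.im := by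
      simp [Complex.exp_re]
    rw [e1, e2, abs_mul, abs_of_pos (Real.exp_pos _)]
    have h := mul_le_mul_of_nonneg_left (sector_angle ha hε hw) (Real.exp_pos w.re).le
    linarith
  have hzero : ∀ w ∈ (Finset.range N).image g, H (-σ + Complex.exp (w : ℂ)) = 0 := by
    intro w hw
    obtain ⟨n, -, rfl⟩ := Finset.mem_image.1 hw
    have e : -(σ : ℂ) + Complex.exp ((g n : ℝ) : ℂ) = (n : ℂ) + 1 := by
      rw [← Complex.ofReal_exp, hg]
      simp only
      rw [Real.exp_log (by linarith [hpos n])]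
      push_cast
      ring
    rw [e]
    exact h0 n
  have hx : ∀ w ∈ (Finset.range N).image g, Real.log τ ≤ w := by
    intro w hw
    obtain ⟨n, -, rfl⟩ := Finset.mem_image.1 hw
    exact Real.log_le_log hτ (by linarith [hpos n])
  have key := strip_zeros hα hM0 ((Finset.range N).image g) (fun w : ℂ => H (-σ + Complex.exp w))
    hF.diffContOnCl hbound hzero (Real.log τ) hx
  have e3 : H (-σ + Complex.exp ((Real.log τ : ℝ) : ℂ)) = H (-σ + τ) := by
    rw [← Complex.ofReal_exp, Real.exp_log hτ]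
  simp only [e3] at key
  refine key.trans (mul_le_mul_of_nonneg_left (Real.exp_le_exp.2 (neg_le_neg ?_)) hM0)
  rw [Finset.sum_image fun m _ n _ h => hinj h]
  refine Finset.sum_le_sum fun n _ => ?_
  have hn2 : (0 : ℝ) < (n : ℝ) + 2 := by positivity
  rw [Real.rpow_def_of_pos (div_pos hτ hn2), Real.log_div hτ.ne' hn2.ne']
  refine Real.exp_le_exp.2 ?_
  have hp : 0 ≤ Real.pi / (2 * α) := by positivity
  have hl : g n ≤ Real.log ((n : ℝ) + 2) := Real.log_le_log (by linarith [hpos n]) (by linarith [hσ2.2])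
  have := mul_le_mul_of_nonneg_left hl hp
  linarith

end H12S
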