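import Pool.Agent.Lib.H12S.Defs

/-! # H12S, chunk B5 (S/M): real estimates for the sector -/

namespace H12S

theorem b5_step {δ x : ℝ} (hδ : 0 < δ) (hx : 0 < x) :
    x ^ (-δ) - (x + 1) ^ (-δ) ≤ δ * x ^ (-(1 + δ)) := by
  have h1 : x ^ (-(1 + δ)) = x ^ (-δ) / x := by
    rw [← Real.rpow_sub_one hx.ne']
    congr 1
    ring
  have h2 : (x + 1) ^ (-δ) = x ^ (-δ) * Real.exp (-δ * (Real.log (x + 1) - Real.log x)) := by
    rw [Real.rpow_def_of_pos hx, Real.rpow_def_of_pos (by linarith : (0 : ℝ) < x + 1), ← Real.exp_add]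
    congr 1
    ring
  have h3 : Real.log (x + 1) - Real.log x ≤ 1 / x := by
    rw [← Real.log_div (by linarith) hx.ne']
    have := Real.log_le_sub_one_of_pos (x := (x + 1) / x) (by positivity)
    refine this.trans (le_of_eq ?_)
    field_simp
    ring
  have h4 : 1 - δ / x ≤ Real.exp (-δ * (Real.log (x + 1) - Real.log x)) := by
    have h5 := Real.add_one_le_exp (-δ * (Real.log (x + 1) - Real.log x))
    have h6 : δ * (Real.log (x + 1) - Real.log x) ≤ δ * (1 / x) :=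
      mul_le_mul_of_nonneg_left h3 hδ.le
    have h7 : δ * (1 / x) = δ / x := by ring
    linarith
  have h8 : 0 < x ^ (-δ) := Real.rpow_pos_of_pos hx _
  rw [h1, h2]
  have h9 := mul_le_mul_of_nonneg_left h4 h8.le
  have h10 : δ * (x ^ (-δ) / x) = x ^ (-δ) * (δ / x) := by ring
  rw [h10]
  linarith

/-- (B5a, S/M) PROOF. Telescoping: for `x = n + 2 > 0`,
`(x + 1) ^ (-δ) = x ^ (-δ) * (1 + 1 / x) ^ (-δ) ≥ x ^ (-δ) * exp (-δ / x) ≥ x ^ (-δ) * (1 - δ / x)`
(`log (1 + 1 / x) ≤ 1 / x`), that is `x ^ (-δ) - (x + 1) ^ (-δ) ≤ δ x ^ (-(1 + δ))`. Induction on `N`. -/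
theorem sum_lower {δ : ℝ} (hδ : 0 < δ) (N : ℕ) :
    ((2 : ℝ) ^ (-δ) - ((N : ℝ) + 2) ^ (-δ)) / δ ≤
      ∑ n ∈ Finset.range N, ((n : ℝ) + 2) ^ (-(1 + δ)) := by
  induction N with
  | zero =>
    simp
  | succ N ih =>
    rw [Finset.sum_range_succ]
    have h1 := b5_step hδ (x := (N : ℝ) + 2) (by positivity)
    have e : ((N + 1 : ℕ) : ℝ) + 2 = (N : ℝ) + 2 + 1 := by
      push_cast
      ring
    rw [e]
    have h2 : ((2 : ℝ) ^ (-δ) - ((N : ℝ) + 2 + 1) ^ (-δ)) / δ =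
        ((2 : ℝ) ^ (-δ) - ((N : ℝ) + 2) ^ (-δ)) / δ +
          (((N : ℝ) + 2) ^ (-δ) - ((N : ℝ) + 2 + 1) ^ (-δ)) / δ := by
      ring
    rw [h2]
    have h3 : (((N : ℝ) + 2) ^ (-δ) - ((N : ℝ) + 2 + 1) ^ (-δ)) / δ ≤
        ((N : ℝ) + 2) ^ (-(1 + δ)) := by
      rw [div_le_iff₀ hδ]
      linarith
    linarith

/-- (B5b, S) PROOF. `arctan (a / ε) = π / 2 - θ`, `θ = arctan (ε / a) ∈ (0, ε / a]` (`Real.arctan_inv_of_pos`,
`arctan x ≤ x`), and `arctan (a / ε) ≥ π / 4` since `a ≥ ε`. So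
`p - 1 = θ / arctan (a / ε) ∈ (0, (4 / π) (ε / a)]`, `4 / π ≤ 2`. -/
theorem exponent_bounds {a ε : ℝ} (hε : 0 < ε) (hεa : ε ≤ a) :
    1 < Real.pi / (2 * Real.arctan (a / ε)) ∧
      Real.pi / (2 * Real.arctan (a / ε)) ≤ 1 + 2 * ε / a := by
  have ha : 0 < a := lt_of_lt_of_le hε hεa
  have h1 : Real.arctan (a / ε) = Real.pi / 2 - Real.arctan (ε / a) := by
    have := Real.arctan_inv_of_pos (x := ε / a) (by positivity)
    rwa [inv_div] at this
  have h2 : Real.arctan (a / ε) < Real.pi / 2 := Real.arctan_lt_pi_div_two _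
  have h3 : Real.pi / 4 ≤ Real.arctan (a / ε) := by
    rw [← Real.arctan_one]
    exact Real.arctan_strictMono.monotone ((one_le_div hε).2 hεa)
  have hpi := Real.pi_gt_three
  have h4 : Real.arctan (ε / a) < ε / a := by
    have h5 : 0 < Real.arctan (ε / a) := Real.arctan_pos.2 (by positivity)
    have h6 := Real.lt_tan h5 (Real.arctan_lt_pi_div_two _)
    rwa [Real.tan_arctan] at h6
  have hA : 0 < 2 * Real.arctan (a / ε) := by linarith
  constructor
  · rw [one_lt_div hA]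
    linarith
  · rw [div_le_iff₀ hA]
    have h7 : 0 < ε / a := by positivity
    have h8 : (1 + 2 * ε / a) * (2 * Real.arctan (a / ε)) =
        2 * Real.arctan (a / ε) + (ε / a) * (4 * Real.arctan (a / ε)) := by ring
    rw [h8]
    have h9 : (ε / a) * 2 ≤ (ε / a) * (4 * Real.arctan (a / ε)) :=
      mul_le_mul_of_nonneg_left (by linarith) h7.le
    linarith

/-- (B5c, S/M) PROOF. `τ ^ (1 + δ) * 2 ^ (-δ) / δ = τ * (τ / 2) ^ δ / δ`. Since `τ / 2 ≤ 1` and `δ ≤ 2 ε / a`: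
`(τ / 2) ^ δ ≥ (τ / 2) ^ (2 ε / a) = exp (-(2 ε / a) log (2 / τ)) ≥ exp (-(2 ε / a) (2 / τ)) = exp (-4 ε / x) ≥ exp (-4)`
(`τ = x / a`, `ε ≤ x`), and `τ / δ ≥ (x / a) (a / (2 ε)) = x / (2 ε)`. `2 exp 4 ≤ 110` (`Real.exp_one_lt_d9`:
`exp 1 < 2.7182818286`, fourth power `< 54.6`). -/
theorem exponent_lower {a ε x δ : ℝ} (hε : 0 < ε) (hx : 0 < x) (hεx : ε ≤ x) (hxa : 2 * x ≤ a)
    (hδ : 0 < δ) (hδ1 : δ ≤ 2 * ε / a) :
    x / (110 * ε) ≤ (x / a) ^ (1 + δ) * (2 : ℝ) ^ (-δ) / δ := by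
  have ha : 0 < a := by linarith
  have hτ : 0 < x / a := by positivity
  have h1 : (x / a) ^ (1 + δ) * (2 : ℝ) ^ (-δ) / δ =
      (x / a / δ) * Real.exp (-(δ * Real.log (2 / (x / a)))) := by
    rw [Real.rpow_add hτ, Real.rpow_one, Real.rpow_def_of_pos hτ, Real.rpow_def_of_pos two_pos,
      mul_assoc (x / a), ← Real.exp_add, Real.log_div two_ne_zero hτ.ne']
    have e : Real.log (x / a) * δ + Real.log 2 * -δ =
        -(δ * (Real.log 2 - Real.log (x / a))) := by ring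
    rw [e]
    ring
  have h2 : δ * Real.log (2 / (x / a)) ≤ 4 := by
    have h3 : Real.log (2 / (x / a)) ≤ 2 / (x / a) := by
      have := Real.log_le_sub_one_of_pos (x := 2 / (x / a)) (by positivity)
      linarith
    have h4 : δ * Real.log (2 / (x / a)) ≤ δ * (2 / (x / a)) :=
      mul_le_mul_of_nonneg_left h3 hδ.le
    have h5 : δ * (2 / (x / a)) ≤ (2 * ε / a) * (2 / (x / a)) :=
      mul_le_mul_of_nonneg_right hδ1 (by positivity)
    have h6 : (2 * ε / a) * (2 / (x / a)) = 4 * (ε / x) := by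
      field_simp
      ring
    have h7 : ε / x ≤ 1 := (div_le_one hx).2 hεx
    linarith
  have h3 : Real.exp (-4) ≤ Real.exp (-(δ * Real.log (2 / (x / a)))) :=
    Real.exp_le_exp.2 (by linarith)
  have h4 : x / (2 * ε) ≤ x / a / δ := by
    rw [div_div]
    refine div_le_div_of_nonneg_left hx.le (by positivity) ?_
    have h5 : a * δ ≤ a * (2 * ε / a) := mul_le_mul_of_nonneg_left hδ1 ha.le
    have h6 : a * (2 * ε / a) = 2 * ε := by
      field_simp
    linarith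
  rw [h1]
  have h5 : x / (2 * ε) * Real.exp (-4) ≤
      (x / a / δ) * Real.exp (-(δ * Real.log (2 / (x / a)))) :=
    mul_le_mul h4 h3 (Real.exp_nonneg _) (by positivity)
  refine le_trans ?_ h5
  have h6 : Real.exp 4 ≤ 55 := by
    have h7 : Real.exp 4 = Real.exp 1 ^ 4 := by
      rw [← Real.exp_nat_mul]
      norm_num
    rw [h7]
    calc Real.exp 1 ^ 4 ≤ 2.7182818286 ^ 4 :=
          pow_le_pow_left₀ (Real.exp_nonneg _) Real.exp_one_lt_d9.le 4
      _ ≤ 55 := by norm_num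
  have h7 : (1 : ℝ) / 55 ≤ Real.exp (-4) := by
    rw [Real.exp_neg, ← one_div]
    exact one_div_le_one_div_of_le (Real.exp_pos _) h6
  have h8 : x / (110 * ε) = x / (2 * ε) * (1 / 55) := by
    field_simp
    norm_num
  rw [h8]
  exact mul_le_mul_of_nonneg_left h7 (by positivity)

end H12S
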