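import Pool.Agent.Lib.H12S.Defs
import Pool.Agent.Lib.H12S.B4
import Pool.Agent.Lib.H12S.B5

/-! # H12S, chunk B6 (S/M): the decay estimate in a sector -/

namespace H12S

/-- (B6, S/M) PROOF. `sector_zeros` with `τ = x / a ≤ 1/2` and `p = 1 + δ`, `0 < δ ≤ 2 ε / a` (`exponent_bounds`):
`∑_{n < N} (τ / (n + 2)) ^ p = τ ^ p ∑ (n + 2) ^ (-p) ≥ τ ^ (1 + δ) * (2 ^ (-δ) - (N + 2) ^ (-δ)) / δ` (`sum_lower`)
for every `N`. Let `N → ∞` (`(N + 2) ^ (-δ) → 0`: `tendsto_rpow_neg_atTop`; `le_of_tendsto'`), then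
`exponent_lower`. -/
theorem sector_final {a ε σ M x : ℝ} (hε : 0 < ε) (hσ : |σ| ≤ 1 / 2) (hM0 : 0 ≤ M)
    {H : ℂ → ℂ} (hH : Differentiable ℂ H)
    (hM : ∀ s : ℂ, ε * |s.im| ≤ a * (s.re + σ) → ‖H s‖ ≤ M)
    (h0 : ∀ n : ℕ, H ((n : ℂ) + 1) = 0) (hx : 0 < x) (hεx : ε ≤ x) (hxa : 2 * x ≤ a) :
    ‖H (-σ + ((x / a : ℝ) : ℂ))‖ ≤ M * Real.exp (-(x / (110 * ε))) := by
  have ha : 0 < a := by linarith
  have hεa : ε ≤ a := by linarith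
  obtain ⟨hp1, hp2⟩ := exponent_bounds hε hεa
  obtain ⟨p, hp⟩ : ∃ p : ℝ, p = Real.pi / (2 * Real.arctan (a / ε)) := ⟨_, rfl⟩
  rw [← hp] at hp1 hp2
  obtain ⟨δ, hδ⟩ : ∃ δ : ℝ, δ = p - 1 := ⟨_, rfl⟩
  have hpδ : p = 1 + δ := by linarith
  have hδ0 : 0 < δ := by linarith
  have hδ1 : δ ≤ 2 * ε / a := by linarith
  have hτ0 : 0 < x / a := div_pos hx ha
  have hτ1 : x / a ≤ 1 / 2 := by
    rw [div_le_iff₀ ha]
    linarith
  have hN : ∀ N : ℕ, ‖H (-σ + ((x / a : ℝ) : ℂ))‖ ≤ M * Real.exp (-((x / a) ^ (1 + δ) * (((2 : ℝ) ^ (-δ) - ((N : ℝ) + 2) ^ (-δ)) / δ))) := by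
    intro N
    refine (sector_zeros ha hε hσ hM0 hH hM h0 hτ0 hτ1 N).trans ?_
    refine mul_le_mul_of_nonneg_left (Real.exp_le_exp.2 (neg_le_neg ?_)) hM0
    have h1 := sum_lower hδ0 N
    have h2 : ∑ n ∈ Finset.range N, (x / a / ((n : ℝ) + 2)) ^ (Real.pi / (2 * Real.arctan (a / ε))) =
        (x / a) ^ (1 + δ) * ∑ n ∈ Finset.range N, ((n : ℝ) + 2) ^ (-(1 + δ)) := by
      rw [Finset.mul_sum, ← hp, hpδ]
      refine Finset.sum_congr rfl fun n _ => ?_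
      have h3 : (0 : ℝ) ≤ (n : ℝ) + 2 := by positivity
      rw [Real.div_rpow hτ0.le h3, Real.rpow_neg h3, div_eq_mul_inv]
    rw [h2]
    exact mul_le_mul_of_nonneg_left h1 (Real.rpow_nonneg hτ0.le _)
  have hT : Filter.Tendsto (fun N : ℕ => M * Real.exp (-((x / a) ^ (1 + δ) * (((2 : ℝ) ^ (-δ) - ((N : ℝ) + 2) ^ (-δ)) / δ))))
      Filter.atTop (nhds (M * Real.exp (-((x / a) ^ (1 + δ) * (((2 : ℝ) ^ (-δ) - 0) / δ))))) := by
    have h3 : Filter.Tendsto (fun N : ℕ => ((N : ℝ) + 2) ^ (-δ)) Filter.atTop (nhds 0) :=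
      (tendsto_rpow_neg_atTop hδ0).comp (Filter.tendsto_atTop_add_const_right _ _ tendsto_natCast_atTop_atTop)
    exact ((Real.continuous_exp.tendsto _).comp ((((tendsto_const_nhds.sub h3).div_const _).const_mul _).neg)).const_mul _
  have h4 := ge_of_tendsto' hT hN
  refine h4.trans (mul_le_mul_of_nonneg_left (Real.exp_le_exp.2 (neg_le_neg ?_)) hM0)
  have h5 := exponent_lower hε hx hεx hxa hδ0 hδ1
  rw [sub_zero, ← mul_div_assoc]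
  exact h5

end H12S
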