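import Pool.Agent.Lib.H12S.Defs

/-! # H12S, chunk C1 (M): lattice vectors that are almost horizontal -/

namespace H12S

theorem c1_sign {u v : ℂ} {A ε : ℝ} (m n : ℤ) (h1 : |A| < |(m * u + n * v).re|)
    (h2 : |(m * u + n * v).im| ≤ ε) : ∃ m n : ℤ, A < (m * u + n * v).re ∧ |(m * u + n * v).im| ≤ ε := by
  have hA := le_abs_self A
  rcases le_or_gt 0 (m * u + n * v).re with h | h
  · rw [abs_of_nonneg h] at h1
    exact ⟨m, n, by linarith, h2⟩
  · rw [abs_of_neg h] at h1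
    have e : (((-m : ℤ) : ℂ) * u + ((-n : ℤ) : ℂ) * v) = -(m * u + n * v) := by
      push_cast; ring
    refine ⟨-m, -n, ?_, ?_⟩
    · rw [e, Complex.neg_re]; linarith
    · rw [e, Complex.neg_im, abs_neg]; exact h2

theorem c1_re (u v : ℂ) (m n : ℤ) : (m * u + n * v).re = m * u.re + n * v.re := by
  simp

theorem c1_im (u v : ℂ) (m n : ℤ) : (m * u + n * v).im = m * u.im + n * v.im := by
  simp

/-- (C1, M) PROOF. If `u.im = 0` then `u.re ≠ 0` and a multiple `m * u` (`n = 0`) works. Otherwise put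
`ξ = v.im / u.im`, `D = |u.re * v.im - u.im * v.re| > 0`, `r = D / (2 |u.im|)` and take `P : ℕ` with `P * r > |A|`
(`P ≥ 1`). Dirichlet (`Real.exists_int_int_abs_mul_sub_le ξ`): integers `j`, `k`, `0 < k`, with `|k ξ - j|` as small
as we like; `w = k v - j u` has `|w.im| = |u.im| |k ξ - j|`, so we can have `P |w.im| < ε` and
`|w.im| |u.re| ≤ D / 2`. Since `w.re * u.im - w.im * u.re = k (v.re u.im - v.im u.re)`, `|w.re| |u.im| ≥ D / 2`,
`|w.re| ≥ r`. So `± P w` is the vector wanted. -/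
theorem exists_flat {u v : ℂ} (hdet : u.re * v.im - u.im * v.re ≠ 0) (A : ℝ) {ε : ℝ}
    (hε : 0 < ε) : ∃ m n : ℤ, A < (m * u + n * v).re ∧ |(m * u + n * v).im| ≤ ε := by
  by_cases hu : u.im = 0
  · have hre : u.re ≠ 0 := fun h => hdet (by rw [h, hu]; ring)
    obtain ⟨N, hN⟩ := exists_nat_gt (|A| / |u.re|)
    apply c1_sign (N : ℤ) 0
    · rw [c1_re]
      have h1 : ((N : ℤ) : ℝ) * u.re + ((0 : ℤ) : ℝ) * v.re = N * u.re := by push_cast; ring
      rw [h1, abs_mul, Nat.abs_cast]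
      exact (div_lt_iff₀ (abs_pos.2 hre)).1 hN
    · rw [c1_im]
      have h1 : ((N : ℤ) : ℝ) * u.im + ((0 : ℤ) : ℝ) * v.im = 0 := by rw [hu]; push_cast; ring
      rw [h1, abs_zero]; exact hε.le
  · have hui : 0 < |u.im| := abs_pos.2 hu
    obtain ⟨D, hD⟩ : ∃ D : ℝ, D = |u.re * v.im - u.im * v.re| := ⟨_, rfl⟩
    have hDp : 0 < D := by rw [hD]; exact abs_pos.2 hdet
    obtain ⟨P, hP⟩ := exists_nat_gt (|A| / (D / (2 * |u.im|)))
    have hrp : 0 < D / (2 * |u.im|) := by positivity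
    have hP2 : |A| < P * (D / (2 * |u.im|)) := (div_lt_iff₀ hrp).1 hP
    have hPp : (0 : ℝ) < P := lt_of_le_of_lt (by positivity) hP
    obtain ⟨n, hn⟩ := exists_nat_gt (max (|u.im| * P / ε) (2 * |u.im| * |u.re| / D))
    have hn1 : |u.im| * P / ε < n := (le_max_left _ _).trans_lt hn
    have hn2 : 2 * |u.im| * |u.re| / D < n := (le_max_right _ _).trans_lt hn
    have hnp : (0 : ℝ) < n := lt_of_le_of_lt (by positivity) hn1
    have hnp' : 0 < n := by exact_mod_cast hnp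
    obtain ⟨j, k, hk0, -, hjk⟩ := Real.exists_int_int_abs_mul_sub_le (v.im / u.im) hnp'
    have hn3 : (0 : ℝ) < (n : ℝ) + 1 := by linarith
    have hwim : |(k : ℝ) * v.im - j * u.im| ≤ |u.im| * (1 / (n + 1)) := by
      have h1 : (k : ℝ) * v.im - j * u.im = u.im * (k * (v.im / u.im) - j) := by field_simp
      rw [h1, abs_mul]
      exact mul_le_mul_of_nonneg_left hjk hui.le
    have h3 : P * (|u.im| * (1 / ((n : ℝ) + 1))) ≤ ε := by
      rw [div_lt_iff₀ hε] at hn1
      rw [← mul_assoc, mul_one_div, div_le_iff₀ hn3]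
      nlinarith
    have h4 : |u.im| * (1 / ((n : ℝ) + 1)) * |u.re| ≤ D / 2 := by
      rw [div_lt_iff₀ hDp] at hn2
      rw [mul_one_div, div_mul_eq_mul_div, div_le_iff₀ hn3]
      nlinarith
    have h5 : D ≤ |(k : ℝ) * v.re - j * u.re| * |u.im| + |(k : ℝ) * v.im - j * u.im| * |u.re| := by
      have h6 : ((k : ℝ) * v.re - j * u.re) * u.im - ((k : ℝ) * v.im - j * u.im) * u.re =
          -(k * (u.re * v.im - u.im * v.re)) := by ring
      have h7 : |(k : ℝ) * (u.re * v.im - u.im * v.re)| ≤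
          |(k : ℝ) * v.re - j * u.re| * |u.im| + |(k : ℝ) * v.im - j * u.im| * |u.re| := by
        rw [← abs_neg, ← h6, ← abs_mul, ← abs_mul]
        exact abs_sub _ _
      have h8 : (1 : ℝ) ≤ k := by exact_mod_cast hk0
      rw [abs_mul, abs_of_pos (by linarith : (0 : ℝ) < k), ← hD] at h7
      nlinarith
    have h9 : D / (2 * |u.im|) ≤ |(k : ℝ) * v.re - j * u.re| := by
      rw [div_le_iff₀ (by positivity)]
      have h10 : |(k : ℝ) * v.im - j * u.im| * |u.re| ≤ D / 2 :=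
        (mul_le_mul_of_nonneg_right hwim (abs_nonneg _)).trans h4
      nlinarith
    apply c1_sign (-(P * j) : ℤ) (P * k : ℤ)
    · rw [c1_re]
      have e : ((-(P * j) : ℤ) : ℝ) * u.re + ((P * k : ℤ) : ℝ) * v.re = P * (k * v.re - j * u.re) := by
        push_cast; ring
      rw [e, abs_mul, Nat.abs_cast]
      exact hP2.trans_le (mul_le_mul_of_nonneg_left h9 hPp.le)
    · rw [c1_im]
      have e : ((-(P * j) : ℤ) : ℝ) * u.im + ((P * k : ℤ) : ℝ) * v.im = P * (k * v.im - j * u.im) := by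
        push_cast; ring
      rw [e, abs_mul, Nat.abs_cast]
      exact (mul_le_mul_of_nonneg_left hwim hPp.le).trans h3

end H12S
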