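import Pool.Agent.Lib.H12S.Defs
import Pool.Agent.Lib.H12S.B6
import Pool.Agent.Lib.H12S.C2A

/-! # H12S, chunk C2B (S/M): the quantitative form of the core estimate -/

namespace H12S

/-- (C2B, S/M) PROOF. `σ = l₀.re / l₁.re`, `|σ| ≤ 1/2`. `H = HH J₁ J₂ l₀ l₁` is entire, bounded by `2 M ^ 2` in the
sector (`HH_bound`), and zero at `n + 1` (`HH_real`, hypothesis `heq`). `sector_final` with `a = l₁.re` at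
`s = -σ + x / l₁.re = (x - l₀.re) / l₁.re`, and `HH_real` again. -/
theorem core_quant {J₁ J₂ : ℂ → ℂ} (h₁ : Differentiable ℂ J₁) (h₂ : Differentiable ℂ J₂) {M : ℝ}
    (hM₁ : ∀ z : ℂ, 0 ≤ z.re → ‖J₁ z‖ ≤ M) (hM₂ : ∀ z : ℂ, 0 ≤ z.re → ‖J₂ z‖ ≤ M)
    {l₀ l₁ : ℂ} (heq : ∀ n : ℕ, ‖J₁ (l₀ + (n + 1) * l₁)‖ = ‖J₂ (l₀ + (n + 1) * l₁)‖)
    {ε x : ℝ} (hε0 : 0 < ε) (hε : |l₁.im| ≤ ε) (hx : 0 < x) (hεx : ε ≤ x)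
    (hxa : 2 * x ≤ l₁.re) (hl : 2 * |l₀.re| ≤ l₁.re) :
    |‖J₁ (l₀ + (((x - l₀.re) / l₁.re : ℝ) : ℂ) * l₁)‖ ^ 2 -
      ‖J₂ (l₀ + (((x - l₀.re) / l₁.re : ℝ) : ℂ) * l₁)‖ ^ 2| ≤
      2 * M ^ 2 * Real.exp (-(x / (110 * ε))) := by
  have ha : 0 < l₁.re := by linarith
  have hM2 : 0 ≤ 2 * M ^ 2 := by positivity
  have hσ : |l₀.re / l₁.re| ≤ 1 / 2 := by
    rw [abs_div, abs_of_pos ha, div_le_iff₀ ha]
    linarith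
  have hσ2 : l₁.re * (l₀.re / l₁.re) = l₀.re := mul_div_cancel₀ _ ha.ne'
  have h0 : ∀ n : ℕ, HH J₁ J₂ l₀ l₁ ((n : ℂ) + 1) = 0 := by
    intro n
    have h1 := HH_real J₁ J₂ l₀ l₁ ((n : ℝ) + 1)
    have h2 : (((n : ℝ) + 1 : ℝ) : ℂ) = (n : ℂ) + 1 := by push_cast; rfl
    rw [h2] at h1
    rw [h1, heq n, sub_self, Complex.ofReal_zero]
  have key := sector_final (a := l₁.re) hε0 hσ hM2 (HH_differentiable h₁ h₂ l₀ l₁)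
    (fun s hs => HH_bound hM₁ hM₂ hε hσ2 s hs) h0 hx hεx hxa
  have h3 : (-((l₀.re / l₁.re : ℝ) : ℂ) + ((x / l₁.re : ℝ) : ℂ)) = (((x - l₀.re) / l₁.re : ℝ) : ℂ) := by
    rw [sub_div]
    push_cast
    ring
  rw [h3, HH_real, Complex.norm_real, Real.norm_eq_abs] at key
  exact key

end H12S
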