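import Pool.Agent.Lib.H12S.Defs
import Pool.Agent.Lib.H12S.C1
import Pool.Agent.Lib.H12S.C2B

/-! # H12S, chunk C2 (M): equality on horizontal lines through lattice points -/

namespace H12S

open Filter Topology

theorem c2_step {u v : ℂ} (hdet : u.re * v.im - u.im * v.re ≠ 0) {J₁ J₂ : ℂ → ℂ}
    (h₁ : Differentiable ℂ J₁) (h₂ : Differentiable ℂ J₂) {M : ℝ}
    (hM₁ : ∀ z : ℂ, 0 ≤ z.re → ‖J₁ z‖ ≤ M) (hM₂ : ∀ z : ℂ, 0 ≤ z.re → ‖J₂ z‖ ≤ M)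
    (heq : ∀ m n : ℤ, ‖J₁ (m * u + n * v)‖ = ‖J₂ (m * u + n * v)‖) (m n : ℤ) {x : ℝ}
    (hx : 0 < x) (k : ℕ) : ∃ z : ℂ, ‖z - (x + (m * u + n * v).im * Complex.I)‖ ≤ x / ((k : ℝ) + 1) ∧
      |‖J₁ z‖ ^ 2 - ‖J₂ z‖ ^ 2| ≤ 2 * M ^ 2 * Real.exp (-(((k : ℝ) + 1) / 110)) := by
  have hk : (0 : ℝ) < (k : ℝ) + 1 := by positivity
  have hε : 0 < x / ((k : ℝ) + 1) := by positivity
  obtain ⟨l₀, hl₀⟩ : ∃ l₀ : ℂ, l₀ = m * u + n * v := ⟨_, rfl⟩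
  obtain ⟨m', n', hA, hi⟩ := exists_flat hdet (2 * x + 2 * |l₀.re| + 1) hε
  obtain ⟨l₁, hl₁⟩ : ∃ l₁ : ℂ, l₁ = m' * u + n' * v := ⟨_, rfl⟩
  rw [← hl₁] at hA hi
  rw [← hl₀]
  have ha := abs_nonneg l₀.re
  have hl1 : 0 < l₁.re := by linarith
  have hq := core_quant h₁ h₂ hM₁ hM₂ (l₀ := l₀) (l₁ := l₁) (ε := x / ((k : ℝ) + 1)) (x := x)
    (by
      intro j
      have e : l₀ + ((j : ℂ) + 1) * l₁ = ((m + ((j : ℤ) + 1) * m' : ℤ) : ℂ) * u +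
          ((n + ((j : ℤ) + 1) * n' : ℤ) : ℂ) * v := by
        rw [hl₀, hl₁]; push_cast; ring
      rw [e]; exact heq _ _)
    hε hi hx (by rw [div_le_iff₀ hk]; nlinarith [Nat.cast_nonneg (α := ℝ) k]) (by linarith) (by linarith)
  refine ⟨l₀ + (((x - l₀.re) / l₁.re : ℝ) : ℂ) * l₁, ?_, ?_⟩
  · have e : l₀ + (((x - l₀.re) / l₁.re : ℝ) : ℂ) * l₁ - (x + l₀.im * Complex.I) =
        (((x - l₀.re) / l₁.re * l₁.im : ℝ) : ℂ) * Complex.I := by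
      apply Complex.ext
      · simp
        field_simp
        ring
      · simp
    rw [e, norm_mul, Complex.norm_I, mul_one, Complex.norm_real, Real.norm_eq_abs, abs_mul, abs_div,
      abs_of_pos hl1]
    have h3 : |x - l₀.re| / l₁.re ≤ 1 := by
      rw [div_le_one hl1]
      calc |x - l₀.re| ≤ |x| + |l₀.re| := abs_sub _ _
        _ ≤ l₁.re := by rw [abs_of_pos hx]; linarith
    calc |x - l₀.re| / l₁.re * |l₁.im| ≤ 1 * (x / ((k : ℝ) + 1)) :=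
          mul_le_mul h3 hi (abs_nonneg _) zero_le_one
      _ = x / ((k : ℝ) + 1) := one_mul _
  · have e : x / (110 * (x / ((k : ℝ) + 1))) = ((k : ℝ) + 1) / 110 := by field_simp
    rw [e] at hq
    exact hq

/-- (C2, M) PROOF. Let `l₀ = m u + n v`, `z = x + i l₀.im`, `D w = ‖J₁ w‖ ^ 2 - ‖J₂ w‖ ^ 2` (continuous). For `k : ℕ`
let `ε = x / (k + 1)` and take `l₁ = m' u + n' v` from `exists_flat` with `l₁.re > 2 x + 2 |l₀.re| + 1` and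
`|l₁.im| ≤ ε`. The point `z_k = l₀ + ((x - l₀.re) / l₁.re) l₁` has real part `x` and imaginary part
`l₀.im + (x - l₀.re) / l₁.re * l₁.im`, so `‖z_k - z‖ ≤ ε`: `z_k → z`. By `core_quant`
`|D (z_k)| ≤ 2 M ^ 2 exp (-(k + 1) / 110) → 0`. So `D z = 0`. (The points `l₀ + (j + 1) l₁` are in the lattice.) -/
theorem core_line {u v : ℂ} (hdet : u.re * v.im - u.im * v.re ≠ 0) {J₁ J₂ : ℂ → ℂ}
    (h₁ : Differentiable ℂ J₁) (h₂ : Differentiable ℂ J₂) {M : ℝ}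
    (hM₁ : ∀ z : ℂ, 0 ≤ z.re → ‖J₁ z‖ ≤ M) (hM₂ : ∀ z : ℂ, 0 ≤ z.re → ‖J₂ z‖ ≤ M)
    (heq : ∀ m n : ℤ, ‖J₁ (m * u + n * v)‖ = ‖J₂ (m * u + n * v)‖) (m n : ℤ) {x : ℝ}
    (hx : 0 < x) :
    ‖J₁ (x + (m * u + n * v).im * Complex.I)‖ = ‖J₂ (x + (m * u + n * v).im * Complex.I)‖ := by
  have hs := fun k : ℕ => c2_step hdet h₁ h₂ hM₁ hM₂ heq m n hx k
  choose z hz1 hz2 using hs
  have t0 : Tendsto (fun k : ℕ => (k : ℝ) + 1) atTop atTop :=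
    tendsto_atTop_add_const_right _ _ tendsto_natCast_atTop_atTop
  have t1 : Tendsto (fun k : ℕ => x / ((k : ℝ) + 1)) atTop (𝓝 0) := tendsto_const_nhds.div_atTop t0
  have t2 : Tendsto z atTop (𝓝 (x + (m * u + n * v).im * Complex.I)) := by
    rw [tendsto_iff_norm_sub_tendsto_zero]
    exact squeeze_zero (fun k => norm_nonneg _) hz1 t1
  have hc : Continuous (fun w : ℂ => ‖J₁ w‖ ^ 2 - ‖J₂ w‖ ^ 2) :=
    (h₁.continuous.norm.pow 2).sub (h₂.continuous.norm.pow 2)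
  have t3 : Tendsto (fun k => ‖J₁ (z k)‖ ^ 2 - ‖J₂ (z k)‖ ^ 2) atTop
      (𝓝 (‖J₁ (x + (m * u + n * v).im * Complex.I)‖ ^ 2 - ‖J₂ (x + (m * u + n * v).im * Complex.I)‖ ^ 2)) :=
    (hc.tendsto _).comp t2
  have t4 : Tendsto (fun k : ℕ => 2 * M ^ 2 * Real.exp (-(((k : ℝ) + 1) / 110))) atTop (𝓝 0) := by
    have t5 : Tendsto (fun k : ℕ => ((k : ℝ) + 1) / 110) atTop atTop :=
      t0.atTop_div_const (by norm_num)
    have t6 : Tendsto (fun k : ℕ => Real.exp (-(((k : ℝ) + 1) / 110))) atTop (𝓝 0) :=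
      Real.tendsto_exp_neg_atTop_nhds_zero.comp t5
    have t7 := t6.const_mul (2 * M ^ 2)
    rw [mul_zero] at t7
    exact t7
  have t8 : Tendsto (fun k => ‖J₁ (z k)‖ ^ 2 - ‖J₂ (z k)‖ ^ 2) atTop (𝓝 0) :=
    squeeze_zero_norm (fun k => by rw [Real.norm_eq_abs]; exact hz2 k) t4
  have h5 := tendsto_nhds_unique t3 t8
  have h6 : ‖J₁ (x + (m * u + n * v).im * Complex.I)‖ ^ 2 = ‖J₂ (x + (m * u + n * v).im * Complex.I)‖ ^ 2 := by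
    linarith
  exact (sq_eq_sq₀ (norm_nonneg _) (norm_nonneg _)).1 h6

end H12S
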