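import Pool.Agent.Lib.H12S.Defs

/-! # H12S, chunk C3 (S): density -/

namespace H12S

/-- (C3, S) PROOF. `AddSubgroup.dense_or_cyclic` for the subgroup `{p m + q n}` (closure of `{p, q}`). If it is
cyclic with generator `g`, `p = k g`, `q = l g`, then `l p - k q = 0`, so `k = l = 0`, `p = q = 0`, and
`1 * p + 0 * q = 0` contradicts the hypothesis. -/
theorem dense_of_indep {p q : ℝ} (h : ∀ m n : ℤ, p * m + q * n = 0 → m = 0 ∧ n = 0) :
    Dense {y : ℝ | ∃ m n : ℤ, y = p * m + q * n} := by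
  let S : AddSubgroup ℝ :=
    { carrier := {y : ℝ | ∃ m n : ℤ, y = p * m + q * n}
      add_mem' := by
        rintro a b ⟨m, n, rfl⟩ ⟨m', n', rfl⟩
        exact ⟨m + m', n + n', by push_cast; ring⟩
      zero_mem' := ⟨0, 0, by simp⟩
      neg_mem' := by
        rintro a ⟨m, n, rfl⟩
        exact ⟨-m, -n, by push_cast; ring⟩ }
  rcases S.dense_or_cyclic with hd | ⟨g, hg⟩
  · exact hd
  · exfalso
    have hp : p ∈ S := ⟨1, 0, by simp⟩
    have hq : q ∈ S := ⟨0, 1, by simp⟩
    rw [hg, AddSubgroup.mem_closure_singleton] at hp hq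
    obtain ⟨k, hk⟩ := hp
    obtain ⟨l, hl⟩ := hq
    rw [zsmul_eq_mul] at hk hl
    have h1 := h l (-k) (by rw [← hk, ← hl]; push_cast; ring)
    have hl0 : l = 0 := h1.1
    have hk0 : k = 0 := by simpa using h1.2
    have hp0 : p = 0 := by rw [← hk, hk0]; simp
    have h2 := h 1 0 (by rw [hp0]; simp)
    exact one_ne_zero h2.1

end H12S
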