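import Pool.Agent.Lib.H12S.Defs

/-! # H12S, chunk C4 (M): entire functions with equal moduli -/

namespace H12S

/-- (C4, M) PROOF. If `J₁ = 0` on the open half-plane, then `J₂` too, both are `0` (identity theorem), `u = 1`.
Otherwise `J₁ ≠ 0` on a ball `U` in the half-plane; `q = J₂ / J₁` is holomorphic on `U` with `‖q‖ = 1`, so constant
(`Complex.eqOn_of_isPreconnected_of_isMaxOn_norm`), `q = u`, `J₂ = u J₁` on `U`, hence everywhere
(`AnalyticOnNhd.eq_of_eventuallyEq`, `Differentiable.analyticAt`). -/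
theorem eq_of_norm_eq {J₁ J₂ : ℂ → ℂ} (h₁ : Differentiable ℂ J₁) (h₂ : Differentiable ℂ J₂)
    (h : ∀ z : ℂ, 0 < z.re → ‖J₁ z‖ = ‖J₂ z‖) :
    ∃ u : ℂ, ‖u‖ = 1 ∧ ∀ z : ℂ, J₂ z = u * J₁ z := by
  have a₁ : AnalyticOnNhd ℂ J₁ Set.univ := fun z _ => h₁.analyticAt z
  have a₂ : AnalyticOnNhd ℂ J₂ Set.univ := fun z _ => h₂.analyticAt z
  have hopen : IsOpen {z : ℂ | 0 < z.re} := isOpen_lt continuous_const Complex.continuous_re
  by_cases hc : ∀ z : ℂ, 0 < z.re → J₁ z = 0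
  · have hn : {z : ℂ | 0 < z.re} ∈ nhds (1 : ℂ) := hopen.mem_nhds (by simp)
    have e₁ : J₁ = fun _ => 0 := by
      refine a₁.eq_of_eventuallyEq (z₀ := 1) (fun z _ => analyticAt_const) ?_
      filter_upwards [hn] with z hz
      exact hc z hz
    have e₂ : J₂ = fun _ => 0 := by
      refine a₂.eq_of_eventuallyEq (z₀ := 1) (fun z _ => analyticAt_const) ?_
      filter_upwards [hn] with z hz
      rw [← norm_eq_zero, ← h z hz, hc z hz, norm_zero]
    refine ⟨1, norm_one, fun z => ?_⟩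
    rw [e₁, e₂, mul_zero]
  · rw [not_forall] at hc
    obtain ⟨z₀, hc⟩ := hc
    rw [Classical.not_imp] at hc
    obtain ⟨hz₀, hne⟩ := hc
    have hV : IsOpen {z : ℂ | 0 < z.re ∧ J₁ z ≠ 0} :=
      hopen.inter (isOpen_ne.preimage h₁.continuous)
    obtain ⟨r, hr, hball⟩ := Metric.isOpen_iff.1 hV z₀ ⟨hz₀, hne⟩
    have hq : ∀ z ∈ Metric.ball z₀ r, ‖J₂ z / J₁ z‖ = 1 := by
      intro z hz
      have h1 := hball hz
      rw [norm_div, ← h z h1.1, div_self (norm_ne_zero_iff.2 h1.2)]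
    have hd : DifferentiableOn ℂ (fun z => J₂ z / J₁ z) (Metric.ball z₀ r) :=
      fun z hz => ((h₂ z).div (h₁ z) (hball hz).2).differentiableWithinAt
    have hz : z₀ ∈ Metric.ball z₀ r := Metric.mem_ball_self hr
    have hE := Complex.eqOn_of_isPreconnected_of_isMaxOn_norm (convex_ball z₀ r).isPreconnected
      Metric.isOpen_ball hd hz (fun z hz' => by
        show ‖J₂ z / J₁ z‖ ≤ ‖J₂ z₀ / J₁ z₀‖
        rw [hq z hz', hq z₀ hz])
    refine ⟨J₂ z₀ / J₁ z₀, hq z₀ hz, fun z => ?_⟩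
    have e : J₂ = fun z => J₂ z₀ / J₁ z₀ * J₁ z := by
      refine a₂.eq_of_eventuallyEq (z₀ := z₀)
        (fun z _ => analyticAt_const.mul (a₁ z (Set.mem_univ z))) ?_
      filter_upwards [Metric.isOpen_ball.mem_nhds hz] with w hw
      have h2 : J₂ w / J₁ w = J₂ z₀ / J₁ z₀ := hE hw
      rw [← h2, div_mul_cancel₀ _ (hball hw).2]
    exact congrFun e z

end H12S
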