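import Pool.Agent.Lib.H12S.Defs

/-! # H12S, chunk C5 (S/M): real entire functions with equal moduli on a real half-line -/

namespace H12S

theorem c5_real {J₁ J₂ : ℂ → ℂ} (h₁ : Differentiable ℂ J₁) (h₂ : Differentiable ℂ J₂) {x₀ : ℝ}
    (h : ∀ᶠ x : ℝ in nhds x₀, J₁ x = J₂ x) (z : ℂ) : J₁ z = J₂ z := by
  have ht : Filter.Tendsto (fun x : ℝ => (x : ℂ)) (nhdsWithin x₀ {x₀}ᶜ)
      (nhdsWithin (x₀ : ℂ) {(x₀ : ℂ)}ᶜ) := by
    refine tendsto_nhdsWithin_of_tendsto_nhds_of_eventually_within _ ?_ ?_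
    · exact (Complex.continuous_ofReal.tendsto x₀).mono_left nhdsWithin_le_nhds
    · filter_upwards [self_mem_nhdsWithin] with x hx
      intro hx'
      exact hx (Complex.ofReal_injective hx')
  have hf : ∃ᶠ x : ℝ in nhdsWithin x₀ {x₀}ᶜ, J₁ x = J₂ x :=
    (h.filter_mono nhdsWithin_le_nhds).frequently
  have hf' : ∃ᶠ w : ℂ in nhdsWithin (x₀ : ℂ) {(x₀ : ℂ)}ᶜ, J₁ w = J₂ w := ht.frequently hf
  have a₁ : AnalyticOnNhd ℂ J₁ Set.univ := fun w _ => h₁.analyticAt w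
  have a₂ : AnalyticOnNhd ℂ J₂ Set.univ := fun w _ => h₂.analyticAt w
  exact congrFun (a₁.eq_of_frequently_eq a₂ hf') z

/-- (C5, S/M) PROOF. For real `x > 0` both values are real, so `J₂ x ^ 2 = J₁ x ^ 2`: the entire function
`(J₂ - J₁) (J₂ + J₁)` vanishes on `(0, ∞)`. If `J₂ - J₁` is not zero at some real `x₀ > 0`, then it is non-zero near
`x₀` and `J₂ + J₁ = 0` on a real neighbourhood of `x₀`, a set with an accumulation point, so everywhere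
(`AnalyticOnNhd.eq_of_frequently_eq`). Otherwise `J₂ - J₁ = 0` on `(0, ∞)`, so everywhere. -/
theorem eq_or_neg {J₁ J₂ : ℂ → ℂ} (h₁ : Differentiable ℂ J₁) (h₂ : Differentiable ℂ J₂)
    (h : ∀ x : ℝ, 0 < x → ‖J₁ x‖ = ‖J₂ x‖) (hr₁ : ∀ x : ℝ, (J₁ x).im = 0)
    (hr₂ : ∀ x : ℝ, (J₂ x).im = 0) :
    (∀ z : ℂ, J₂ z = J₁ z) ∨ (∀ z : ℂ, J₂ z = -J₁ z) := by
  by_cases hc : ∀ x : ℝ, 0 < x → J₂ x = J₁ x
  · left
    refine c5_real h₂ h₁ (x₀ := 1) ?_
    filter_upwards [lt_mem_nhds (zero_lt_one : (0 : ℝ) < 1)] with x hx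
    exact hc x hx
  · right
    push Not at hc
    obtain ⟨x₀, hx₀, hne⟩ := hc
    have hneg : Differentiable ℂ (fun z => -J₁ z) := h₁.neg
    refine c5_real h₂ hneg (x₀ := x₀) ?_
    have c₁ : Continuous (fun x : ℝ => J₁ (x : ℂ)) := h₁.continuous.comp Complex.continuous_ofReal
    have c₂ : Continuous (fun x : ℝ => J₂ (x : ℂ)) := h₂.continuous.comp Complex.continuous_ofReal
    have hev : ∀ᶠ x : ℝ in nhds x₀, J₂ x ≠ J₁ x :=
      (isOpen_ne_fun c₂ c₁).mem_nhds hne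
    filter_upwards [lt_mem_nhds hx₀, hev] with x hx hxne
    have e₁ : J₁ x = (((J₁ x).re : ℝ) : ℂ) := Complex.ext rfl (by rw [Complex.ofReal_im, hr₁ x])
    have e₂ : J₂ x = (((J₂ x).re : ℝ) : ℂ) := Complex.ext rfl (by rw [Complex.ofReal_im, hr₂ x])
    have hn := h x hx
    rw [e₁, e₂, Complex.norm_real, Complex.norm_real, Real.norm_eq_abs, Real.norm_eq_abs] at hn
    rcases abs_eq_abs.1 hn with h3 | h3
    · exact absurd (by rw [e₁, e₂, h3]) hxne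
    · rw [e₁, e₂, h3]
      push_cast
      ring

end H12S
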