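import Mathlib

/-!
# H12S: sign and phase retrieval from lattice samples of the Gaussian spectrogram (MP_ec7a01_an)

Overview and complete proof: `PROOF.md`.
-/

namespace H12S

open MeasureTheory

/-- the short-time Fourier transform of `f` with the Gaussian window `exp (-π t ^ 2)` -/
noncomputable def stft (f : ℝ → ℂ) (x w : ℝ) : ℂ :=
  ∫ t : ℝ, f t * Complex.exp (-Real.pi * (t - x) ^ 2) *
    Complex.exp (-2 * Real.pi * Complex.I * w * t)

/-- the entire function `Ψ_f z = ∫ f t * exp (-π t ^ 2 + 2 π t z) dt` -/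
noncomputable def Psi (f : ℝ → ℂ) (z : ℂ) : ℂ :=
  ∫ t : ℝ, f t * Complex.exp (-Real.pi * t ^ 2 + 2 * Real.pi * t * z)

/-- the spectrograms of `f` and `h` agree on the lattice with the matrix rows `(a, b)`, `(c, d)` -/
def SameSamples (a b c d : ℝ) (f h : ℝ → ℂ) : Prop :=
  ∀ m n : ℤ, ‖stft f (a * m + b * n) (c * m + d * n)‖ = ‖stft h (a * m + b * n) (c * m + d * n)‖

/-- every point of the plane has distance at most `1/8` from the lattice -/
def Dense8 (a b c d : ℝ) : Prop :=
  ∀ x y : ℝ, ∃ m n : ℤ, (a * m + b * n - x) ^ 2 + (c * m + d * n - y) ^ 2 ≤ (1 / 8) ^ 2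

/-- the negative part of the real part, squared -/
noncomputable def negsq (z : ℂ) : ℝ := (max 0 (-z.re)) ^ 2

end H12S
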