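import Pool.Agent.Lib.H12S.Defs
import Pool.Agent.Lib.H12S.S2

/-! # H12S, chunk S3 (S/M): the spreading lemma -/

namespace H12S

open Metric

/-- (S3a, S) PROOF. `C` is contained in the ball of radius `R ≥ 0` around `0`, so `infDist z C ≥ ‖z‖ - R`. If
`‖z‖ ≥ R` then `4 (‖z‖ - R) ^ 2 ≥ 7/2 ‖z‖ ^ 2 - 28 R ^ 2`; if `‖z‖ < R` then `7/2 ‖z‖ ^ 2 ≤ 28 R ^ 2`. So
`m = B exp (28 R ^ 2)`. -/
theorem spread_finite {K : ℂ → ℂ} {C : Set ℂ} (hC : IsCompact C) (hne : C.Nonempty) {B : ℝ}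
    (hB0 : 0 ≤ B) (hB : ∀ z : ℂ, ‖K z‖ ≤ B * Real.exp (7 / 2 * ‖z‖ ^ 2)) :
    ∃ m : ℝ, 0 ≤ m ∧ ∀ z : ℂ, ‖K z‖ ≤ m * Real.exp (4 * (infDist z C) ^ 2) := by
  obtain ⟨R, hR⟩ := hC.isBounded.exists_norm_le
  have hR0 : 0 ≤ R := by
    obtain ⟨c, hc⟩ := hne
    exact (norm_nonneg c).trans (hR c hc)
  refine ⟨B * Real.exp (28 * R ^ 2), by positivity, fun z => (hB z).trans ?_⟩
  rw [mul_assoc, ← Real.exp_add]
  refine mul_le_mul_of_nonneg_left (Real.exp_le_exp.2 ?_) hB0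
  have hdist : ‖z‖ - R ≤ infDist z C := by
    obtain ⟨c, hc, hcd⟩ := hC.exists_infDist_eq_dist hne z
    rw [hcd, dist_eq_norm]
    have h1 := norm_sub_norm_le z c
    have h2 := hR c hc
    linarith
  have hd0 : 0 ≤ infDist z C := infDist_nonneg
  have hz0 := norm_nonneg z
  rcases le_total R ‖z‖ with h | h
  · have h3 : (‖z‖ - R) ^ 2 ≤ (infDist z C) ^ 2 :=
      pow_le_pow_left₀ (sub_nonneg.2 h) hdist 2
    nlinarith [sq_nonneg (‖z‖ - 8 * R)]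
  · have h4 : ‖z‖ ^ 2 ≤ R ^ 2 := pow_le_pow_left₀ hz0 h 2
    nlinarith [sq_nonneg (infDist z C), sq_nonneg R]

/-- (S3b, S/M) PROOF. Let `m` be the supremum (`⨆ z, ‖K z‖ * exp (-4 (infDist z C) ^ 2)`, finite by
`spread_finite`). `spread_step` gives `m ≤ 1.07 A + 0.907 m`, so `m ≤ 1.07 A / 0.093 ≤ 12 A`. -/
theorem spread {K : ℂ → ℂ} (hK : Differentiable ℂ K) {C Λ : Set ℂ} (hC : IsCompact C)
    (hne : C.Nonempty) (hd : ∀ z : ℂ, ∃ l ∈ Λ, ‖l - z‖ ≤ 1 / 8) {A B : ℝ} (hA0 : 0 ≤ A)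
    (hB0 : 0 ≤ B) (hB : ∀ z : ℂ, ‖K z‖ ≤ B * Real.exp (7 / 2 * ‖z‖ ^ 2))
    (hA : ∀ l ∈ Λ, ‖K l‖ ≤ A * Real.exp (4 * (infDist l C) ^ 2)) (z : ℂ) :
    ‖K z‖ ≤ 12 * A * Real.exp (4 * (infDist z C) ^ 2) := by
  obtain ⟨m₀, hm₀, hK₀⟩ := spread_finite hC hne hB0 hB
  set g : ℂ → ℝ := fun z => ‖K z‖ * Real.exp (-(4 * (infDist z C) ^ 2)) with hg
  have hgle : ∀ (w : ℂ) (t : ℝ), g w ≤ t ↔ ‖K w‖ ≤ t * Real.exp (4 * (infDist w C) ^ 2) := by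
    intro w t
    simp only [hg]
    rw [Real.exp_neg, ← div_eq_mul_inv, div_le_iff₀ (Real.exp_pos _)]
  have hbdd : BddAbove (Set.range g) := by
    refine ⟨m₀, ?_⟩
    rintro _ ⟨w, rfl⟩
    exact (hgle w m₀).2 (hK₀ w)
  set m : ℝ := ⨆ w, g w with hm
  have hm0 : 0 ≤ m := by
    refine le_trans ?_ (le_ciSup hbdd 0)
    simp only [hg]
    positivity
  have hKm : ∀ w : ℂ, ‖K w‖ ≤ m * Real.exp (4 * (infDist w C) ^ 2) := fun w =>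
    (hgle w m).1 (le_ciSup hbdd w)
  have hstep := spread_step hK hC hne hd hA0 hm0 hA hKm
  have hmle : m ≤ 1.07 * A + 0.907 * m := ciSup_le fun w => (hgle w _).2 (hstep w)
  have hmA : m ≤ 12 * A := by
    norm_num at hmle
    linarith
  refine (hKm z).trans ?_
  exact mul_le_mul_of_nonneg_right hmA (Real.exp_pos _).le

end H12S
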