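import Pool.Agent.Lib.H12S.Defs
import Pool.Agent.Lib.H12S.S3

/-! # H12S, chunk S4 (S/M): the spreading lemma for a half-plane -/

namespace H12S

open Metric

/-- (S4, S/M) PROOF. Fix `z`, `R = ‖z‖`, `C = {w | ‖w‖ ≤ R ∧ 0 ≤ w.re}` (compact, contains `0`). For every `l`:
`negsq l ≤ (infDist l C) ^ 2` (every `w ∈ C` has `‖l - w‖ ≥ w.re - l.re ≥ -l.re`). `spread` gives
`‖K z‖ ≤ 12 A exp (4 (infDist z C) ^ 2)`, and `infDist z C ≤ ‖z - w‖ = max 0 (-z.re)` for
`w = max 0 z.re + i z.im ∈ C`. -/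
theorem spread_half {K : ℂ → ℂ} (hK : Differentiable ℂ K) {Λ : Set ℂ}
    (hd : ∀ z : ℂ, ∃ l ∈ Λ, ‖l - z‖ ≤ 1 / 8) {A B : ℝ} (hA0 : 0 ≤ A)
    (hB0 : 0 ≤ B) (hB : ∀ z : ℂ, ‖K z‖ ≤ B * Real.exp (7 / 2 * ‖z‖ ^ 2))
    (hA : ∀ l ∈ Λ, ‖K l‖ ≤ A * Real.exp (4 * negsq l)) (z : ℂ) :
    ‖K z‖ ≤ 12 * A * Real.exp (4 * negsq z) := by
  obtain ⟨C, hC⟩ : ∃ C : Set ℂ, C = closedBall 0 ‖z‖ ∩ {w : ℂ | 0 ≤ w.re} := ⟨_, rfl⟩
  have hcomp : IsCompact C := by
    rw [hC]
    exact (isCompact_closedBall 0 ‖z‖).inter_right (isClosed_le continuous_const Complex.continuous_re)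
  have hmem : ∀ w : ℂ, w ∈ C ↔ ‖w‖ ≤ ‖z‖ ∧ 0 ≤ w.re := by
    intro w
    rw [hC, Set.mem_inter_iff, mem_closedBall_zero_iff, Set.mem_setOf_eq]
  have hne : C.Nonempty := ⟨0, (hmem 0).2 ⟨by rw [norm_zero]; exact norm_nonneg _, le_rfl⟩⟩
  have h1 : ∀ l : ℂ, negsq l ≤ (infDist l C) ^ 2 := by
    intro l
    unfold negsq
    refine pow_le_pow_left₀ (le_max_left _ _) ?_ 2
    rw [Metric.le_infDist hne]
    intro y hy
    rw [hmem] at hy
    refine max_le dist_nonneg ?_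
    rw [Complex.dist_eq]
    have h2 := Complex.abs_re_le_norm (l - y)
    rw [Complex.sub_re] at h2
    have h3 := neg_abs_le (l.re - y.re)
    linarith [hy.2]
  have h4 := spread hK hcomp hne hd hA0 hB0 hB
    (fun l hl => (hA l hl).trans (mul_le_mul_of_nonneg_left
      (Real.exp_le_exp.2 (by linarith [h1 l])) hA0)) z
  refine h4.trans (mul_le_mul_of_nonneg_left (Real.exp_le_exp.2 ?_) (by positivity))
  have h5 : infDist z C ≤ max 0 (-z.re) := by
    have hw : (⟨max 0 z.re, z.im⟩ : ℂ) ∈ C := by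
      rw [hmem]
      refine ⟨?_, le_max_left _ _⟩
      rw [← sq_le_sq₀ (norm_nonneg _) (norm_nonneg _), Complex.sq_norm, Complex.sq_norm,
        Complex.normSq_apply, Complex.normSq_apply]
      rcases le_total 0 z.re with h | h
      · simp only [max_eq_right h]; exact le_rfl
      · simp only [max_eq_left h]; nlinarith
    refine (infDist_le_dist_of_mem hw).trans ?_
    rw [Complex.dist_eq]
    have e : z - (⟨max 0 z.re, z.im⟩ : ℂ) = ((z.re - max 0 z.re : ℝ) : ℂ) := by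
      apply Complex.ext
      · simp
      · simp
    rw [e, Complex.norm_real, Real.norm_eq_abs]
    rcases le_total 0 z.re with h | h
    · rw [max_eq_right h, sub_self, abs_zero]; exact le_max_left _ _
    · rw [max_eq_left h, sub_zero, abs_of_nonpos h]; exact le_max_right _ _
  have h6 : (infDist z C) ^ 2 ≤ negsq z := by
    unfold negsq
    exact pow_le_pow_left₀ infDist_nonneg h5 2
  linarith

end H12S
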