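import Pool.Agent.Lib.H12S.Defs
import Pool.Agent.Lib.H12S.C2
import Pool.Agent.Lib.H12S.C3
import Pool.Agent.Lib.H12S.C4
import Pool.Agent.Lib.H12S.C5
import Pool.Agent.Lib.H12S.S4

/-! # H12S, chunk E1 (S/M): the engine -/

namespace H12S

/-- (E1a, S) PROOF. `core_line` on the lines `im z = (m u + n v).im = u.im * m + v.im * n`, dense by
`dense_of_indep`; both sides are continuous. Then `eq_of_norm_eq`. -/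
theorem engine_complex {u v : ℂ} (hdet : u.re * v.im - u.im * v.re ≠ 0)
    (hind : ∀ m n : ℤ, u.im * m + v.im * n = 0 → m = 0 ∧ n = 0) {J₁ J₂ : ℂ → ℂ}
    (h₁ : Differentiable ℂ J₁) (h₂ : Differentiable ℂ J₂) {M : ℝ}
    (hM₁ : ∀ z : ℂ, 0 ≤ z.re → ‖J₁ z‖ ≤ M) (hM₂ : ∀ z : ℂ, 0 ≤ z.re → ‖J₂ z‖ ≤ M)
    (heq : ∀ m n : ℤ, ‖J₁ (m * u + n * v)‖ = ‖J₂ (m * u + n * v)‖) :
    ∃ c : ℂ, ‖c‖ = 1 ∧ ∀ z : ℂ, J₂ z = c * J₁ z := by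
  refine eq_of_norm_eq h₁ h₂ fun z hz => ?_
  have hdense := dense_of_indep hind
  have hcl : IsClosed {y : ℝ | ‖J₁ (z.re + y * Complex.I)‖ = ‖J₂ (z.re + y * Complex.I)‖} := by
    refine isClosed_eq ?_ ?_
    · exact continuous_norm.comp (h₁.continuous.comp (by fun_prop))
    · exact continuous_norm.comp (h₂.continuous.comp (by fun_prop))
  have hsub : {y : ℝ | ∃ m n : ℤ, y = u.im * m + v.im * n} ⊆
      {y : ℝ | ‖J₁ (z.re + y * Complex.I)‖ = ‖J₂ (z.re + y * Complex.I)‖} := by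
    rintro y ⟨m, n, rfl⟩
    have h3 := core_line hdet h₁ h₂ hM₁ hM₂ heq m n hz
    have h4 : ((m : ℂ) * u + (n : ℂ) * v).im = u.im * m + v.im * n := by
      simp
      ring
    rw [h4] at h3
    exact h3
  have h5 : z.im ∈ {y : ℝ | ‖J₁ (z.re + y * Complex.I)‖ = ‖J₂ (z.re + y * Complex.I)‖} := by
    have h6 := hcl.closure_subset_iff.2 hsub
    rw [hdense.closure_eq] at h6
    exact h6 (Set.mem_univ _)
  have h7 : ((z.re : ℂ) + (z.im : ℂ) * Complex.I) = z := Complex.re_add_im z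
  rw [Set.mem_setOf_eq, h7] at h5
  exact h5

/-- (E1b, S) PROOF. `core_line` for `m = n = 0`, `eq_or_neg`. -/
theorem engine_real {u v : ℂ} (hdet : u.re * v.im - u.im * v.re ≠ 0) {J₁ J₂ : ℂ → ℂ}
    (h₁ : Differentiable ℂ J₁) (h₂ : Differentiable ℂ J₂) {M : ℝ}
    (hM₁ : ∀ z : ℂ, 0 ≤ z.re → ‖J₁ z‖ ≤ M) (hM₂ : ∀ z : ℂ, 0 ≤ z.re → ‖J₂ z‖ ≤ M)
    (heq : ∀ m n : ℤ, ‖J₁ (m * u + n * v)‖ = ‖J₂ (m * u + n * v)‖)
    (hr₁ : ∀ x : ℝ, (J₁ x).im = 0) (hr₂ : ∀ x : ℝ, (J₂ x).im = 0) :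
    (∀ z : ℂ, J₂ z = J₁ z) ∨ (∀ z : ℂ, J₂ z = -J₁ z) := by
  refine eq_or_neg h₁ h₂ (fun x hx => ?_) hr₁ hr₂
  have h3 := core_line hdet h₁ h₂ hM₁ hM₂ heq 0 0 hx
  simpa using h3

/-- (E1c, S) PROOF. `spread_half` for `K = J₂` and `Λ = {m u + n v}`: on `Λ` we have
`‖J₂‖ = ‖J₁‖ ≤ A exp (4 negsq)`; `negsq z = 0` for `z.re ≥ 0`. -/
theorem engine_spread {u v : ℂ} (hd : ∀ z : ℂ, ∃ m n : ℤ, ‖(m * u + n * v) - z‖ ≤ 1 / 8)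
    {J₁ J₂ : ℂ → ℂ} (h₂ : Differentiable ℂ J₂) {A B : ℝ} (hA0 : 0 ≤ A) (hB0 : 0 ≤ B)
    (hA : ∀ z : ℂ, ‖J₁ z‖ ≤ A * Real.exp (4 * negsq z))
    (hB : ∀ z : ℂ, ‖J₂ z‖ ≤ B * Real.exp (7 / 2 * ‖z‖ ^ 2))
    (heq : ∀ m n : ℤ, ‖J₁ (m * u + n * v)‖ = ‖J₂ (m * u + n * v)‖) (z : ℂ) (hz : 0 ≤ z.re) :
    ‖J₂ z‖ ≤ 12 * A := by
  have h3 := spread_half (K := J₂) (Λ := {z : ℂ | ∃ m n : ℤ, z = m * u + n * v}) h₂
    (fun z => by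
      obtain ⟨m, n, h⟩ := hd z
      exact ⟨_, ⟨m, n, rfl⟩, h⟩) hA0 hB0 hB (by
      rintro l ⟨m, n, rfl⟩
      rw [← heq m n]
      exact hA _) z
  have h4 : negsq z = 0 := by
    unfold negsq
    rw [max_eq_left (by linarith)]
    norm_num
  rw [h4, mul_zero, Real.exp_zero, mul_one] at h3
  exact h3

end H12S
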