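import Pool.Agent.Lib.H12S.Defs

/-! # H12S, chunk P1 (M): `Psi` of a Gaussian times a Fourier integral -/

namespace H12S

open MeasureTheory

/-- `f t = exp (-κ t ^ 2) * ∫ φ exp (2 π i w t) dν(w)` with `φ` integrable and zero to the left of `T` -/
def Spec (κ T : ℝ) (f : ℝ → ℂ) : Prop :=
  ∃ (ν : Measure ℝ) (φ : ℝ → ℂ), SFinite ν ∧ Integrable φ ν ∧ (∀ᵐ w ∂ν, w < T → φ w = 0) ∧
    ∀ᵐ t : ℝ, f t = Complex.exp (-κ * t ^ 2) *
      ∫ w : ℝ, φ w * Complex.exp (2 * Real.pi * Complex.I * w * t) ∂ν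

/-- (P1, M) PROOF. Fubini (`integral_integral_swap`; the integrand has norm
`‖φ w‖ * exp (-(π + κ) t ^ 2 + 2 π t z.re)`, a product) and the Gaussian integral
`∫ exp (-(π + κ) t ^ 2 + 2 π t (z + i w)) dt = (π / (π + κ)) ^ (1/2) exp (π ^ 2 (z + i w) ^ 2 / (π + κ))`
(`integral_cexp_quadratic` or `fourierIntegral_gaussian`). -/
theorem Psi_spec {κ : ℝ} (hκ : 0 ≤ κ) {f : ℝ → ℂ} {ν : Measure ℝ} [SFinite ν] {φ : ℝ → ℂ}
    (hφ : Integrable φ ν)
    (hf : ∀ᵐ t : ℝ, f t = Complex.exp (-κ * t ^ 2) *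
      ∫ w : ℝ, φ w * Complex.exp (2 * Real.pi * Complex.I * w * t) ∂ν) (z : ℂ) :
    Psi f z = ((Real.sqrt (Real.pi / (Real.pi + κ)) : ℝ) : ℂ) *
      ∫ w : ℝ, φ w * Complex.exp (Real.pi ^ 2 / (Real.pi + κ) * (z + Complex.I * w) ^ 2) ∂ν := by
  have hA : 0 < Real.pi + κ := by
    have := Real.pi_pos
    linarith
  have hAc : ((Real.pi + κ : ℝ) : ℂ) ≠ 0 := by
    exact_mod_cast hA.ne'
  have hAc' : (Real.pi : ℂ) + κ ≠ 0 := by
    rw [← Complex.ofReal_add]
    exact hAc
  unfold Psi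
  have h1 : ∫ t : ℝ, f t * Complex.exp (-Real.pi * t ^ 2 + 2 * Real.pi * t * z) =
      ∫ t : ℝ, ∫ w : ℝ, φ w * Complex.exp (-(Real.pi + κ) * t ^ 2 +
        2 * Real.pi * (z + Complex.I * w) * t + 0) ∂ν := by
    refine integral_congr_ae ?_
    filter_upwards [hf] with t ht
    rw [ht]
    have h2 : ∀ w : ℝ, φ w * Complex.exp (-(Real.pi + κ) * t ^ 2 +
        2 * Real.pi * (z + Complex.I * w) * t + 0) =
        (Complex.exp (-κ * t ^ 2) * Complex.exp (-Real.pi * t ^ 2 + 2 * Real.pi * t * z)) *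
          (φ w * Complex.exp (2 * Real.pi * Complex.I * w * t)) := by
      intro w
      have h3 : -((Real.pi : ℂ) + κ) * t ^ 2 + 2 * Real.pi * (z + Complex.I * w) * t + 0 =
          (-κ * t ^ 2 + (-Real.pi * t ^ 2 + 2 * Real.pi * t * z)) +
            2 * Real.pi * Complex.I * w * t := by ring
      rw [h3, Complex.exp_add, Complex.exp_add]
      ring
    rw [integral_congr_ae (Filter.Eventually.of_forall h2), integral_const_mul]
    ring
  have hint : Integrable (Function.uncurry fun (t w : ℝ) => φ w *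
      Complex.exp (-(Real.pi + κ) * t ^ 2 + 2 * Real.pi * (z + Complex.I * w) * t + 0))
      (volume.prod ν) := by
    have hg : Integrable (fun t : ℝ => Complex.exp ((-(Real.pi + κ) : ℂ) * (t : ℂ) ^ 2 +
        2 * Real.pi * z * t + 0)) := by
      refine integrable_cexp_quadratic ?_ _ _
      rw [← Complex.ofReal_add, Complex.ofReal_re]
      exact hA
    have h2 := hg.mul_prod hφ
    have hc : Continuous fun p : ℝ × ℝ => Complex.exp (2 * Real.pi * Complex.I * p.2 * p.1) := by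
      fun_prop
    refine h2.mono (((h2.aestronglyMeasurable).mul hc.aestronglyMeasurable).congr
      (Filter.Eventually.of_forall fun p => ?_)) (Filter.Eventually.of_forall fun p => ?_)
    · simp only [Pi.mul_apply, Function.uncurry]
      have h3 : -((Real.pi : ℂ) + κ) * (p.1 : ℂ) ^ 2 +
          2 * Real.pi * (z + Complex.I * p.2) * p.1 + 0 =
          (-((Real.pi : ℂ) + κ) * (p.1 : ℂ) ^ 2 + 2 * Real.pi * z * p.1 + 0) +
            2 * Real.pi * Complex.I * p.2 * p.1 := by ring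
      rw [h3, Complex.exp_add _ (2 * Real.pi * Complex.I * p.2 * p.1)]
      ring
    · simp only [Function.uncurry]
      rw [norm_mul, norm_mul, Complex.norm_exp, Complex.norm_exp]
      have h3 : (-((Real.pi : ℂ) + κ) * (p.1 : ℂ) ^ 2 +
          2 * Real.pi * (z + Complex.I * p.2) * p.1 + 0).re =
          (-((Real.pi : ℂ) + κ) * (p.1 : ℂ) ^ 2 + 2 * Real.pi * z * p.1 + 0).re := by
        have h4 : -((Real.pi : ℂ) + κ) * (p.1 : ℂ) ^ 2 +
          2 * Real.pi * (z + Complex.I * p.2) * p.1 + 0 =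
          (-((Real.pi : ℂ) + κ) * (p.1 : ℂ) ^ 2 + 2 * Real.pi * z * p.1 + 0) +
            ((2 * Real.pi * p.2 * p.1 : ℝ) : ℂ) * Complex.I := by
          push_cast
          ring
        rw [h4, Complex.add_re, Complex.re_ofReal_mul, Complex.I_re, mul_zero, add_zero]
      rw [h3, mul_comm]
  rw [h1, integral_integral_swap hint, ← integral_const_mul]
  refine integral_congr_ae (Filter.Eventually.of_forall fun w => ?_)
  simp only
  rw [integral_const_mul, integral_cexp_quadratic (b := -((Real.pi : ℂ) + κ)) (by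
    rw [← Complex.ofReal_add, ← Complex.ofReal_neg, Complex.ofReal_re]
    linarith)]
  have h5 : ((Real.pi : ℂ) / - -((Real.pi : ℂ) + κ)) ^ (1 / 2 : ℂ) =
      ((Real.sqrt (Real.pi / (Real.pi + κ)) : ℝ) : ℂ) := by
    rw [neg_neg, Real.sqrt_eq_rpow, Complex.ofReal_cpow (by positivity)]
    push_cast
    rfl
  have h6 : (0 : ℂ) - (2 * Real.pi * (z + Complex.I * w)) ^ 2 / (4 * -((Real.pi : ℂ) + κ)) =
      Real.pi ^ 2 / (Real.pi + κ) * (z + Complex.I * w) ^ 2 := by
    field_simp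
    ring
  rw [h5, h6]
  ring

end H12S
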