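import Pool.Agent.Lib.H12S.Defs
import Pool.Agent.Lib.H12S.A1
import Pool.Agent.Lib.H12S.A2
import Pool.Agent.Lib.H12S.P1

/-! # H12S, chunk P2 (M): bounds in the rotated half-plane -/

namespace H12S

open MeasureTheory

/-- `exp (β z ^ 2 + 2 β T z) * Psi f (i z)` -/
noncomputable def JS (β T : ℝ) (f : ℝ → ℂ) (z : ℂ) : ℂ :=
  Complex.exp (β * z ^ 2 + 2 * β * T * z) * Psi f (Complex.I * z)

/-- (P2a, S) PROOF. `Psi_differentiable`. -/
theorem JS_differentiable {f : ℝ → ℂ} (hf : MemLp f 2 volume) (β T : ℝ) :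
    Differentiable ℂ (JS β T f) := by
  have h1 : Differentiable ℂ (fun z : ℂ => Complex.exp (β * z ^ 2 + 2 * β * T * z)) := by
    fun_prop
  have h2 : Differentiable ℂ (fun z : ℂ => Psi f (Complex.I * z)) :=
    (Psi_differentiable hf).comp (differentiable_id.const_mul Complex.I)
  exact h1.mul h2

/-- the real part of the exponent -/
theorem p2_re (β T w : ℝ) (z : ℂ) :
    (-(2 * (β : ℂ) * ((w : ℂ) - T) * z) - β * (w : ℂ) ^ 2).re =
      -(2 * β * (w - T) * z.re) - β * w ^ 2 := by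
  have h1 : (-(2 * (β : ℂ) * ((w : ℂ) - T) * z) - β * (w : ℂ) ^ 2) =
      ((-(β * w ^ 2) : ℝ) : ℂ) - ((2 * β * (w - T) : ℝ) : ℂ) * z := by
    push_cast
    ring
  rw [h1, Complex.sub_re, Complex.ofReal_re, Complex.re_ofReal_mul]
  ring

/-- the bound for the exponent -/
theorem p2_exponent {β T w x : ℝ} (h0 : 0 ≤ β) (h4 : β < 4) (hw : T ≤ w) :
    -(2 * β * (w - T) * x) - β * w ^ 2 ≤ (β * T) ^ 2 / (4 - β) + 4 * (max 0 (-x)) ^ 2 := by
  have h5 : 0 < 4 - β := by linarith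
  have h6 : 0 ≤ (β * T) ^ 2 / (4 - β) := by positivity
  rcases le_total 0 x with hx | hx
  · have h7 : max 0 (-x) = 0 := max_eq_left (by linarith)
    rw [h7]
    have h8 : 0 ≤ 2 * β * (w - T) * x :=
      mul_nonneg (mul_nonneg (by linarith) (by linarith)) hx
    have h9 : 0 ≤ β * w ^ 2 := by positivity
    nlinarith
  · have h7 : max 0 (-x) = -x := max_eq_right (by linarith)
    rw [h7]
    have h8 : β * (w + x) ^ 2 ≥ 0 := by positivity
    have h9 : 2 * β * T * x ≤ (β * T) ^ 2 / (4 - β) + (4 - β) * x ^ 2 := by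
      have h10 : (β * T) ^ 2 / (4 - β) + (4 - β) * x ^ 2 - 2 * β * T * x =
          (β * T - (4 - β) * x) ^ 2 / (4 - β) := by
        field_simp
        ring
      have h11 : 0 ≤ (β * T - (4 - β) * x) ^ 2 / (4 - β) := by positivity
      linarith
    nlinarith

/-- (P2b, M) PROOF. `β = π ^ 2 / (π + κ) ∈ (0, π]`. By `Psi_spec` (`(i z + i w) ^ 2 = -(z + w) ^ 2`)
`JS β T f z = c ∫ φ w exp (-2 β (w - T) z - β w ^ 2) dν`, `0 ≤ c ≤ 1`. For `z.re ≥ 0` and `w ≥ T` the exponential has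
norm at most `1`. For `x = z.re < 0`: the exponent has real part `2 β T x - 2 β w x - β w ^ 2 ≤ 2 β |T| |x| + β x ^ 2`
`≤ 4 x ^ 2 + (β T) ^ 2 / (4 - β)` (`β ≤ π < 4`). `A = ∫ ‖φ‖ dν * exp ((β T) ^ 2 / (4 - β))`. -/
theorem JS_spec_bound {κ T : ℝ} (hκ : 0 ≤ κ) {f : ℝ → ℂ} (hf : Spec κ T f) :
    ∃ A : ℝ, 0 ≤ A ∧ ∀ z : ℂ, ‖JS (Real.pi ^ 2 / (Real.pi + κ)) T f z‖ ≤
      A * Real.exp (4 * negsq z) := by
  obtain ⟨ν, φ, hν, hφ, hφ0, hft⟩ := hf
  have hpi := Real.pi_pos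
  have hpk : 0 < Real.pi + κ := by linarith
  set β : ℝ := Real.pi ^ 2 / (Real.pi + κ) with hβ
  have hβ0 : 0 ≤ β := by positivity
  have hβ4 : β < 4 := by
    have h1 : β ≤ Real.pi := by
      rw [hβ, div_le_iff₀ hpk]
      nlinarith
    linarith [Real.pi_lt_four]
  have hβc : (β : ℂ) = (Real.pi : ℂ) ^ 2 / ((Real.pi : ℂ) + κ) := by
    rw [hβ]
    push_cast
    ring
  set c : ℝ := Real.sqrt (Real.pi / (Real.pi + κ)) with hc
  have hc0 : 0 ≤ c := Real.sqrt_nonneg _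
  refine ⟨c * ((∫ w, ‖φ w‖ ∂ν) * Real.exp ((β * T) ^ 2 / (4 - β))), ?_, fun z => ?_⟩
  · have h1 : 0 ≤ ∫ w, ‖φ w‖ ∂ν := integral_nonneg fun w => norm_nonneg _
    positivity
  · have h1 : JS β T f z = (c : ℂ) * ∫ w : ℝ, φ w *
        Complex.exp (-(2 * (β : ℂ) * ((w : ℂ) - T) * z) - β * (w : ℂ) ^ 2) ∂ν := by
      unfold JS
      rw [Psi_spec hκ hφ hft (Complex.I * z), ← hβc, mul_left_comm, ← integral_const_mul]
      congr 1
      refine integral_congr_ae (Filter.Eventually.of_forall fun w => ?_)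
      simp only
      rw [mul_left_comm, ← Complex.exp_add]
      congr 2
      have h2 : (Complex.I * z + Complex.I * (w : ℂ)) ^ 2 = -(z + w) ^ 2 := by
        have h3 : (Complex.I * z + Complex.I * (w : ℂ)) ^ 2 = Complex.I ^ 2 * (z + w) ^ 2 := by
          ring
        rw [h3, Complex.I_sq]
        ring
      rw [h2]
      ring
    rw [h1, norm_mul, Complex.norm_real, Real.norm_eq_abs, abs_of_nonneg hc0]
    have h4 : ‖∫ w : ℝ, φ w * Complex.exp (-(2 * (β : ℂ) * ((w : ℂ) - T) * z) -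
        β * (w : ℂ) ^ 2) ∂ν‖ ≤ ∫ w : ℝ, ‖φ w‖ * (Real.exp ((β * T) ^ 2 / (4 - β)) *
          Real.exp (4 * negsq z)) ∂ν := by
      refine norm_integral_le_of_norm_le (hφ.norm.mul_const _) ?_
      filter_upwards [hφ0] with w hw
      rw [norm_mul]
      rcases lt_or_ge w T with h5 | h5
      · rw [hw h5]
        simp
      · refine mul_le_mul_of_nonneg_left ?_ (norm_nonneg _)
        rw [Complex.norm_exp, p2_re, ← Real.exp_add]
        exact Real.exp_le_exp.mpr (p2_exponent hβ0 hβ4 h5)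
    rw [integral_mul_const] at h4
    calc c * ‖∫ w : ℝ, φ w * Complex.exp (-(2 * (β : ℂ) * ((w : ℂ) - T) * z) -
        β * (w : ℂ) ^ 2) ∂ν‖ ≤ c * ((∫ w, ‖φ w‖ ∂ν) * (Real.exp ((β * T) ^ 2 / (4 - β)) *
          Real.exp (4 * negsq z))) := mul_le_mul_of_nonneg_left h4 hc0
      _ = _ := by ring

/-- (P2c, S/M) PROOF. `Psi_bound`: with `z = x + i y`, `i z = -y + i x`:
`‖JS β T h z‖ ≤ C exp (β (x ^ 2 - y ^ 2) + 2 β T x + π y ^ 2) ≤ C exp (π ‖z‖ ^ 2 + 2 π |T| ‖z‖)` for `0 ≤ β ≤ π`, and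
`2 π |T| r ≤ 0.35 r ^ 2 + 10 (π T) ^ 2`, `π + 0.35 ≤ 7/2` (`Real.pi_lt_d2`). -/
theorem JS_growth {h : ℝ → ℂ} (hh : MemLp h 2 volume) {β : ℝ} (hβ0 : 0 ≤ β) (hβ : β ≤ Real.pi)
    (T : ℝ) : ∃ B : ℝ, 0 ≤ B ∧ ∀ z : ℂ, ‖JS β T h z‖ ≤ B * Real.exp (7 / 2 * ‖z‖ ^ 2) := by
  obtain ⟨C, hC, hb⟩ := Psi_bound hh
  refine ⟨C * Real.exp ((Real.pi * T) ^ 2 / (7 / 20)), by positivity, fun z => ?_⟩
  have h1 : (β * z ^ 2 + 2 * β * T * z : ℂ).re = β * (z.re ^ 2 - z.im ^ 2) + 2 * β * T * z.re := by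
    have h2 : (β * z ^ 2 + 2 * β * T * z : ℂ) = (β : ℂ) * (z ^ 2) + ((2 * β * T : ℝ) : ℂ) * z := by
      push_cast
      ring
    rw [h2, Complex.add_re, Complex.re_ofReal_mul, Complex.re_ofReal_mul]
    have h3 : (z ^ 2).re = z.re ^ 2 - z.im ^ 2 := by
      rw [sq, Complex.mul_re]
      ring
    rw [h3]
  have h4 : (Complex.I * z).re ^ 2 = z.im ^ 2 := by
    simp
  have h5 : ‖z‖ ^ 2 = z.re ^ 2 + z.im ^ 2 := by
    rw [← Complex.normSq_eq_norm_sq, Complex.normSq_apply]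
    ring
  unfold JS
  rw [norm_mul, Complex.norm_exp, h1]
  have h6 := hb (Complex.I * z)
  rw [h4] at h6
  have hpi := Real.pi_pos
  have hpi2 := Real.pi_lt_d2
  have h7 : β * (z.re ^ 2 - z.im ^ 2) + 2 * β * T * z.re + Real.pi * z.im ^ 2 ≤
      (Real.pi * T) ^ 2 / (7 / 20) + 7 / 2 * ‖z‖ ^ 2 := by
    have h8 : 2 * β * T * z.re ≤ 2 * Real.pi * |T| * |z.re| := by
      have h9 : T * z.re ≤ |T| * |z.re| := by
        rw [← abs_mul]
        exact le_abs_self _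
      have h10 : 0 ≤ |T| * |z.re| := by positivity
      nlinarith
    have h11 : 2 * Real.pi * |T| * |z.re| ≤ (Real.pi * T) ^ 2 / (7 / 20) + 7 / 20 * z.re ^ 2 := by
      have h12 : (Real.pi * T) ^ 2 / (7 / 20) + 7 / 20 * z.re ^ 2 - 2 * Real.pi * |T| * |z.re| =
          (20 / 7) * (Real.pi * |T| - 7 / 20 * |z.re|) ^ 2 := by
        have e1 : T ^ 2 = |T| ^ 2 := (sq_abs T).symm
        have e2 : z.re ^ 2 = |z.re| ^ 2 := (sq_abs z.re).symm
        rw [mul_pow, e1, e2]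
        ring
      have h13 : 0 ≤ (20 / 7 : ℝ) * (Real.pi * |T| - 7 / 20 * |z.re|) ^ 2 := by positivity
      linarith
    rw [h5]
    have h14 : β * (z.re ^ 2 - z.im ^ 2) ≤ Real.pi * z.re ^ 2 := by
      have h15 : β * z.re ^ 2 ≤ Real.pi * z.re ^ 2 :=
        mul_le_mul_of_nonneg_right hβ (sq_nonneg _)
      have h16 : 0 ≤ β * z.im ^ 2 := by positivity
      nlinarith
    nlinarith [sq_nonneg z.re, sq_nonneg z.im]
  calc Real.exp (β * (z.re ^ 2 - z.im ^ 2) + 2 * β * T * z.re) * ‖Psi h (Complex.I * z)‖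
      ≤ Real.exp (β * (z.re ^ 2 - z.im ^ 2) + 2 * β * T * z.re) *
        (C * Real.exp (Real.pi * z.im ^ 2)) := mul_le_mul_of_nonneg_left h6 (Real.exp_pos _).le
    _ = C * Real.exp (β * (z.re ^ 2 - z.im ^ 2) + 2 * β * T * z.re + Real.pi * z.im ^ 2) := by
        rw [Real.exp_add (β * (z.re ^ 2 - z.im ^ 2) + 2 * β * T * z.re)]
        ring
    _ ≤ C * Real.exp ((Real.pi * T) ^ 2 / (7 / 20) + 7 / 2 * ‖z‖ ^ 2) :=
        mul_le_mul_of_nonneg_left (Real.exp_le_exp.mpr h7) hC.le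
    _ = _ := by
        rw [Real.exp_add]
        ring

/-- (P2d, S) PROOF. For a real-valued `f` no symmetry is needed. `JS` of a multiple: if `JS β T h z = u * JS β T f z`
for all `z` then `Psi h z = u * Psi f z` for all `z` (the exponential factor is not zero, `z ↦ i z` is onto). -/
theorem Psi_of_JS {f h : ℝ → ℂ} {β T : ℝ} {u : ℂ} (H : ∀ z : ℂ, JS β T h z = u * JS β T f z)
    (z : ℂ) : Psi h z = u * Psi f z := by
  have h1 := H (-Complex.I * z)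
  unfold JS at h1
  have h2 : Complex.I * (-Complex.I * z) = z := by
    rw [← mul_assoc, mul_neg, Complex.I_mul_I, neg_neg, one_mul]
  rw [h2] at h1
  have h3 : Complex.exp (β * (-Complex.I * z) ^ 2 + 2 * β * T * (-Complex.I * z)) * Psi h z =
      Complex.exp (β * (-Complex.I * z) ^ 2 + 2 * β * T * (-Complex.I * z)) * (u * Psi f z) := by
    rw [h1]
    ring
  exact mul_left_cancel₀ (Complex.exp_ne_zero _) h3

end H12S
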