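import Pool.Agent.Lib.H12S.Defs
import Pool.Agent.Lib.H12S.A3
import Pool.Agent.Lib.H12S.P2

/-! # H12S, chunk R1 (S): from samples of `stft` to samples on a lattice in `ℂ` -/

namespace H12S

open MeasureTheory

theorem r1_arg (a b c d : ℝ) (m n : ℤ) : (m * (⟨a, -c⟩ : ℂ) + n * (⟨b, -d⟩ : ℂ)) =
    ((a * m + b * n : ℝ) : ℂ) - Complex.I * ((c * m + d * n : ℝ) : ℂ) := by
  apply Complex.ext
  · simp
    ring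
  · simp
    ring

theorem r1_rot (a b c d : ℝ) (m n : ℤ) :
    Complex.I * (m * (⟨-c, -a⟩ : ℂ) + n * (⟨-d, -b⟩ : ℂ)) = m * (⟨a, -c⟩ : ℂ) + n * (⟨b, -d⟩ : ℂ) := by
  apply Complex.ext
  · simp
    ring
  · simp

theorem r1_norm {w : ℂ} (h : w.re ^ 2 + w.im ^ 2 ≤ (1 / 8) ^ 2) : ‖w‖ ≤ 1 / 8 := by
  have h1 : ‖w‖ ^ 2 = w.re ^ 2 + w.im ^ 2 := by
    rw [Complex.sq_norm, Complex.normSq_apply]
    ring
  rw [← h1] at h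
  exact (pow_le_pow_iff_left₀ (norm_nonneg _) (by norm_num) two_ne_zero).1 h

/-- the first generator of the lattice `{(a m + b n) - i (c m + d n)}` is `⟨a, -c⟩`, the second is `⟨b, -d⟩`.

(R1a, S) PROOF. `stft_norm_iff` at `x = a m + b n`, `w = c m + d n`. -/
theorem samples_Psi {a b c d : ℝ} {f h : ℝ → ℂ} (H : SameSamples a b c d f h) (m n : ℤ) :
    ‖Psi f (m * (⟨a, -c⟩ : ℂ) + n * (⟨b, -d⟩ : ℂ))‖ =
      ‖Psi h (m * (⟨a, -c⟩ : ℂ) + n * (⟨b, -d⟩ : ℂ))‖ := by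
  have h1 := (stft_norm_iff f h _ _).1 (H m n)
  rw [r1_arg]
  exact h1

/-- (R1b, S) PROOF. `Dense8` for `(z.re, -z.im)`; `Complex.sq_norm`, `Complex.normSq_apply`, `abs_le_of_sq_le_sq'`. -/
theorem dense_lat {a b c d : ℝ} (H : Dense8 a b c d) (z : ℂ) :
    ∃ m n : ℤ, ‖(m * (⟨a, -c⟩ : ℂ) + n * (⟨b, -d⟩ : ℂ)) - z‖ ≤ 1 / 8 := by
  obtain ⟨m, n, h⟩ := H z.re (-z.im)
  refine ⟨m, n, r1_norm ?_⟩
  have e1 : ((m * (⟨a, -c⟩ : ℂ) + n * (⟨b, -d⟩ : ℂ)) - z).re = a * m + b * n - z.re := by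
    simp
    ring
  have e2 : ((m * (⟨a, -c⟩ : ℂ) + n * (⟨b, -d⟩ : ℂ)) - z).im = -(c * m + d * n - -z.im) := by
    simp
    ring
  rw [e1, e2, neg_sq]
  exact h

/-- (R1c, S) PROOF. `i * ⟨-c, -a⟩ = ⟨a, -c⟩`, `i * ⟨-d, -b⟩ = ⟨b, -d⟩`, `samples_Psi`; the exponential factors are the
same. -/
theorem samples_JS {a b c d : ℝ} {f h : ℝ → ℂ} (H : SameSamples a b c d f h) (β T : ℝ)
    (m n : ℤ) :
    ‖JS β T f (m * (⟨-c, -a⟩ : ℂ) + n * (⟨-d, -b⟩ : ℂ))‖ =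
      ‖JS β T h (m * (⟨-c, -a⟩ : ℂ) + n * (⟨-d, -b⟩ : ℂ))‖ := by
  unfold JS
  rw [norm_mul, norm_mul, r1_rot, samples_Psi H]

/-- (R1d, S) PROOF. As `dense_lat`, for `(-z.im, -z.re)`. -/
theorem dense_lat_rot {a b c d : ℝ} (H : Dense8 a b c d) (z : ℂ) :
    ∃ m n : ℤ, ‖(m * (⟨-c, -a⟩ : ℂ) + n * (⟨-d, -b⟩ : ℂ)) - z‖ ≤ 1 / 8 := by
  obtain ⟨m, n, h⟩ := H (-z.im) (-z.re)
  refine ⟨m, n, r1_norm ?_⟩
  have e1 : ((m * (⟨-c, -a⟩ : ℂ) + n * (⟨-d, -b⟩ : ℂ)) - z).re = -(c * m + d * n - -z.re) := by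
    simp
    ring
  have e2 : ((m * (⟨-c, -a⟩ : ℂ) + n * (⟨-d, -b⟩ : ℂ)) - z).im = -(a * m + b * n - -z.im) := by
    simp
    ring
  rw [e1, e2, neg_sq, neg_sq, add_comm]
  exact h

end H12S
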