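import Pool.Agent.Lib.H12S.FDefs
import Pool.Agent.Lib.H12S.A1
import Pool.Agent.Lib.H12S.A2
import Pool.Agent.Lib.H12S.A3
import Pool.Agent.Lib.H12S.A4
import Pool.Agent.Lib.H12S.A6
import Pool.Agent.Lib.H12S.E1
import Pool.Agent.Lib.H12S.R1

/-! # H12S, chunk F1 (M): signals vanishing on a half-line -/

namespace H12S

open MeasureTheory

theorem f1_diff {f : ℝ → ℂ} (hf : MemLp f 2 volume) (T : ℝ) :
    Differentiable ℂ (fun z : ℂ => Complex.exp (-2 * Real.pi * T * z) * Psi f z) := by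
  have h1 : Differentiable ℂ (fun z : ℂ => Complex.exp (-2 * Real.pi * T * z)) := by
    fun_prop
  exact h1.mul (Psi_differentiable hf)

theorem f1_heq {a b c d : ℝ} {f h : ℝ → ℂ} (H : SameSamples a b c d f h) (T : ℝ) (m n : ℤ) :
    ‖(fun z : ℂ => Complex.exp (-2 * Real.pi * T * z) * Psi f z)
        (m * (⟨a, -c⟩ : ℂ) + n * (⟨b, -d⟩ : ℂ))‖ =
      ‖(fun z : ℂ => Complex.exp (-2 * Real.pi * T * z) * Psi h z)
        (m * (⟨a, -c⟩ : ℂ) + n * (⟨b, -d⟩ : ℂ))‖ := by
  simp only [norm_mul]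
  rw [samples_Psi H m n]

theorem f1_cancel {f h : ℝ → ℂ} {T : ℝ} {u z : ℂ}
    (e : Complex.exp (-2 * Real.pi * T * z) * Psi h z =
      u * (Complex.exp (-2 * Real.pi * T * z) * Psi f z)) : Psi h z = u * Psi f z := by
  have h1 := Complex.exp_ne_zero (-2 * Real.pi * T * z)
  refine mul_left_cancel₀ h1 ?_
  rw [e]
  ring

theorem f1_im (f : ℝ → ℝ) (T x : ℝ) :
    ((fun z : ℂ => Complex.exp (-2 * Real.pi * T * z) * Psi (toC f) z) (x : ℂ)).im = 0 := by
  have h1 : (Psi (toC f) (x : ℂ)).im = 0 := Psi_real f x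
  have h2 : Complex.exp (-2 * Real.pi * T * (x : ℂ)) =
      ((Real.exp (-2 * Real.pi * T * x) : ℝ) : ℂ) := by
    push_cast
    rfl
  show (Complex.exp (-2 * Real.pi * T * (x : ℂ)) * Psi (toC f) (x : ℂ)).im = 0
  rw [h2, Complex.im_ofReal_mul, h1, mul_zero]

/-- (F1a, S/M) PROOF. `J₁ z = exp (-2 π T z) * Psi f z`, `J₂ z = exp (-2 π T z) * Psi h z` are entire
(`Psi_differentiable`), `J₁` satisfies `half_bound_all` with a constant `A`. `J₂` is bounded for `z.re ≥ 0`: by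
`half_bound` if `h = 0` on `(T, ∞)`, otherwise by `engine_spread` (`growth`, `dense_lat`, `samples_Psi`). Take
`M` = the maximum of the two bounds. -/
theorem both_bounded {a b c d T : ℝ} {f h : ℝ → ℂ} (hf : MemLp f 2 volume)
    (hh : MemLp h 2 volume) (hT : ZeroRight T f) (hcase : Dense8 a b c d ∨ ZeroRight T h)
    (H : SameSamples a b c d f h) :
    ∃ M : ℝ, (∀ z : ℂ, 0 ≤ z.re → ‖Complex.exp (-2 * Real.pi * T * z) * Psi f z‖ ≤ M) ∧
      (∀ z : ℂ, 0 ≤ z.re → ‖Complex.exp (-2 * Real.pi * T * z) * Psi h z‖ ≤ M) := by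
  obtain ⟨A, hA0, hA⟩ := half_bound_all hf hT
  obtain ⟨A', _, hA'⟩ := half_bound hf hT
  rcases hcase with hd | hz
  · obtain ⟨B, hB0, hB⟩ := growth hh T
    have hs := engine_spread (dense_lat hd) (f1_diff hh T) hA0 hB0 hA hB (f1_heq H T)
    exact ⟨max A' (12 * A), fun z hz => (hA' z hz).trans (le_max_left _ _),
      fun z hz => (hs z hz).trans (le_max_right _ _)⟩
  · obtain ⟨A'', _, hA''⟩ := half_bound hh hz
    exact ⟨max A' A'', fun z hz => (hA' z hz).trans (le_max_left _ _),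
      fun z hz => (hA'' z hz).trans (le_max_right _ _)⟩

/-- (F1b, S) PROOF. `engine_complex` for the functions of `both_bounded`, `u = ⟨a, -c⟩`, `v = ⟨b, -d⟩`, and
`eq_of_Psi`. -/
theorem complex_right {a b c d T : ℝ} (hdet : a * d - b * c ≠ 0) (hind : IndepQ c d)
    {f h : ℝ → ℂ} (hf : MemLp f 2 volume) (hh : MemLp h 2 volume) (hT : ZeroRight T f)
    (hcase : Dense8 a b c d ∨ ZeroRight T h) (H : SameSamples a b c d f h) : PhaseEq f h := by
  obtain ⟨M, hM₁, hM₂⟩ := both_bounded hf hh hT hcase H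
  have hdet' : (⟨a, -c⟩ : ℂ).re * (⟨b, -d⟩ : ℂ).im - (⟨a, -c⟩ : ℂ).im * (⟨b, -d⟩ : ℂ).re ≠ 0 := by
    intro h0
    apply hdet
    simp only [] at h0
    linarith
  have hind' : ∀ m n : ℤ, (⟨a, -c⟩ : ℂ).im * m + (⟨b, -d⟩ : ℂ).im * n = 0 → m = 0 ∧ n = 0 := by
    intro m n h0
    apply hind m n
    simp only [] at h0
    linarith
  obtain ⟨u, hu, he⟩ := engine_complex hdet' hind' (f1_diff hf T) (f1_diff hh T) hM₁ hM₂
    (f1_heq H T)
  exact ⟨u, hu, eq_of_Psi hf hh fun z => f1_cancel (he z)⟩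

/-- (F1c, S) PROOF. `engine_real` for the functions of `both_bounded` (real on the real line: `Psi_real` and
`exp (-2 π T x)` is real), `eq_of_Psi` with `u = ± 1`. -/
theorem real_right {a b c d T : ℝ} (hdet : a * d - b * c ≠ 0) {f h : ℝ → ℝ}
    (hf : MemLp f 2 volume) (hh : MemLp h 2 volume) (hT : ZeroRight T (toC f))
    (hcase : Dense8 a b c d ∨ ZeroRight T (toC h))
    (H : SameSamples a b c d (toC f) (toC h)) : SignEq f h := by
  have hf' := memLp_toC hf
  have hh' := memLp_toC hh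
  obtain ⟨M, hM₁, hM₂⟩ := both_bounded hf' hh' hT hcase H
  have hdet' : (⟨a, -c⟩ : ℂ).re * (⟨b, -d⟩ : ℂ).im - (⟨a, -c⟩ : ℂ).im * (⟨b, -d⟩ : ℂ).re ≠ 0 := by
    intro h0
    apply hdet
    simp only [] at h0
    linarith
  rcases engine_real hdet' (f1_diff hf' T) (f1_diff hh' T) hM₁ hM₂ (f1_heq H T)
    (f1_im f T) (f1_im h T) with he | he
  · left
    have h1 := eq_of_Psi hf' hh' (u := 1) fun z => f1_cancel (by rw [one_mul]; exact he z)
    filter_upwards [h1] with t ht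
    rw [one_mul] at ht
    exact Complex.ofReal_injective ht
  · right
    have h1 := eq_of_Psi hf' hh' (u := -1) fun z => f1_cancel (T := T) (by
      rw [neg_one_mul]; exact he z)
    filter_upwards [h1] with t ht
    apply Complex.ofReal_injective
    rw [Complex.ofReal_neg]
    have h2 : (toC h t) = -(toC f t) := by rw [ht, neg_one_mul]
    exact h2

end H12S
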