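import Pool.Agent.Lib.H12S.F1

/-! # H12S, chunk F2 (S/M): the other half-line -/

namespace H12S

open MeasureTheory

theorem f2_neg {p : ℝ → Prop} (h : ∀ᵐ t : ℝ, p t) : ∀ᵐ t : ℝ, p (-t) :=
  (Measure.measurePreserving_neg (volume : Measure ℝ)).quasiMeasurePreserving.ae h

/-- (F2a, S) PROOF. `complex_right` for `t ↦ f (-t)`, `t ↦ h (-t)` and `-T` (`SameSamples.reflect`; the map `t ↦ -t`
preserves the measure, `MemLp` and `∀ᵐ`: `(Measure.measurePreserving_neg volume)`, `.quasiMeasurePreserving.ae`). -/
theorem complex_left {a b c d T : ℝ} (hdet : a * d - b * c ≠ 0) (hind : IndepQ c d)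
    {f h : ℝ → ℂ} (hf : MemLp f 2 volume) (hh : MemLp h 2 volume)
    (hT : ∀ᵐ t : ℝ, t < T → f t = 0) (hD : Dense8 a b c d) (H : SameSamples a b c d f h) :
    PhaseEq f h := by
  have hf' : MemLp (fun t => f (-t)) 2 volume := hf.comp_measurePreserving (Measure.measurePreserving_neg volume)
  have hh' : MemLp (fun t => h (-t)) 2 volume := hh.comp_measurePreserving (Measure.measurePreserving_neg volume)
  have hT' : ZeroRight (-T) (fun t => f (-t)) := by
    filter_upwards [f2_neg hT] with t ht h
    exact ht (by linarith)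
  obtain ⟨u, hu, h1⟩ := complex_right hdet hind hf' hh' hT' (Or.inl hD) H.reflect
  refine ⟨u, hu, ?_⟩
  filter_upwards [f2_neg h1] with t ht
  rwa [neg_neg] at ht

/-- (F2b, S) PROOF. As `complex_left`. -/
theorem real_left {a b c d T : ℝ} (hdet : a * d - b * c ≠ 0) {f h : ℝ → ℝ}
    (hf : MemLp f 2 volume) (hh : MemLp h 2 volume) (hT : ∀ᵐ t : ℝ, t < T → toC f t = 0)
    (hD : Dense8 a b c d) (H : SameSamples a b c d (toC f) (toC h)) : SignEq f h := by
  have hf' : MemLp (fun t => f (-t)) 2 volume := hf.comp_measurePreserving (Measure.measurePreserving_neg volume)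
  have hh' : MemLp (fun t => h (-t)) 2 volume := hh.comp_measurePreserving (Measure.measurePreserving_neg volume)
  have hT' : ZeroRight (-T) (toC (fun t => f (-t))) := by
    filter_upwards [f2_neg hT] with t ht h
    exact ht (by linarith)
  rcases real_right hdet hf' hh' hT' (Or.inl hD) H.reflect with h1 | h1
  · left
    filter_upwards [f2_neg h1] with t ht
    rwa [neg_neg] at ht
  · right
    filter_upwards [f2_neg h1] with t ht
    rwa [neg_neg] at ht

end H12S
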