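import Pool.Agent.Lib.H12S.FDefs
import Pool.Agent.Lib.H12S.A6
import Pool.Agent.Lib.H12S.E1
import Pool.Agent.Lib.H12S.P2
import Pool.Agent.Lib.H12S.R1

/-! # H12S, chunk F3 (M): Gaussians times one-sided spectra -/

namespace H12S

open MeasureTheory

theorem f3_bound {β T : ℝ} {f : ℝ → ℂ} {A : ℝ} (hA : ∀ z : ℂ, ‖JS β T f z‖ ≤ A * Real.exp (4 * negsq z))
    (z : ℂ) (hz : 0 ≤ z.re) : ‖JS β T f z‖ ≤ A := by
  have h1 := hA z
  have h2 : negsq z = 0 := by
    unfold negsq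
    rw [max_eq_left (by linarith)]
    norm_num
  rwa [h2, mul_zero, Real.exp_zero, mul_one] at h1

/-- (F3a, S/M) PROOF. `β = π ^ 2 / (π + κ) ∈ [0, π]`, `J₁ = JS β T f` (`JS_spec_bound`), `J₂ = JS β T h`, entire by
`JS_differentiable`. `J₂` is bounded for `z.re ≥ 0`: by `JS_spec_bound` if `Spec κ T h`, otherwise by
`engine_spread` (`JS_growth`, `dense_lat_rot`, `samples_JS`). `engine_complex` with `u = ⟨-c, -a⟩`, `v = ⟨-d, -b⟩`
(`u.re * v.im - u.im * v.re = c * b - a * d`), `Psi_of_JS`, `eq_of_Psi`. -/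
theorem spec_right {a b c d κ T : ℝ} (hdet : a * d - b * c ≠ 0) (hind : IndepQ a b)
    (hκ : 0 ≤ κ) {f h : ℝ → ℂ} (hf : MemLp f 2 volume) (hh : MemLp h 2 volume)
    (hT : Spec κ T f) (hcase : Dense8 a b c d ∨ Spec κ T h) (H : SameSamples a b c d f h) :
    PhaseEq f h := by
  have hpi := Real.pi_pos
  have hπκ : 0 < Real.pi + κ := by linarith
  obtain ⟨β, hβ⟩ : ∃ β : ℝ, β = Real.pi ^ 2 / (Real.pi + κ) := ⟨_, rfl⟩
  have hβ0 : 0 ≤ β := by rw [hβ]; positivity
  have hβπ : β ≤ Real.pi := by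
    rw [hβ, div_le_iff₀ hπκ]
    nlinarith
  obtain ⟨A, hA0, hA⟩ := JS_spec_bound hκ hT
  rw [← hβ] at hA
  have h1 : ∃ A₂ : ℝ, ∀ z : ℂ, 0 ≤ z.re → ‖JS β T h z‖ ≤ A₂ := by
    rcases hcase with hD | hS
    · obtain ⟨B, hB0, hB⟩ := JS_growth hh hβ0 hβπ T
      exact ⟨12 * A, engine_spread (u := ⟨-c, -a⟩) (v := ⟨-d, -b⟩) (dense_lat_rot hD) (JS_differentiable hh β T) hA0 hB0 hA hB
        (samples_JS H β T)⟩
    · obtain ⟨A₂, -, hA₂⟩ := JS_spec_bound hκ hS
      rw [← hβ] at hA₂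
      exact ⟨A₂, f3_bound hA₂⟩
  obtain ⟨A₂, hA₂⟩ := h1
  have hu : ((⟨-c, -a⟩ : ℂ).re * (⟨-d, -b⟩ : ℂ).im - (⟨-c, -a⟩ : ℂ).im * (⟨-d, -b⟩ : ℂ).re) ≠ 0 := by
    change -c * -b - -a * -d ≠ 0
    intro h0
    apply hdet
    linarith
  obtain ⟨w, hw1, hw2⟩ := engine_complex (u := ⟨-c, -a⟩) (v := ⟨-d, -b⟩) hu
    (by
      intro m n hmn
      change -a * m + -b * n = 0 at hmn
      exact hind m n (by linarith))
    (JS_differentiable hf β T) (JS_differentiable hh β T) (M := max A A₂)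
    (fun z hz => (f3_bound hA z hz).trans (le_max_left _ _)) (fun z hz => (hA₂ z hz).trans (le_max_right _ _))
    (samples_JS H β T)
  exact ⟨w, hw1, eq_of_Psi hf hh fun z => Psi_of_JS hw2 z⟩

theorem f3_stft (f : ℝ → ℂ) (x w : ℝ) : stft (fun t => f (-t)) x w = stft f (-x) (-w) := by
  unfold stft
  rw [← integral_neg_eq_self (fun t : ℝ => f t * Complex.exp (-Real.pi * (t - ((-x : ℝ) : ℂ)) ^ 2) *
    Complex.exp (-2 * Real.pi * Complex.I * ((-w : ℝ) : ℂ) * t))]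
  refine integral_congr_ae (Filter.Eventually.of_forall fun t => ?_)
  have e1 : (-(Real.pi : ℂ) * ((t : ℂ) - x) ^ 2) = -Real.pi * (((-t : ℝ) : ℂ) - ((-x : ℝ) : ℂ)) ^ 2 := by
    push_cast; ring
  have e2 : (-2 * (Real.pi : ℂ) * Complex.I * w * t) =
      -2 * Real.pi * Complex.I * ((-w : ℝ) : ℂ) * ((-t : ℝ) : ℂ) := by
    push_cast; ring
  change f (-t) * Complex.exp (-Real.pi * ((t : ℂ) - x) ^ 2) * Complex.exp (-2 * Real.pi * Complex.I * w * t) =
    f (-t) * Complex.exp (-Real.pi * (((-t : ℝ) : ℂ) - ((-x : ℝ) : ℂ)) ^ 2) *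
      Complex.exp (-2 * Real.pi * Complex.I * ((-w : ℝ) : ℂ) * ((-t : ℝ) : ℂ))
  rw [e1, e2]

/-- (F3b, S/M) PROOF. `spec_right` for `t ↦ f (-t)`, `t ↦ h (-t)`: `Spec κ (-T)` holds with the measure `ν.map (-·)`
and `φ (-w)` (or directly: `integral_map`). See `complex_left`. -/
theorem spec_left {a b c d κ T : ℝ} (hdet : a * d - b * c ≠ 0) (hind : IndepQ a b)
    (hκ : 0 ≤ κ) {f h : ℝ → ℂ} (hf : MemLp f 2 volume) (hh : MemLp h 2 volume)
    (hT : Spec κ T (fun t => f (-t))) (hD : Dense8 a b c d) (H : SameSamples a b c d f h) :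
    PhaseEq f h := by
  have hmp : MeasurePreserving (fun t : ℝ => -t) volume volume := Measure.measurePreserving_neg volume
  have hf' : MemLp (fun t => f (-t)) 2 volume := hf.comp_measurePreserving hmp
  have hh' : MemLp (fun t => h (-t)) 2 volume := hh.comp_measurePreserving hmp
  obtain ⟨u, hu1, hu2⟩ := spec_right hdet hind hκ hf' hh' hT (Or.inl hD) (by
    intro m n
    rw [f3_stft, f3_stft]
    have h1 := H (-m) (-n)
    push_cast at h1
    have e1 : -(a * (m : ℝ) + b * n) = a * -m + b * -n := by ring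
    have e2 : -(c * (m : ℝ) + d * n) = c * -m + d * -n := by ring
    rw [e1, e2]
    exact h1)
  refine ⟨u, hu1, ?_⟩
  have h2 := hmp.quasiMeasurePreserving.ae hu2
  filter_upwards [h2] with t ht
  simpa using ht

/-- (F3c, S) PROOF. If `f = 0` a.e. then `h = 0` a.e. Otherwise pick `t` with `h t = u f t`, `f t ≠ 0` real: `u` is
real, `u = ± 1`. -/
theorem signEq_of_phaseEq {f h : ℝ → ℝ} (H : PhaseEq (toC f) (toC h)) : SignEq f h := by
  obtain ⟨u, hu1, hu2⟩ := H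
  by_cases h0 : ∀ᵐ t : ℝ, f t = 0
  · left
    filter_upwards [h0, hu2] with t h1 h2
    unfold toC at h2
    rw [h1, Complex.ofReal_zero, mul_zero, Complex.ofReal_eq_zero] at h2
    rw [h1, h2]
  · have h1 : ∃ t : ℝ, f t ≠ 0 ∧ toC h t = u * toC f t := by
      by_contra hcon
      push Not at hcon
      apply h0
      filter_upwards [hu2] with t ht
      by_contra hft
      exact hcon t hft ht
    obtain ⟨t, hft, ht⟩ := h1
    unfold toC at ht
    have h2 : u = ((h t / f t : ℝ) : ℂ) := by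
      rw [Complex.ofReal_div, eq_div_iff (by exact_mod_cast hft)]
      exact ht.symm
    rw [h2, Complex.norm_real, Real.norm_eq_abs] at hu1
    rcases eq_or_eq_neg_of_abs_eq hu1 with h3 | h3
    · left
      filter_upwards [hu2] with t ht
      unfold toC at ht
      rw [h2, h3, Complex.ofReal_one, one_mul] at ht
      exact_mod_cast ht
    · right
      filter_upwards [hu2] with t ht
      unfold toC at ht
      rw [h2, h3] at ht
      have h4 : ((h t : ℝ) : ℂ) = ((-f t : ℝ) : ℂ) := by rw [ht]; push_cast; ring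
      exact_mod_cast h4

end H12S
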