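import Pool.Agent.Lib.H12S.FDefs
import Pool.Agent.Lib.H12S.A1
import Pool.Agent.Lib.H12S.A3

/-! # H12S, chunk F4 (M): complex counterexample with compact support for dependent `c`, `d` -/

namespace H12S

open MeasureTheory

/-- (F4a, S) PROOF. There are `(m, n) ≠ (0, 0)` with `p m + q n = 0`. If `m ≠ 0`, then with `g = q / m` we have
`q = m g`, `p = - n g`; replace `g` by `-g` if it is negative (`g ≠ 0`, otherwise `p = q = 0`). If `m = 0` then
`n ≠ 0`, `q = 0`, `p ≠ 0`: `g = |p|`. -/
theorem common_divisor {p q : ℝ} (hpq : ¬ IndepQ p q) (h0 : ¬ (p = 0 ∧ q = 0)) :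
    ∃ (g : ℝ) (k l : ℤ), 0 < g ∧ p = g * k ∧ q = g * l := by
  unfold IndepQ at hpq
  push Not at hpq
  obtain ⟨m, n, hmn, hne⟩ := hpq
  by_cases hm : m = 0
  · have hn := hne hm
    subst hm
    have hn' : (n : ℝ) ≠ 0 := by exact_mod_cast hn
    have hq : q = 0 := by
      have h1 : q * n = 0 := by simpa using hmn
      exact (mul_eq_zero.1 h1).resolve_right hn'
    have hp : p ≠ 0 := fun hp => h0 ⟨hp, hq⟩
    rcases lt_or_gt_of_ne hp with hlt | hgt
    · exact ⟨-p, -1, 0, by linarith, by push_cast; ring, by push_cast; rw [hq]; ring⟩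
    · exact ⟨p, 1, 0, hgt, by push_cast; ring, by push_cast; rw [hq]; ring⟩
  · have hm' : (m : ℝ) ≠ 0 := by exact_mod_cast hm
    have hp : p = -(q / m) * n := by
      field_simp
      linarith
    have hq : q = (q / m) * m := by field_simp
    have hg : q / m ≠ 0 := by
      intro h
      apply h0
      rw [h] at hp hq
      exact ⟨by simpa using hp, by simpa using hq⟩
    rcases lt_or_gt_of_ne hg with hlt | hgt
    · exact ⟨-(q / m), n, -m, by linarith, hp, by push_cast; rw [neg_mul_neg]; exact hq⟩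
    · exact ⟨q / m, -n, m, hgt, by push_cast; rw [mul_neg, ← neg_mul]; exact hp, hq⟩

/-- the shifted part of the counterexample -/
noncomputable def bump (s t : ℝ) : ℝ :=
  Set.indicator (Set.Ico s (3 * s / 2)) (fun t => Real.exp (2 * Real.pi * s * t - Real.pi * s ^ 2)) t

/-- (F4b, S/M) PROOF. Substitute `t = t' + s`: `-π (t' + s) ^ 2 + 2 π s (t' + s) - π s ^ 2 + 2 π (t' + s) z =`
`-π t' ^ 2 + 2 π t' z + 2 π s z`. -/
theorem Psi_bump (s : ℝ) (z : ℂ) :
    Psi (fun t => (bump s t : ℂ)) z = Complex.exp (2 * Real.pi * s * z) *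
      Psi (fun t => ((Set.indicator (Set.Ico 0 (s / 2)) (fun _ => (1 : ℝ)) t : ℝ) : ℂ)) z := by
  unfold Psi
  rw [← integral_add_right_eq_self _ s, ← integral_const_mul]
  refine integral_congr_ae (Filter.Eventually.of_forall fun t => ?_)
  show (bump s (t + s) : ℂ) * Complex.exp (-Real.pi * ((t + s : ℝ) : ℂ) ^ 2 + 2 * Real.pi * ((t + s : ℝ) : ℂ) * z) =
    Complex.exp (2 * Real.pi * s * z) * (((Set.indicator (Set.Ico 0 (s / 2)) (fun _ => (1 : ℝ)) t : ℝ) : ℂ) *
      Complex.exp (-Real.pi * (t : ℂ) ^ 2 + 2 * Real.pi * t * z))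
  unfold bump
  by_cases ht : t ∈ Set.Ico 0 (s / 2)
  · have ht' : t + s ∈ Set.Ico s (3 * s / 2) := ⟨by linarith [ht.1], by linarith [ht.2]⟩
    rw [Set.indicator_of_mem ht, Set.indicator_of_mem ht', Complex.ofReal_exp, ← Complex.exp_add,
      Complex.ofReal_one, one_mul, ← Complex.exp_add]
    congr 1
    push_cast
    ring
  · have ht' : t + s ∉ Set.Ico s (3 * s / 2) := fun h => ht ⟨by linarith [h.1], by linarith [h.2]⟩
    rw [Set.indicator_of_notMem ht, Set.indicator_of_notMem ht']
    simp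

theorem f4_memLp_e (s : ℝ) :
    MemLp (fun t => ((Set.indicator (Set.Ico 0 (s / 2)) (fun _ => (1 : ℝ)) t : ℝ) : ℂ)) 2 volume := by
  have h1 : MemLp (Set.indicator (Set.Ico 0 (s / 2)) (fun _ => (1 : ℝ))) 2 volume :=
    memLp_indicator_const 2 measurableSet_Ico 1 (Or.inr (by simp))
  exact h1.ofReal

theorem f4_memLp_bump (s : ℝ) (hs : 0 < s) : MemLp (fun t => (bump s t : ℂ)) 2 volume := by
  have h1 : MemLp (Set.indicator (Set.Ico s (3 * s / 2))
      (fun _ => Real.exp (2 * Real.pi * s * (3 * s / 2)))) 2 volume :=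
    memLp_indicator_const 2 measurableSet_Ico _ (Or.inr (by simp))
  have h2 : MemLp (bump s) 2 volume := by
    refine h1.mono ?_ (Filter.Eventually.of_forall fun t => ?_)
    · exact ((by fun_prop : Measurable fun t : ℝ =>
        Real.exp (2 * Real.pi * s * t - Real.pi * s ^ 2)).indicator measurableSet_Ico).aestronglyMeasurable
    · unfold bump
      by_cases ht : t ∈ Set.Ico s (3 * s / 2)
      · rw [Set.indicator_of_mem ht, Set.indicator_of_mem ht, Real.norm_eq_abs, Real.norm_eq_abs,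
          abs_of_pos (Real.exp_pos _), abs_of_pos (Real.exp_pos _)]
        refine Real.exp_le_exp.2 ?_
        have h3 : 0 < 2 * Real.pi * s := by positivity
        have h4 : 0 < Real.pi * s ^ 2 := by positivity
        have h5 : 2 * Real.pi * s * t ≤ 2 * Real.pi * s * (3 * s / 2) :=
          mul_le_mul_of_nonneg_left ht.2.le h3.le
        linarith
      · rw [Set.indicator_of_notMem ht, Set.indicator_of_notMem ht]
  exact h2.ofReal

theorem f4_Psi_add {f₁ f₂ : ℝ → ℂ} (h₁ : MemLp f₁ 2 volume) (h₂ : MemLp f₂ 2 volume) (v : ℂ) (z : ℂ) :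
    Psi (fun t => f₁ t + v * f₂ t) z = Psi f₁ z + v * Psi f₂ z := by
  unfold Psi
  rw [← integral_const_mul, ← integral_add (Psi_integrable h₁ z) ((Psi_integrable h₂ z).const_mul v)]
  refine integral_congr_ae (Filter.Eventually.of_forall fun t => ?_)
  show (f₁ t + v * f₂ t) * _ = f₁ t * _ + v * (f₂ t * _)
  ring

/-- (F4c, M) PROOF. `g` from `common_divisor` for `c`, `d`; `s = 1 / g`; `e = 1` on `[0, s/2)`, `0` elsewhere;
`f = e + i bump`, `h = e - i bump`, zero on `(3 s / 2, ∞)` and on `(-∞, 0)`. At a lattice point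
`z = x - i w`, `w = c m + d n = g * j` with an integer `j`: `exp (2 π s z) = exp (2 π s x) =: r > 0` (real), so
`Psi f z = (1 + i r) Psi e z`, `Psi h z = (1 - i r) Psi e z` (`Psi_bump`, linearity, `Psi_integrable`), and
`|1 + i r| = |1 - i r|`. If `h = u f` a.e., then `u = 1` (on `[0, s/2)`) and `u = -1` (on `[s, 3 s / 2)`, where
`bump > 0`); both intervals have positive measure. -/
theorem counter_complex {a b c d : ℝ} (hdet : a * d - b * c ≠ 0) (hdep : ¬ IndepQ c d) :
    ∃ (f h : ℝ → ℂ) (T : ℝ), MemLp f 2 volume ∧ MemLp h 2 volume ∧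
      (∀ t : ℝ, (t < 0 ∨ T < t) → f t = 0 ∧ h t = 0) ∧ SameSamples a b c d f h ∧
      ¬ PhaseEq f h := by
  obtain ⟨g, k, l, hg, hc, hd⟩ := common_divisor hdep (by
    rintro ⟨h1, h2⟩
    apply hdet
    rw [h1, h2]
    ring)
  set s : ℝ := 1 / g with hs
  have hspos : 0 < s := by positivity
  set e : ℝ → ℂ := fun t => ((Set.indicator (Set.Ico 0 (s / 2)) (fun _ => (1 : ℝ)) t : ℝ) : ℂ) with he
  set B : ℝ → ℂ := fun t => (bump s t : ℂ) with hB
  have hem : MemLp e 2 volume := f4_memLp_e s
  have hBm : MemLp B 2 volume := f4_memLp_bump s hspos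
  refine ⟨fun t => e t + Complex.I * B t, fun t => e t + (-Complex.I) * B t, 3 * s / 2,
    hem.add (hBm.const_mul _), hem.add (hBm.const_mul _), ?_, ?_, ?_⟩
  · intro t ht
    have h1 : t ∉ Set.Ico 0 (s / 2) := by
      rintro ⟨h1, h2⟩
      rcases ht with ht | ht <;> linarith
    have h2 : t ∉ Set.Ico s (3 * s / 2) := by
      rintro ⟨h1, h2⟩
      rcases ht with ht | ht <;> linarith
    have h3 : e t = 0 := by
      simp only [he]
      rw [Set.indicator_of_notMem h1]
      simp
    have h4 : B t = 0 := by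
      simp only [hB]
      unfold bump
      rw [Set.indicator_of_notMem h2]
      simp
    constructor
    · show e t + Complex.I * B t = 0
      rw [h3, h4]
      simp
    · show e t + -Complex.I * B t = 0
      rw [h3, h4]
      simp
  · intro m n
    rw [stft_norm_iff]
    set x : ℝ := a * m + b * n
    have hw : c * m + d * n = g * ((k * m + l * n : ℤ) : ℝ) := by
      rw [hc, hd]
      push_cast
      ring
    set j : ℤ := k * m + l * n
    have hexp : Complex.exp (2 * Real.pi * s * ((x : ℂ) - Complex.I * ((c * m + d * n : ℝ) : ℂ))) =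
        ((Real.exp (2 * Real.pi * s * x) : ℝ) : ℂ) := by
      have h1 : (2 * Real.pi * s * ((x : ℂ) - Complex.I * ((c * m + d * n : ℝ) : ℂ)) : ℂ) =
          ((2 * Real.pi * s * x : ℝ) : ℂ) + ((-j : ℤ) : ℂ) * (2 * Real.pi * Complex.I) := by
        rw [hw, hs]
        have hg' : (g : ℂ) ≠ 0 := by exact_mod_cast hg.ne'
        push_cast
        field_simp
        ring
      rw [h1, Complex.exp_add, Complex.exp_int_mul_two_pi_mul_I, mul_one, Complex.ofReal_exp]
    have key : ∀ v : ℂ, Psi (fun t => e t + v * B t) ((x : ℂ) - Complex.I * ((c * m + d * n : ℝ) : ℂ)) =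
        (1 + v * ((Real.exp (2 * Real.pi * s * x) : ℝ) : ℂ)) *
          Psi e ((x : ℂ) - Complex.I * ((c * m + d * n : ℝ) : ℂ)) := by
      intro v
      rw [f4_Psi_add hem hBm v, hB, Psi_bump, hexp, ← he]
      ring
    rw [key, key, norm_mul, norm_mul]
    congr 1
    set r : ℝ := Real.exp (2 * Real.pi * s * x)
    have h1 : (1 + -Complex.I * (r : ℂ)) = (starRingEnd ℂ) (1 + Complex.I * (r : ℂ)) := by
      simp
    rw [h1, Complex.norm_conj]
  · rintro ⟨u, -, hu⟩
    have hdense := MeasureTheory.Measure.dense_of_ae hu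
    obtain ⟨t1, h1, ht1⟩ := hdense.exists_mem_open isOpen_Ioo
      (show (Set.Ioo (0 : ℝ) (s / 2)).Nonempty from Set.nonempty_Ioo.2 (by positivity))
    obtain ⟨t2, h2, ht2⟩ := hdense.exists_mem_open isOpen_Ioo
      (show (Set.Ioo s (3 * s / 2)).Nonempty from Set.nonempty_Ioo.2 (by linarith))
    have e1 : e t1 = 1 := by
      simp only [he]
      rw [Set.indicator_of_mem (show t1 ∈ Set.Ico 0 (s / 2) from ⟨ht1.1.le, ht1.2⟩)]
      simp
    have b1 : B t1 = 0 := by
      simp only [hB]
      unfold bump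
      rw [Set.indicator_of_notMem (fun hh : t1 ∈ Set.Ico s (3 * s / 2) => by linarith [hh.1, ht1.2])]
      simp
    have e2 : e t2 = 0 := by
      simp only [he]
      rw [Set.indicator_of_notMem (fun hh : t2 ∈ Set.Ico 0 (s / 2) => by linarith [hh.2, ht2.1])]
      simp
    have b2 : B t2 ≠ 0 := by
      simp only [hB]
      unfold bump
      rw [Set.indicator_of_mem (show t2 ∈ Set.Ico s (3 * s / 2) from ⟨ht2.1.le, ht2.2⟩)]
      exact_mod_cast (Real.exp_pos _).ne'
    have h1' : e t1 + -Complex.I * B t1 = u * (e t1 + Complex.I * B t1) := h1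
    have h2' : e t2 + -Complex.I * B t2 = u * (e t2 + Complex.I * B t2) := h2
    rw [e1, b1] at h1'
    rw [e2] at h2'
    have hu1 : u = 1 := by simpa using h1'.symm
    rw [hu1] at h2'
    have h3 : (2 * Complex.I) * B t2 = 0 := by linear_combination -h2'
    rcases mul_eq_zero.1 h3 with h4 | h4
    · exact absurd h4 (by simp)
    · exact b2 h4

end H12S
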