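import Pool.Agent.Lib.H12S.FDefs
import Pool.Agent.Lib.H12S.A3
import Pool.Agent.Lib.H12S.P1
import Pool.Agent.Lib.H12S.F4

/-! # H12S, chunk F5 (M): real counterexample (trigonometric polynomial times Gaussian) for dependent `a`, `b` -/

namespace H12S

open MeasureTheory

/-- the two signals (`s = 1`, `s = -1`) -/
noncomputable def trig (η s t : ℝ) : ℝ :=
  (Real.cos (η * t) + s * Real.sin (η * t)) * Real.exp (-Real.pi * t ^ 2)

/-- the Gaussian integrals used in `Psi_trig` -/
theorem f5_gauss (c : ℂ) :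
    Integrable (fun t : ℝ => Complex.exp (-2 * Real.pi * t ^ 2 + c * t)) ∧
      ∫ t : ℝ, Complex.exp (-2 * Real.pi * t ^ 2 + c * t) =
        (Real.sqrt (1 / 2) : ℝ) * Complex.exp (c ^ 2 / (8 * Real.pi)) := by
  have hpi : (Real.pi : ℂ) ≠ 0 := by exact_mod_cast Real.pi_ne_zero
  have hre : (-2 * (Real.pi : ℂ)).re < 0 := by
    have h1 : (-2 * (Real.pi : ℂ)) = ((-2 * Real.pi : ℝ) : ℂ) := by push_cast; ring
    rw [h1, Complex.ofReal_re]
    have := Real.pi_pos
    linarith
  have e1 : (fun t : ℝ => Complex.exp (-2 * Real.pi * t ^ 2 + c * t)) =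
      fun t : ℝ => Complex.exp (-2 * Real.pi * t ^ 2 + c * t + 0) := by
    funext t
    rw [add_zero]
  rw [e1]
  refine ⟨integrable_cexp_quadratic' hre c 0, ?_⟩
  rw [integral_cexp_quadratic hre c 0]
  have h2 : (Real.pi : ℂ) / -(-2 * Real.pi) = ((1 / 2 : ℝ) : ℂ) := by
    push_cast
    field_simp
  have h3 : ((Real.sqrt (1 / 2) : ℝ) : ℂ) = (((1 / 2 : ℝ) : ℂ)) ^ (1 / 2 : ℂ) := by
    rw [Real.sqrt_eq_rpow, Complex.ofReal_cpow (by norm_num)]
    push_cast
    rfl
  rw [h2, h3]
  congr 2
  field_simp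
  ring

/-- (F5a, S/M) PROOF. Gaussian integral (`integral_cexp_quadratic`): `∫ exp (-2 π t ^ 2 + (2 π z ± i η) t) dt =`
`(1/2) ^ (1/2) exp ((2 π z ± i η) ^ 2 / (8 π))`, and `cos`, `sin` in terms of `exp (± i η t)`. -/
theorem Psi_trig (η s : ℝ) (z : ℂ) :
    Psi (toC (trig η s)) z = (Real.sqrt (1 / 2) * Real.exp (-η ^ 2 / (8 * Real.pi)) : ℝ) *
      Complex.exp (Real.pi * z ^ 2 / 2) *
      (Complex.cos (η * z / 2) + s * Complex.sin (η * z / 2)) := by
  have hpi : (Real.pi : ℂ) ≠ 0 := by exact_mod_cast Real.pi_ne_zero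
  obtain ⟨i1, v1⟩ := f5_gauss (2 * Real.pi * z + Complex.I * η)
  obtain ⟨i2, v2⟩ := f5_gauss (2 * Real.pi * z - Complex.I * η)
  have e1 : Psi (toC (trig η s)) z = ∫ t : ℝ,
      ((1 - Complex.I * s) / 2 *
        Complex.exp (-2 * Real.pi * t ^ 2 + (2 * Real.pi * z + Complex.I * η) * t) +
      (1 + Complex.I * s) / 2 *
        Complex.exp (-2 * Real.pi * t ^ 2 + (2 * Real.pi * z - Complex.I * η) * t)) := by
    unfold Psi toC trig
    refine integral_congr_ae (Filter.Eventually.of_forall fun t => ?_)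
    simp only
    have a1 : Complex.exp (-2 * Real.pi * t ^ 2 + (2 * Real.pi * z + Complex.I * η) * t) =
        Complex.exp (-Real.pi * t ^ 2) * Complex.exp (-Real.pi * t ^ 2 + 2 * Real.pi * t * z) *
          Complex.exp (η * t * Complex.I) := by
      rw [← Complex.exp_add, ← Complex.exp_add]
      congr 1
      ring
    have a2 : Complex.exp (-2 * Real.pi * t ^ 2 + (2 * Real.pi * z - Complex.I * η) * t) =
        Complex.exp (-Real.pi * t ^ 2) * Complex.exp (-Real.pi * t ^ 2 + 2 * Real.pi * t * z) *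
          Complex.exp (-(η * t) * Complex.I) := by
      rw [← Complex.exp_add, ← Complex.exp_add]
      congr 1
      ring
    rw [a1, a2]
    push_cast
    rw [Complex.cos, Complex.sin]
    ring
  rw [e1, integral_add (i1.const_mul _) (i2.const_mul _), integral_const_mul, integral_const_mul,
    v1, v2]
  have b1 : Complex.exp ((2 * Real.pi * z + Complex.I * η) ^ 2 / (8 * Real.pi)) =
      Complex.exp (-η ^ 2 / (8 * Real.pi)) * Complex.exp (Real.pi * z ^ 2 / 2) *
        Complex.exp (η * z / 2 * Complex.I) := by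
    rw [← Complex.exp_add, ← Complex.exp_add]
    congr 1
    field_simp
    linear_combination 2 * (η : ℂ) ^ 2 * Complex.I_sq
  have b2 : Complex.exp ((2 * Real.pi * z - Complex.I * η) ^ 2 / (8 * Real.pi)) =
      Complex.exp (-η ^ 2 / (8 * Real.pi)) * Complex.exp (Real.pi * z ^ 2 / 2) *
        Complex.exp (-(η * z / 2) * Complex.I) := by
    rw [← Complex.exp_add, ← Complex.exp_add]
    congr 1
    field_simp
    linear_combination 2 * (η : ℂ) ^ 2 * Complex.I_sq
  rw [b1, b2]
  push_cast
  rw [Complex.cos, Complex.sin]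
  ring

/-- (F5b, S) PROOF. `|cos w + sin w| ^ 2 - |cos w - sin w| ^ 2 = 4 Re (cos w * conj (sin w)) = 2 sin (2 Re w)`. -/
theorem norm_cos_sin {w : ℂ} (hw : Real.sin (2 * w.re) = 0) :
    ‖Complex.cos w + Complex.sin w‖ = ‖Complex.cos w - Complex.sin w‖ := by
  have h0 : Real.sin w.re * Real.cos w.re = 0 := by
    rw [Real.sin_two_mul] at hw
    linarith
  have kc : Complex.cos w = ((Real.cos w.re * Real.cosh w.im : ℝ) : ℂ) +
      ((-(Real.sin w.re * Real.sinh w.im) : ℝ) : ℂ) * Complex.I := by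
    rw [Complex.cos_eq w]
    push_cast
    ring
  have ks : Complex.sin w = ((Real.sin w.re * Real.cosh w.im : ℝ) : ℂ) +
      ((Real.cos w.re * Real.sinh w.im : ℝ) : ℂ) * Complex.I := by
    rw [Complex.sin_eq w]
    push_cast
    ring
  have gre : ∀ p q : ℝ, ((p : ℂ) + (q : ℂ) * Complex.I).re = p := by
    intro p q
    simp only [Complex.add_re, Complex.ofReal_re, Complex.mul_re, Complex.I_re,
      Complex.ofReal_im, Complex.I_im]
    ring
  have gim : ∀ p q : ℝ, ((p : ℂ) + (q : ℂ) * Complex.I).im = q := by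
    intro p q
    simp only [Complex.add_im, Complex.ofReal_re, Complex.mul_im, Complex.I_re,
      Complex.ofReal_im, Complex.I_im]
    ring
  have c1 : (Complex.cos w).re = Real.cos w.re * Real.cosh w.im := by
    rw [kc, gre]
  have c2 : (Complex.cos w).im = -(Real.sin w.re * Real.sinh w.im) := by
    rw [kc, gim]
  have s1 : (Complex.sin w).re = Real.sin w.re * Real.cosh w.im := by
    rw [ks, gre]
  have s2 : (Complex.sin w).im = Real.cos w.re * Real.sinh w.im := by
    rw [ks, gim]
  have hsq : ‖Complex.cos w + Complex.sin w‖ ^ 2 = ‖Complex.cos w - Complex.sin w‖ ^ 2 := by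
    rw [Complex.sq_norm, Complex.sq_norm, Complex.normSq_apply, Complex.normSq_apply]
    simp only [Complex.add_re, Complex.add_im, Complex.sub_re, Complex.sub_im, c1, c2, s1, s2]
    linear_combination 4 * (Real.cosh w.im ^ 2 - Real.sinh w.im ^ 2) * h0
  exact (pow_left_inj₀ (norm_nonneg _) (norm_nonneg _) two_ne_zero).1 hsq

/-- (F5c, M) PROOF. `trig η s t = exp (-π t ^ 2) * ∫ φ exp (2 π i w t) dν` with `ν = dirac (η / (2 π)) + dirac (-η / (2 π))`,
`φ = (1 - i s) / 2` at `η / (2 π)` and `(1 + i s) / 2` at `-η / (2 π)`; `T = -|η| / (2 π)`. (`η = 0` is excluded.) -/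
theorem spec_trig {η : ℝ} (hη : 0 < η) (s : ℝ) : Spec Real.pi (-η / (2 * Real.pi)) (toC (trig η s)) := by
  have hpi : (Real.pi : ℂ) ≠ 0 := by exact_mod_cast Real.pi_ne_zero
  have hη' : (η : ℂ) ≠ 0 := by exact_mod_cast hη.ne'
  have hpp := Real.pi_pos
  have hlt : -η / (2 * Real.pi) < η / (2 * Real.pi) := by
    apply div_lt_div_of_pos_right _ (by positivity)
    linarith
  have hi : ∀ (F : ℝ → ℂ) (x : ℝ), Integrable F (Measure.dirac x) := by
    intro F x
    exact integrable_dirac (by simp)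
  refine ⟨Measure.dirac (η / (2 * Real.pi)) + Measure.dirac (-η / (2 * Real.pi)),
    fun w => (1 - Complex.I * s * (2 * Real.pi * w / η)) / 2, inferInstance, ?_, ?_, ?_⟩
  · exact (hi _ _).add_measure (hi _ _)
  · rw [ae_add_measure_iff, ae_dirac_eq, ae_dirac_eq]
    constructor
    · intro h
      exact absurd h (not_lt.2 hlt.le)
    · intro h
      exact absurd h (lt_irrefl _)
  · refine Filter.Eventually.of_forall fun t => ?_
    rw [integral_add_measure (hi _ _) (hi _ _), integral_dirac, integral_dirac]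
    have a1 : Complex.exp (2 * Real.pi * Complex.I * ((η / (2 * Real.pi) : ℝ) : ℂ) * t) =
        Complex.exp (η * t * Complex.I) := by
      congr 1
      push_cast
      field_simp
    have a2 : Complex.exp (2 * Real.pi * Complex.I * ((-η / (2 * Real.pi) : ℝ) : ℂ) * t) =
        Complex.exp (-(η * t) * Complex.I) := by
      congr 1
      push_cast
      field_simp
    have a3 : (2 * Real.pi * ((η / (2 * Real.pi) : ℝ) : ℂ) / η : ℂ) = 1 := by
      push_cast
      field_simp
    have a4 : (2 * Real.pi * ((-η / (2 * Real.pi) : ℝ) : ℂ) / η : ℂ) = -1 := by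
      push_cast
      field_simp
    beta_reduce
    rw [a1, a2, a3, a4]
    unfold toC trig
    push_cast
    rw [Complex.cos, Complex.sin]
    ring

theorem f5_cont (η s : ℝ) : Continuous (trig η s) := by
  unfold trig
  fun_prop

theorem f5_memLp (η s : ℝ) : MemLp (trig η s) 2 volume := by
  have hg : Integrable (fun t : ℝ => (1 + |s|) ^ 2 * Real.exp (-(2 * Real.pi) * t ^ 2)) :=
    (integrable_exp_neg_mul_sq (by positivity)).const_mul _
  rw [memLp_two_iff_integrable_sq (f5_cont η s).aestronglyMeasurable]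
  refine hg.mono' ((f5_cont η s).pow 2).aestronglyMeasurable (Filter.Eventually.of_forall fun t => ?_)
  have h1 : Real.exp (-(2 * Real.pi) * t ^ 2) = Real.exp (-Real.pi * t ^ 2) ^ 2 := by
    rw [← Real.exp_nat_mul]
    push_cast
    ring_nf
  have h2 : |Real.cos (η * t) + s * Real.sin (η * t)| ≤ 1 + |s| := by
    calc |Real.cos (η * t) + s * Real.sin (η * t)| ≤ |Real.cos (η * t)| + |s * Real.sin (η * t)| :=
          abs_add_le _ _
      _ ≤ 1 + |s| * 1 := by
          rw [abs_mul]
          exact add_le_add (Real.abs_cos_le_one _)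
            (mul_le_mul_of_nonneg_left (Real.abs_sin_le_one _) (abs_nonneg _))
      _ = 1 + |s| := by ring
  rw [Real.norm_eq_abs, abs_pow, trig, abs_mul, mul_pow, abs_of_pos (Real.exp_pos _), h1]
  exact mul_le_mul_of_nonneg_right (pow_le_pow_left₀ (abs_nonneg _) h2 2) (by positivity)

/-- (F5d, M) PROOF. `g` from `common_divisor` for `a`, `b` (not both zero), `η = π / g`, `f = trig η 1`,
`h = trig η (-1)`. At a lattice point `z = x - i w` with `x = a m + b n = g * j`: `2 Re (η z / 2) = η x = π j`, so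
`norm_cos_sin` applies (`Psi_trig`, `stft_norm_iff`). `f` and `h` are continuous, in `L²` (bounded times a
Gaussian); `f = ± h` a.e. would give `sin (η t) = 0` or `cos (η t) = 0` for all `t`. -/
theorem counter_real {a b c d : ℝ} (hdet : a * d - b * c ≠ 0) (hdep : ¬ IndepQ a b) :
    ∃ (f h : ℝ → ℝ) (T : ℝ), MemLp f 2 volume ∧ MemLp h 2 volume ∧ Spec Real.pi T (toC f) ∧
      Spec Real.pi T (toC h) ∧ SameSamples a b c d (toC f) (toC h) ∧ ¬ SignEq f h := by
  have h0 : ¬ (a = 0 ∧ b = 0) := by
    rintro ⟨rfl, rfl⟩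
    exact hdet (by ring)
  obtain ⟨g, k, l, hg, ha, hb⟩ := common_divisor hdep h0
  have hη : 0 < Real.pi / g := div_pos Real.pi_pos hg
  refine ⟨trig (Real.pi / g) 1, trig (Real.pi / g) (-1), -(Real.pi / g) / (2 * Real.pi),
    f5_memLp _ _, f5_memLp _ _, spec_trig hη 1, spec_trig hη (-1), ?_, ?_⟩
  · intro m n
    rw [stft_norm_iff, Psi_trig, Psi_trig, norm_mul, norm_mul]
    have hw : Real.sin (2 * (((Real.pi / g : ℝ) : ℂ) *
        (((a * m + b * n : ℝ) : ℂ) - Complex.I * ((c * m + d * n : ℝ) : ℂ)) / 2).re) = 0 := by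
      have h1 : (2 * (((Real.pi / g : ℝ) : ℂ) *
        (((a * m + b * n : ℝ) : ℂ) - Complex.I * ((c * m + d * n : ℝ) : ℂ)) / 2).re) =
          ((k * m + l * n : ℤ) : ℝ) * Real.pi := by
        have h2 : (((Real.pi / g : ℝ) : ℂ) *
            (((a * m + b * n : ℝ) : ℂ) - Complex.I * ((c * m + d * n : ℝ) : ℂ)) / 2) =
            ((Real.pi / g * (a * m + b * n) / 2 : ℝ) : ℂ) +
              ((-(Real.pi / g * (c * m + d * n) / 2) : ℝ) : ℂ) * Complex.I := by
          push_cast
          ring
        rw [h2]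
        simp only [Complex.add_re, Complex.ofReal_re, Complex.mul_re, Complex.I_re,
          Complex.ofReal_im, Complex.I_im]
        rw [ha, hb]
        push_cast
        field_simp
        ring
      rw [h1]
      exact Real.sin_int_mul_pi _
    have h3 := norm_cos_sin hw
    simpa [sub_eq_add_neg] using h3
  · rintro (h | h)
    · have h1 : trig (Real.pi / g) (-1) = trig (Real.pi / g) 1 :=
        (Continuous.ae_eq_iff_eq volume (f5_cont _ _) (f5_cont _ _)).1 h
      have h2 := congrFun h1 (g / 2)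
      unfold trig at h2
      have h3 : Real.pi / g * (g / 2) = Real.pi / 2 := by
        field_simp
      rw [h3, Real.sin_pi_div_two, Real.cos_pi_div_two] at h2
      have h4 := Real.exp_pos (-Real.pi * (g / 2) ^ 2)
      linarith
    · have h1 : trig (Real.pi / g) (-1) = fun t => -trig (Real.pi / g) 1 t :=
        (Continuous.ae_eq_iff_eq volume (f5_cont _ _) (f5_cont _ _).neg).1 h
      have h2 := congrFun h1 0
      simp [trig] at h2
      norm_num at h2

end H12S
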