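import Pool.Agent.Lib.H12S.F2
import Pool.Agent.Lib.H12S.F3
import Pool.Agent.Lib.H12S.F4
import Pool.Agent.Lib.H12S.F5

/-! # H12S, chunk F6 (S/M): assembly -/

namespace H12S

open MeasureTheory

/-- `f` vanishes almost everywhere on a half-line -/
def VanishHalf (f : ℝ → ℂ) : Prop :=
  ∃ T : ℝ, (∀ᵐ t : ℝ, T < t → f t = 0) ∨ (∀ᵐ t : ℝ, t < T → f t = 0)

/-- `f` is a Gaussian (possibly constant) times a Fourier integral with spectrum in a half-line -/
def OneSided (f : ℝ → ℂ) : Prop :=
  ∃ κ T : ℝ, 0 ≤ κ ∧ (Spec κ T f ∨ Spec κ T (fun t => f (-t)))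

/-- (F6a, S) PROOF. `real_right`, `real_left`. -/
theorem main_real {a b c d : ℝ} (hdet : a * d - b * c ≠ 0) (hD : Dense8 a b c d)
    {f h : ℝ → ℝ} (hf : MemLp f 2 volume) (hh : MemLp h 2 volume) (hT : VanishHalf (toC f))
    (H : SameSamples a b c d (toC f) (toC h)) : SignEq f h := by
  obtain ⟨T, hT | hT⟩ := hT
  · exact real_right hdet hf hh hT (Or.inl hD) H
  · exact real_left hdet hf hh hT hD H

theorem f6_zeroRight {f : ℝ → ℂ} {T : ℝ} (h : ∀ t : ℝ, (t < 0 ∨ T < t) → f t = 0) :
    ZeroRight T f :=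
  Filter.Eventually.of_forall fun t ht => h t (Or.inr ht)

/-- (F6b, S) PROOF. `complex_right`, `complex_left`; `counter_complex`. -/
theorem main_complex {a b c d : ℝ} (hdet : a * d - b * c ≠ 0) (hD : Dense8 a b c d) :
    IndepQ c d ↔ ∀ f h : ℝ → ℂ, MemLp f 2 volume → MemLp h 2 volume → VanishHalf f →
      SameSamples a b c d f h → PhaseEq f h := by
  constructor
  · rintro hind f h hf hh ⟨T, hT | hT⟩ H
    · exact complex_right hdet hind hf hh hT (Or.inl hD) H
    · exact complex_left hdet hind hf hh hT hD H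
  · intro hall
    by_contra hdep
    obtain ⟨f, h, T, hf, hh, h0, H, hn⟩ := counter_complex hdet hdep
    exact hn (hall f h hf hh ⟨T, Or.inl (f6_zeroRight fun t ht => (h0 t ht).1)⟩ H)

/-- (F6c, S) PROOF. `complex_right`; `counter_complex`. -/
theorem main_complex_both {a b c d : ℝ} (hdet : a * d - b * c ≠ 0) :
    IndepQ c d ↔ ∀ (T : ℝ) (f h : ℝ → ℂ), MemLp f 2 volume → MemLp h 2 volume →
      ZeroRight T f → ZeroRight T h → SameSamples a b c d f h → PhaseEq f h := by
  constructor
  · intro hind T f h hf hh hT hT' H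
    exact complex_right hdet hind hf hh hT (Or.inr hT') H
  · intro hall
    by_contra hdep
    obtain ⟨f, h, T, hf, hh, h0, H, hn⟩ := counter_complex hdet hdep
    exact hn (hall T f h hf hh (f6_zeroRight fun t ht => (h0 t ht).1)
      (f6_zeroRight fun t ht => (h0 t ht).2) H)

/-- (F6d, S) PROOF. `spec_right`, `spec_left`; `counter_real`: a pair of real signals with `PhaseEq` would have
`SignEq` (`signEq_of_phaseEq`). -/
theorem main_spec {a b c d : ℝ} (hdet : a * d - b * c ≠ 0) (hD : Dense8 a b c d) :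
    IndepQ a b ↔ ∀ f h : ℝ → ℂ, MemLp f 2 volume → MemLp h 2 volume → OneSided f →
      SameSamples a b c d f h → PhaseEq f h := by
  constructor
  · rintro hind f h hf hh ⟨κ, T, hκ, hT | hT⟩ H
    · exact spec_right hdet hind hκ hf hh hT (Or.inl hD) H
    · exact spec_left hdet hind hκ hf hh hT hD H
  · intro hall
    by_contra hdep
    obtain ⟨f, h, T, hf, hh, hT, _, H, hn⟩ := counter_real hdet hdep
    exact hn (signEq_of_phaseEq (hall (toC f) (toC h) (memLp_toC hf) (memLp_toC hh)
      ⟨Real.pi, T, Real.pi_pos.le, Or.inl hT⟩ H))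

/-- (F6e, S) PROOF. `main_spec`, `signEq_of_phaseEq`; `counter_real`. -/
theorem main_spec_real {a b c d : ℝ} (hdet : a * d - b * c ≠ 0) (hD : Dense8 a b c d) :
    IndepQ a b ↔ ∀ f h : ℝ → ℝ, MemLp f 2 volume → MemLp h 2 volume → OneSided (toC f) →
      SameSamples a b c d (toC f) (toC h) → SignEq f h := by
  constructor
  · intro hind f h hf hh hT H
    exact signEq_of_phaseEq ((main_spec hdet hD).1 hind (toC f) (toC h) (memLp_toC hf)
      (memLp_toC hh) hT H)
  · intro hall
    by_contra hdep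
    obtain ⟨f, h, T, hf, hh, hT, _, H, hn⟩ := counter_real hdet hdep
    exact hn (hall f h hf hh ⟨Real.pi, T, Real.pi_pos.le, Or.inl hT⟩ H)

/-- (F6f, S) PROOF. `spec_right`; `counter_real`. -/
theorem main_spec_both {a b c d : ℝ} (hdet : a * d - b * c ≠ 0) :
    IndepQ a b ↔ ∀ (κ T : ℝ) (f h : ℝ → ℂ), 0 ≤ κ → MemLp f 2 volume → MemLp h 2 volume →
      Spec κ T f → Spec κ T h → SameSamples a b c d f h → PhaseEq f h := by
  constructor
  · intro hind κ T f h hκ hf hh hT hT' H
    exact spec_right hdet hind hκ hf hh hT (Or.inr hT') H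
  · intro hall
    by_contra hdep
    obtain ⟨f, h, T, hf, hh, hT, hT', H, hn⟩ := counter_real hdet hdep
    exact hn (signEq_of_phaseEq (hall Real.pi T (toC f) (toC h) Real.pi_pos.le (memLp_toC hf)
      (memLp_toC hh) hT hT' H))

end H12S
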