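import Pool.Agent.Lib.H12S.Defs

/-! # H12S: the notions of the final theorem -/

namespace H12S

open MeasureTheory

/-- `p` and `q` are linearly independent over the rationals -/
def IndepQ (p q : ℝ) : Prop := ∀ m n : ℤ, p * m + q * n = 0 → m = 0 ∧ n = 0

/-- `h = u f` almost everywhere for a constant `u` of modulus one -/
def PhaseEq (f h : ℝ → ℂ) : Prop := ∃ u : ℂ, ‖u‖ = 1 ∧ ∀ᵐ t : ℝ, h t = u * f t

/-- `h = f` almost everywhere or `h = - f` almost everywhere -/
def SignEq (f h : ℝ → ℝ) : Prop := (∀ᵐ t : ℝ, h t = f t) ∨ (∀ᵐ t : ℝ, h t = -f t)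

/-- the complex-valued version of a real-valued function -/
def toC (f : ℝ → ℝ) : ℝ → ℂ := fun t => (f t : ℂ)

/-- `f` vanishes almost everywhere on `(T, ∞)` -/
def ZeroRight (T : ℝ) (f : ℝ → ℂ) : Prop := ∀ᵐ t : ℝ, T < t → f t = 0

/-- (FD1, S) PROOF. `Complex.isometry_ofReal` / `MemLp.ofReal`. -/
theorem memLp_toC {f : ℝ → ℝ} (hf : MemLp f 2 volume) : MemLp (toC f) 2 volume := hf.ofReal

end H12S
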