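import Pool.Agent.Lib.H13K.T1a

set_option autoImplicit false

open scoped unitInterval

namespace H12S

open H13K

instance locI : LocallyPathConnectedSpace I := by
  refine LocallyPathConnectedSpace.of_bases (fun x => Metric.nhds_basis_ball) ?_
  intro x r hr
  rw [Topology.IsInducing.subtypeVal.isPathConnected_iff]
  have h : (Subtype.val '' Metric.ball x r : Set ℝ) = Metric.ball (x : ℝ) r ∩ Set.Icc 0 1 := by
    ext y
    constructor
    · rintro ⟨z, hz, rfl⟩
      exact ⟨by simpa [Metric.mem_ball, Subtype.dist_eq] using hz, z.2⟩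
    · rintro ⟨hy, hy2⟩
      exact ⟨⟨y, hy2⟩, by simpa [Metric.mem_ball, Subtype.dist_eq] using hy, rfl⟩
  rw [h]
  exact ((convex_ball _ _).inter (convex_Icc _ _)).isPathConnected
    ⟨x, Metric.mem_ball_self hr, x.2⟩

instance contI : ContractibleSpace I := (convex_Icc (0 : ℝ) 1).contractibleSpace ⟨0, by simp⟩

theorem extend {X Y : Type} [TopologicalSpace X] [TopologicalSpace Y] (j : C(X, Y))
    {H : Type} [Group H] (Φ : PF X H) (U : Set (Set Y)) (hopen : ∀ u ∈ U, IsOpen u)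
    (hbasis : ∀ (y : Y) (o : Set Y), IsOpen o → y ∈ o → ∃ u ∈ U, y ∈ u ∧ u ⊆ o)
    (hne : ∀ u ∈ U, ∃ x : X, j x ∈ u)
    (hpc : ∀ u ∈ U, ∀ x x' : X, j x ∈ u → j x' ∈ u → ∃ p : Path x x', ∀ t, j (p t) ∈ u)
    (hkill : ∀ u ∈ U, ∀ (x : X) (p : Path x x), (∀ t, j (p t) ∈ u) → Φ.val p = 1)
    {x x' : X} (p q : Path x x')
    (h : (p.map j.continuous).Homotopic (q.map j.continuous)) : Φ.val p = Φ.val q := by
  classical
  obtain ⟨C⟩ := exists_core j Φ U hopen hbasis hne hpc hkill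
  letI : TopologicalSpace H := ⊥
  haveI : DiscreteTopology H := ⟨rfl⟩
  have hidx : ∀ y : Y, ∃ u ∈ U, y ∈ u := fun y => by
    obtain ⟨u, hu, hy, _⟩ := hbasis y Set.univ isOpen_univ trivial
    exact ⟨u, hu, hy⟩
  choose ix hixU hix using hidx
  -- value of c at points of X
  have c_x : ∀ u ∈ U, ∀ v ∈ U, ∀ x : X, j x ∈ u → j x ∈ v →
      C.c u v (j x) = (C.lam u x)⁻¹ * C.lam v x := by
    intro u hu v hv x hxu hxv
    obtain ⟨w, _, hyw, _, hc⟩ := C.c_spec u hu v hv (j x) hxu hxv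
    exact (hc x hyw).symm
  -- c is locally constant
  have c_loc : ∀ u ∈ U, ∀ v ∈ U, ∀ y, y ∈ u → y ∈ v →
      ∃ w ∈ U, y ∈ w ∧ w ⊆ u ∩ v ∧ ∀ y' ∈ w, C.c u v y' = C.c u v y := by
    intro u hu v hv y hyu hyv
    obtain ⟨w, hw, hyw, hwuv, hc⟩ := C.c_spec u hu v hv y hyu hyv
    refine ⟨w, hw, hyw, hwuv, ?_⟩
    intro y' hy'
    obtain ⟨w', hw', hyw', _, hc'⟩ := C.c_spec u hu v hv y' (hwuv hy').1 (hwuv hy').2
    obtain ⟨w'', hw'', hy'', hsub⟩ := hbasis y' (w ∩ w') ((hopen w hw).inter (hopen w' hw'))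
      ⟨hy', hyw'⟩
    obtain ⟨x₀, hx₀⟩ := hne w'' hw''
    rw [← hc x₀ (hsub hx₀).1, ← hc' x₀ (hsub hx₀).2]
  -- every y has an x nearby with the same c for three pairs
  have c_self : ∀ u ∈ U, ∀ y ∈ u, C.c u u y = 1 := by
    intro u hu y hy
    obtain ⟨w, hw, hyw, hwuv, hc⟩ := C.c_spec u hu u hu y hy hy
    obtain ⟨x₀, hx₀⟩ := hne w hw
    rw [← hc x₀ hx₀, inv_mul_cancel]
  have c_mul : ∀ u ∈ U, ∀ v ∈ U, ∀ k ∈ U, ∀ y, y ∈ u → y ∈ v → y ∈ k →
      C.c u v y * C.c v k y = C.c u k y := by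
    intro u hu v hv k hk y hyu hyv hyk
    obtain ⟨w1, hw1, hy1, hs1, hc1⟩ := C.c_spec u hu v hv y hyu hyv
    obtain ⟨w2, hw2, hy2, hs2, hc2⟩ := C.c_spec v hv k hk y hyv hyk
    obtain ⟨w3, hw3, hy3, hs3, hc3⟩ := C.c_spec u hu k hk y hyu hyk
    obtain ⟨w, hw, hyw, hsub⟩ := hbasis y (w1 ∩ w2 ∩ w3)
      (((hopen _ hw1).inter (hopen _ hw2)).inter (hopen _ hw3)) ⟨⟨hy1, hy2⟩, hy3⟩
    obtain ⟨x₀, hx₀⟩ := hne w hw
    have hx := hsub hx₀
    rw [← hc1 x₀ hx.1.1, ← hc2 x₀ hx.1.2, ← hc3 x₀ hx.2]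
    group
  let Z : FiberBundleCore U Y H :=
    { baseSet := fun i => i.1
      isOpen_baseSet := fun i => hopen _ i.2
      indexAt := fun y => ⟨ix y, hixU y⟩
      mem_baseSet_at := hix
      coordChange := fun i k y h => C.c k.1 i.1 y * h
      coordChange_self := by
        intro i y hy v
        show C.c i.1 i.1 y * v = v
        rw [c_self i.1 i.2 y hy, one_mul]
      continuousOn_coordChange := by
        intro i k
        rintro ⟨y, v⟩ ⟨⟨hyi, hyk⟩, _⟩
        obtain ⟨w, hw, hyw, hsub, hc⟩ := c_loc k.1 k.2 i.1 i.2 y hyk hyi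
        apply ContinuousAt.continuousWithinAt
        have h1 : ContinuousAt (fun p : Y × H => C.c k.1 i.1 y * p.2) (y, v) :=
          (continuous_const.mul continuous_snd).continuousAt
        refine h1.congr ?_
        have h2 : ∀ᶠ p : Y × H in nhds (y, v), p.1 ∈ w :=
          continuous_fst.continuousAt.eventually_mem ((hopen w hw).mem_nhds hyw)
        filter_upwards [h2] with p hp
        rw [hc p.1 hp]
      coordChange_comp := by
        rintro i k l y ⟨⟨hyi, hyk⟩, hyl⟩ v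
        show C.c l.1 k.1 y * (C.c k.1 i.1 y * v) = C.c l.1 i.1 y * v
        rw [← mul_assoc, c_mul l.1 l.2 k.1 k.2 i.1 i.2 y hyl hyk hyi] }
  have hcov : IsCoveringMap (Z.proj) := FiberBundle.isCoveringMap (F := H) (E := Z.Fiber)
  obtain ⟨F⟩ := h
  obtain ⟨G, ⟨hG0, hG⟩, _⟩ := hcov.existsUnique_continuousMap_lifts (F : C(I × I, Y)) (0, 0)
    (⟨F (0, 0), (1 : H)⟩ : Z.TotalSpace) rfl
  have hG' : ∀ a, (G a).proj = F a := fun a => congrFun hG a
  -- the global coordinate
  let gg : X → Z.TotalSpace → H := fun x e => C.lam (ix (j x)) x * (show H from e.2)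
  have gg_eq : ∀ (u : U) (x : X) (e : Z.TotalSpace), e.proj = j x → j x ∈ u.1 →
      gg x e = C.lam u.1 x * (Z.localTriv u e).2 := by
    intro u x e he hx
    rw [FiberBundleCore.localTriv_apply]
    show C.lam (ix (j x)) x * (show H from e.2) = C.lam u.1 x * (C.c u.1 (ix e.proj) e.proj * (show H from e.2))
    rw [he, c_x u.1 u.2 _ (hixU _) x hx (hix _), mul_assoc, mul_inv_cancel_left]
  -- the key claim
  have key : ∀ (r : Path x x') (sg : C(I, Z.TotalSpace)), (∀ t, (sg t).proj = j (r t)) →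
      Φ.val r = gg x' (sg 1) * (gg x (sg 0))⁻¹ := by
    intro r sg hsg
    let Ψ : PF I H := Φ.comap (r : C(I, X))
    have hpath : ∀ t : I, ∃ π : Path (0 : I) t, True := fun t =>
      ⟨(PathConnectedSpace.joined 0 t).somePath, trivial⟩
    choose π _ using hpath
    have hloc : IsLocallyConstant (fun t : I => (Ψ.val (π t))⁻¹ * gg (r t) (sg t)) := by
      rw [IsLocallyConstant.iff_eventually_eq]
      intro t₀
      let u : U := ⟨ix (j (r t₀)), hixU _⟩
      have hcont : ContinuousAt (fun t : I => (Z.localTriv u (sg t)).2) t₀ := by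
        have h1 : sg t₀ ∈ (Z.localTriv u).source := by
          rw [FiberBundleCore.mem_localTriv_source]
          show (sg t₀).proj ∈ u.1
          rw [hsg]
          exact hix _
        exact (continuous_snd.continuousAt.comp ((Z.localTriv u).continuousAt h1)).comp
          sg.continuous.continuousAt
      have hev1 : ∀ᶠ t in nhds t₀, (Z.localTriv u (sg t)).2 = (Z.localTriv u (sg t₀)).2 := by
        have := hcont.eventually (isOpen_discrete ({(Z.localTriv u (sg t₀)).2} : Set H)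
          |>.mem_nhds rfl)
        filter_upwards [this] with t ht using ht
      have hev2 : ∀ᶠ t in nhds t₀, j (r t) ∈ u.1 :=
        (j.continuous.comp r.continuous).continuousAt.eventually_mem
          ((hopen _ u.2).mem_nhds (hix _))
      obtain ⟨V, ⟨hV, hVpc⟩, hVsub⟩ := (path_connected_basis t₀).mem_iff.1 (hev1.and hev2)
      filter_upwards [hV] with t ht
      obtain ⟨τ, hτ⟩ := hVpc.joinedIn t₀ (mem_of_mem_nhds hV) t ht
      have h1 : Ψ.val (π t) = Ψ.val τ * Ψ.val (π t₀) := by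
        rw [← Ψ.trans]
        exact Ψ.val_eq_of_simplyConnected _ _
      have h2 : Ψ.val τ = C.lam u.1 (r t) * (C.lam u.1 (r t₀))⁻¹ :=
        C.lam_path u.1 u.2 _ _ _ (fun s => (hVsub (hτ s)).2)
      have h3 : gg (r t) (sg t) = C.lam u.1 (r t) * (Z.localTriv u (sg t₀)).2 := by
        rw [gg_eq u (r t) (sg t) (hsg t) (hVsub ht).2, (hVsub ht).1]
      have h4 : gg (r t₀) (sg t₀) = C.lam u.1 (r t₀) * (Z.localTriv u (sg t₀)).2 :=
        gg_eq u (r t₀) (sg t₀) (hsg t₀) (hix _)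
      rw [h3, h4, h1, h2]
      group
    have h1 := hloc.apply_eq_of_isPreconnected isPreconnected_univ
      (Set.mem_univ (0 : I)) (Set.mem_univ (1 : I))
    have h2 : Ψ.val (π 0) = 1 := by
      rw [Ψ.val_eq_of_simplyConnected (π 0) (Path.refl 0), Ψ.val_refl]
    let id' : Path (0 : I) 1 := ⟨ContinuousMap.id I, rfl, rfl⟩
    have h3 : Ψ.val (π 1) = Φ.val r := by
      rw [Ψ.val_eq_of_simplyConnected (π 1) id']
      show Φ.val _ = _
      have : (id'.map (r : C(I, X)).continuous) = r.cast (by simp) (by simp) := by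
        ext t; rfl
      rw [this, PF.val_cast]
    have h4 : gg (r 0) (sg 0) = gg x (sg 0) := by rw [r.source]
    have h5 : gg (r 1) (sg 1) = gg x' (sg 1) := by rw [r.target]
    simp only [h2, h3, h4, h5, inv_one, one_mul] at h1
    rw [h1]
    group
  have hp : Φ.val p = gg x' (G (0, 1)) * (gg x (G (0, 0)))⁻¹ := by
    refine key p ⟨fun t => G (0, t), by fun_prop⟩ (fun t => ?_)
    show (G (0, t)).proj = _
    rw [hG']
    simp
  have hq : Φ.val q = gg x' (G (1, 1)) * (gg x (G (1, 0)))⁻¹ := by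
    refine key q ⟨fun t => G (1, t), by fun_prop⟩ (fun t => ?_)
    show (G (1, t)).proj = _
    rw [hG']
    simp
  have hb : G (0, 0) = G (1, 0) :=
    hcov.const_of_comp (A := I) (g := fun s => G (s, 0)) (by fun_prop)
      (fun a a' => by
        show (G (a, 0)).proj = (G (a', 0)).proj
        rw [hG', hG']; simp) 0 1
  have ht : G (0, 1) = G (1, 1) :=
    hcov.const_of_comp (A := I) (g := fun s => G (s, 1)) (by fun_prop)
      (fun a a' => by
        show (G (a, 1)).proj = (G (a', 1)).proj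
        rw [hG', hG']; simp) 0 1
  rw [hp, hq, hb, ht]

end H12S
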